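import Pool.Agent.H72.Karp.Defs

/-!
Randomised colouring algorithms, and the algorithm which returns the largest colour class.
-/

set_option autoImplicit false

namespace Pool.Agent.H72.Karp

open Finset Pool.Agent.H85.Online

/-- A randomised algorithm which gives every vertex a colour. For every order `m` there is a number
`seeds m` of equally likely seeds, and the colour of a vertex is an arbitrary function of the graph
and of the seed. -/
structure ColAlg where
  /-- the number of seeds -/
  seeds : ℕ → ℕ
  /-- the colour of a vertex -/
  out : ∀ m : ℕ, SimpleGraph (Fin m) → Fin (seeds m) → Fin m → ℕ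

/-- The probability, over `G(m,p)` and a uniform seed, that the output is a proper colouring with
at most `t` colours. -/
noncomputable def ColAlg.success (B : ColAlg) (p : ℝ) (m : ℕ) (t : ℝ) : ℝ :=
  (∑ ρ : Fin (B.seeds m), Prob p (fun G : SimpleGraph (Fin m) =>
    (∀ u v, G.Adj u v → B.out m G ρ u ≠ B.out m G ρ v) ∧
      (((univ.image (B.out m G ρ)).card : ℕ) : ℝ) ≤ t)) / B.seeds m

/-- the set of the vertices with the colour `c` -/
def colourClass {m : ℕ} (f : Fin m → ℕ) (c : ℕ) : Finset (Fin m) := univ.filter fun v => f v = c

open Classical in
/-- a largest colour class -/
noncomputable def largestClass {m : ℕ} (f : Fin m → ℕ) : Finset (Fin m) :=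
  if h : (univ : Finset (Fin m)).Nonempty then
    colourClass f (f (exists_max_image univ (fun v => (colourClass f (f v)).card) h).choose)
  else ∅

/-- the algorithm for independent sets which returns a largest colour class of the output of `B` -/
noncomputable def ColAlg.toSet (B : ColAlg) : SetAlg where
  seeds := B.seeds
  out := fun m G ρ => largestClass (B.out m G ρ)

end Pool.Agent.H72.Karp
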