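import Pool.Agent.H72.Karp.Main
import Pool.Agent.H72.Karp.ColDefs

/-!
Randomised colouring algorithms, and the algorithm which returns the largest colour class.
-/

set_option autoImplicit false

namespace Pool.Agent.H72.Karp

open Finset Pool.Agent.H85.Online Filter

variable {p : ℝ}

theorem largestClass_indep {m : ℕ} (G : SimpleGraph (Fin m)) (f : Fin m → ℕ)
    (h : ∀ u v, G.Adj u v → f u ≠ f v) : Indep G (largestClass f) := by
  unfold largestClass
  split_ifs with h0
  · intro u hu v hv hadj
    unfold colourClass at hu hv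
    rw [mem_filter] at hu hv
    exact h u v hadj (hu.2.trans hv.2.symm)
  · intro u hu
    simp at hu

theorem largestClass_card {m : ℕ} (f : Fin m → ℕ) :
    m ≤ (univ.image f).card * (largestClass f).card := by
  classical
  by_cases h0 : (univ : Finset (Fin m)).Nonempty
  · have h1 : ∀ c ∈ univ.image f, (univ.filter fun v => f v = c).card ≤ (largestClass f).card := by
      intro c hc
      obtain ⟨v, _, rfl⟩ := mem_image.1 hc
      unfold largestClass
      rw [dif_pos h0]
      exact (exists_max_image univ (fun v => (colourClass f (f v)).card) h0).choose_spec.2 v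
        (mem_univ v)
    have h2 := card_eq_sum_card_image f (univ : Finset (Fin m))
    rw [card_univ, Fintype.card_fin] at h2
    calc m = ∑ c ∈ univ.image f, (univ.filter fun v => f v = c).card := h2
      _ ≤ ∑ _c ∈ univ.image f, (largestClass f).card := sum_le_sum h1
      _ = _ := by rw [sum_const, smul_eq_mul]
  · rw [not_nonempty_iff_eq_empty, univ_eq_empty_iff] at h0
    have : m = 0 := by
      by_contra hm
      exact h0.elim ⟨0, Nat.pos_of_ne_zero hm⟩
    omega

theorem toSet_success (B : ColAlg) (h0 : 0 < p) (h1 : p < 1) {m : ℕ} (hm : 0 < m) {s : ℝ}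
    (hs : 0 < s) : B.success p m (m / s) ≤ B.toSet.success p m s := by
  unfold ColAlg.success SetAlg.success
  refine div_le_div_of_nonneg_right (Finset.sum_le_sum fun ρ _ => ?_) (Nat.cast_nonneg _)
  refine Prob_mono h0 h1 fun G hG => ?_
  refine ⟨largestClass_indep G _ hG.1, ?_⟩
  have h2 := largestClass_card (B.out m G ρ)
  have h3 : (m : ℝ) ≤ ((univ.image (B.out m G ρ)).card : ℝ) *
      ((largestClass (B.out m G ρ)).card : ℝ) := by exact_mod_cast h2
  have hmr : (0 : ℝ) < m := by exact_mod_cast hm
  have h4 : (m : ℝ) ≤ (m / s) * ((largestClass (B.out m G ρ)).card : ℝ) :=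
    h3.trans (mul_le_mul_of_nonneg_right hG.2 (Nat.cast_nonneg _))
  have h5 : (m / s) * ((largestClass (B.out m G ρ)).card : ℝ)
      = m * (((largestClass (B.out m G ρ)).card : ℝ) / s) := by ring
  rw [h5] at h4
  have h6 : 1 ≤ ((largestClass (B.out m G ρ)).card : ℝ) / s := by
    by_contra hcon
    push Not at hcon
    nlinarith
  rw [le_div_iff₀ hs, one_mul] at h6
  exact h6

end Pool.Agent.H72.Karp
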