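import Pool.Agent.H72.Karp.Symm

/-!
For almost every graph, and for every set of covered vertices, a random sample is accepted with
probability at least a constant times the success probability of the algorithm.
-/

set_option autoImplicit false
set_option linter.unusedSectionVars false

namespace Pool.Agent.H72.Karp

open Finset Pool.Agent.H85.Online

variable {n m g : ℕ} {p : ℝ} (A : SetAlg) (s : ℝ)

theorem comap_emb (h : m * g ≤ n) (G : SimpleGraph (Fin n)) (π : Equiv.Perm (Fin m))
    (f : Fin m → Fin g) : G.comap (emb h π f) = (G.comap (sf h f)).comap π := by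
  rw [SimpleGraph.comap_comap]
  rfl

theorem cand_eq (h : m * g ≤ n) (G : SimpleGraph (Fin n)) (σ : Sample m g (A.seeds m)) :
    cand A h G σ = (outp A (G.comap (sf h σ.2.1)) σ.1 σ.2.2).map (emb h σ.1 σ.2.1) := by
  unfold cand outp
  rw [comap_emb]

theorem indep_map {V W : Type*} (G : SimpleGraph W) (e : V ↪ W) (B : Finset V) :
    Indep G (B.map e) ↔ Indep (G.comap e) B := by
  unfold Indep
  constructor
  · intro h u hu v hv
    exact h (e u) (Finset.mem_map_of_mem e hu) (e v) (Finset.mem_map_of_mem e hv)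
  · intro h x hx y hy
    obtain ⟨u, hu, rfl⟩ := Finset.mem_map.1 hx
    obtain ⟨v, hv, rfl⟩ := Finset.mem_map.1 hy
    exact h u hu v hv

/-- the sample finds an independent set with at least `s` vertices -/
def SucG (h : m * g ≤ n) (G : SimpleGraph (Fin n)) (σ : Sample m g (A.seeds m)) : Prop :=
  Indep G (cand A h G σ) ∧ s ≤ ((cand A h G σ).card : ℝ)

theorem sucG_iff (h : m * g ≤ n) (G : SimpleGraph (Fin n)) (σ : Sample m g (A.seeds m)) :
    SucG A s h G σ ↔ Suc A s (G.comap (sf h σ.2.1)) σ.1 σ.2.2 := by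
  unfold SucG Suc
  rw [cand_eq, indep_map, Finset.card_map, comap_emb]

open Classical in
/-- average over the samples -/
noncomputable def avS (F : Sample m g (A.seeds m) → ℝ) : ℝ :=
  (∑ σ, F σ) / Fintype.card (Sample m g (A.seeds m))

theorem card_sample : (Fintype.card (Sample m g (A.seeds m)) : ℝ)
    = (g : ℝ) ^ m * ((m.factorial : ℝ) * A.seeds m) := by
  simp only [Sample, Fintype.card_prod, Fintype.card_perm, Fintype.card_fin, Fintype.card_pi,
    Finset.prod_const, Finset.card_univ]
  push_cast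
  ring

/-- rearrangement of the average over the samples -/
theorem avS_eq (F : Sample m g (A.seeds m) → ℝ) :
    avS A F = ∑ f : Fin m → Fin g, (1 / (g : ℝ) ^ m) *
      ((∑ x : Equiv.Perm (Fin m) × Fin (A.seeds m), F (x.1, f, x.2))
        / ((m.factorial : ℝ) * A.seeds m)) := by
  classical
  unfold avS
  have e : ∑ σ : Sample m g (A.seeds m), F σ
      = ∑ f : Fin m → Fin g, ∑ x : Equiv.Perm (Fin m) × Fin (A.seeds m), F (x.1, f, x.2) := by
    rw [Fintype.sum_prod_type, Finset.sum_congr rfl fun π _ => Fintype.sum_prod_type _,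
      Finset.sum_comm]
    refine Finset.sum_congr rfl fun f _ => ?_
    rw [Fintype.sum_prod_type]
  rw [e, card_sample, Finset.sum_div]
  refine Finset.sum_congr rfl fun f _ => ?_
  rw [div_mul_div_comm, one_mul]

open Classical in
/-- the success probability of a sample, given the graph -/
noncomputable def Wt (h : m * g ≤ n) (α : Fin m → Fin g) (G : SimpleGraph (Fin n)) : ℝ :=
  ∑ f : Fin m → Fin g, cw ∅ α f * hw A s (G.comap (sf h f))

/-- the average share of the vertex number `a` of the group `i`, given the graph -/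
noncomputable def Xv (h : m * g ≤ n) (G : SimpleGraph (Fin n)) (i : Fin m) (a : Fin g) : ℝ :=
  ∑ f : Fin m → Fin g, cw {i} (fun _ => a) f * hv A s i (G.comap (sf h f))

open Classical in
theorem avS_suc (h : m * g ≤ n) (α : Fin m → Fin g) (G : SimpleGraph (Fin n)) :
    avS A (fun σ => if SucG A s h G σ then 1 else 0) = Wt A s h α G := by
  rw [avS_eq]
  unfold Wt
  refine Finset.sum_congr rfl fun f _ => ?_
  congr 1
  · unfold cw
    simp
  · unfold hw
    congr 1
    refine Finset.sum_congr rfl fun x _ => ?_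
    rw [sucG_iff]

theorem pt_mem_cand (h : m * g ≤ n) (G : SimpleGraph (Fin n)) (σ : Sample m g (A.seeds m))
    (i : Fin m) (a : Fin g) : pt h i a ∈ cand A h G σ ↔
      σ.2.1 i = a ∧ σ.1.symm i ∈ outp A (G.comap (sf h σ.2.1)) σ.1 σ.2.2 := by
  rw [cand_eq, Finset.mem_map]
  constructor
  · rintro ⟨b, hb, he⟩
    have h2 : pt h (σ.1 b) (σ.2.1 (σ.1 b)) = pt h i a := he
    obtain ⟨e1, e2⟩ := pt_inj h h2
    rw [← e1] at *
    refine ⟨e2, ?_⟩
    rwa [Equiv.symm_apply_apply]
  · rintro ⟨e1, e2⟩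
    refine ⟨σ.1.symm i, e2, ?_⟩
    change pt h (σ.1 (σ.1.symm i)) (σ.2.1 (σ.1 (σ.1.symm i))) = pt h i a
    rw [Equiv.apply_symm_apply, e1]

theorem card_cand_inter (h : m * g ≤ n) (G : SimpleGraph (Fin n)) (σ : Sample m g (A.seeds m))
    (C : Finset (Fin n)) : ((cand A h G σ ∩ C).card : ℝ)
      = ∑ x : Fin m × Fin g, if pt h x.1 x.2 ∈ C ∧ pt h x.1 x.2 ∈ cand A h G σ
          then (1 : ℝ) else 0 := by
  classical
  rw [← Finset.sum_filter, Finset.sum_const, nsmul_eq_mul, mul_one]
  congr 1
  symm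
  refine Finset.card_bij (fun x _ => pt h x.1 x.2) ?_ ?_ ?_
  · intro x hx
    have := (Finset.mem_filter.1 hx).2
    exact Finset.mem_inter.2 ⟨this.2, this.1⟩
  · intro x _ y _ hxy
    obtain ⟨e1, e2⟩ := pt_inj h hxy
    exact Prod.ext e1 e2
  · intro v hv
    rw [Finset.mem_inter] at hv
    have hv1 := hv.1
    rw [cand_eq, Finset.mem_map] at hv1
    obtain ⟨b, hb, he⟩ := hv1
    have h2 : pt h (σ.1 b) (σ.2.1 (σ.1 b)) = v := he
    refine ⟨(σ.1 b, σ.2.1 (σ.1 b)), ?_, h2⟩
    rw [Finset.mem_filter, h2]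
    exact ⟨Finset.mem_univ _, hv.2, hv.1⟩

open Classical in
theorem avS_inter (h : m * g ≤ n) (G : SimpleGraph (Fin n)) (C : Finset (Fin n)) :
    avS A (fun σ => if SucG A s h G σ
        then ((cand A h G σ ∩ C).card : ℝ) / (cand A h G σ).card else 0)
      = ∑ x : Fin m × Fin g, if pt h x.1 x.2 ∈ C then Xv A s h G x.1 x.2 else 0 := by
  rw [avS_eq]
  have e1 : ∀ (f : Fin m → Fin g) (x : Equiv.Perm (Fin m) × Fin (A.seeds m)),
      (if SucG A s h G (x.1, f, x.2) then ((cand A h G (x.1, f, x.2) ∩ C).card : ℝ)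
        / (cand A h G (x.1, f, x.2)).card else 0)
      = ∑ y : Fin m × Fin g, if pt h y.1 y.2 ∈ C then (if f y.1 = y.2 then
        (if Suc A s (G.comap (sf h f)) x.1 x.2 ∧ x.1.symm y.1 ∈ outp A (G.comap (sf h f)) x.1 x.2
          then 1 / ((outp A (G.comap (sf h f)) x.1 x.2).card : ℝ) else 0) else 0) else 0 := by
    intro f x
    have hs := sucG_iff A s h G (x.1, f, x.2)
    by_cases hS : SucG A s h G (x.1, f, x.2)
    · rw [if_pos hS]
      have hS' : Suc A s (G.comap (sf h f)) x.1 x.2 := hs.1 hS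
      rw [card_cand_inter, Finset.sum_div]
      refine Finset.sum_congr rfl fun y _ => ?_
      have hm := pt_mem_cand A h G (x.1, f, x.2) y.1 y.2
      simp only at hm
      have hc : ((cand A h G (x.1, f, x.2)).card : ℝ)
          = ((outp A (G.comap (sf h f)) x.1 x.2).card : ℝ) := by
        rw [cand_eq, Finset.card_map]
      rw [hc]
      by_cases c1 : pt h y.1 y.2 ∈ C
      · by_cases c2 : f y.1 = y.2
        · by_cases c3 : x.1.symm y.1 ∈ outp A (G.comap (sf h f)) x.1 x.2
          · simp [c1, c2, c3, hS', hm]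
          · simp [c1, c2, c3, hm]
        · simp [c1, c2, hm]
      · simp [c1]
    · rw [if_neg hS]
      have hS' : ¬ Suc A s (G.comap (sf h f)) x.1 x.2 := fun h' => hS (hs.2 h')
      symm
      refine Finset.sum_eq_zero fun y _ => ?_
      simp [hS']
  simp only [e1]
  have e2 : ∀ f : Fin m → Fin g,
      (∑ x : Equiv.Perm (Fin m) × Fin (A.seeds m), ∑ y : Fin m × Fin g,
        if pt h y.1 y.2 ∈ C then (if f y.1 = y.2 then
        (if Suc A s (G.comap (sf h f)) x.1 x.2 ∧ x.1.symm y.1 ∈ outp A (G.comap (sf h f)) x.1 x.2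
          then 1 / ((outp A (G.comap (sf h f)) x.1 x.2).card : ℝ) else 0) else 0) else 0)
        / ((m.factorial : ℝ) * A.seeds m)
      = ∑ y : Fin m × Fin g, if pt h y.1 y.2 ∈ C then (if f y.1 = y.2 then
        hv A s y.1 (G.comap (sf h f)) else 0) else 0 := by
    intro f
    rw [Finset.sum_comm, Finset.sum_div]
    refine Finset.sum_congr rfl fun y _ => ?_
    by_cases c1 : pt h y.1 y.2 ∈ C
    · by_cases c2 : f y.1 = y.2
      · simp only [c1, if_true, if_pos c2]
        rfl
      · simp [c1, c2]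
    · simp [c1]
  simp only [e2]
  simp only [Finset.mul_sum]
  rw [Finset.sum_comm]
  refine Finset.sum_congr rfl fun y _ => ?_
  by_cases c1 : pt h y.1 y.2 ∈ C
  · simp only [if_pos c1]
    unfold Xv
    refine Finset.sum_congr rfl fun f _ => ?_
    unfold cw
    by_cases c2 : f y.1 = y.2
    · simp [c2]
    · simp [c2]
  · simp [c1]

end Pool.Agent.H72.Karp
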