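import Pool.Agent.H72.Karp.Dense

/-!
The number of classes used by the greedy colouring, for all sets of vertices at once.
-/

set_option autoImplicit false
set_option linter.unusedSectionVars false

namespace Pool.Agent.H72.Karp

open Finset Pool.Agent.H85.Online Filter

/-- the logarithm to the base `1/(1-p)` -/
noncomputable def LL (p : ℝ) (n : ℕ) : ℝ := Real.logb (1 / (1 - p)) n

variable {p : ℝ}

theorem LL_eq (n : ℕ) : LL p n = Real.log n / -Real.log (1 - p) := by
  unfold LL
  rw [Real.logb, one_div, Real.log_inv]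

theorem neg_log_pos (h0 : 0 < p) (h1 : p < 1) : 0 < -Real.log (1 - p) := by
  have := Real.log_neg (show 0 < 1 - p by linarith) (show 1 - p < 1 by linarith)
  linarith

theorem log_nat_tendsto : Tendsto (fun n : ℕ => Real.log (n : ℝ)) atTop atTop :=
  Real.tendsto_log_atTop.comp tendsto_natCast_atTop_atTop

theorem log_le_rpow_eventually {e : ℝ} (he : 0 < e) :
    ∀ᶠ n : ℕ in atTop, Real.log (n : ℝ) ≤ (n : ℝ) ^ e := by
  have h := (isLittleO_log_rpow_atTop he).bound (show (0 : ℝ) < 1 by norm_num)
  filter_upwards [tendsto_natCast_atTop_atTop.eventually h, eventually_ge_atTop 1] with n hn hn1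
  have h2 : 0 ≤ Real.log (n : ℝ) := Real.log_nonneg (by exact_mod_cast hn1)
  rw [Real.norm_of_nonneg h2, Real.norm_of_nonneg (Real.rpow_nonneg (by positivity) _),
    one_mul] at hn
  exact hn

theorem rpow_eventually {e : ℝ} (he : 0 < e) (C : ℝ) :
    ∀ᶠ n : ℕ in atTop, C ≤ (n : ℝ) ^ e :=
  ((tendsto_rpow_atTop he).comp tendsto_natCast_atTop_atTop).eventually_ge_atTop C

/-- the classes of the greedy colouring have almost `log_b n` elements -/
theorem peel_bound (h0 : 0 < p) (h1 : p < 1) {η : ℝ} (hη : 0 < η) (hη1 : η < 1) :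
    ∀ᶠ n : ℕ in atTop, Prob p (fun G : SimpleGraph (Fin n) =>
      ¬ ∀ T : Finset (Fin n), ((peel G T).length : ℝ)
        ≤ T.card / ((1 - η) * LL p n) + η * n / LL p n) ≤ 2 / n := by
  set a : ℝ := -Real.log (1 - p) with ha
  have ha0 : 0 < a := neg_log_pos h0 h1
  set u : ℝ := 1 - η / 3 with hu
  have hu0 : 0 < u := by rw [hu]; linarith
  have hu1 : u < 1 := by rw [hu]; linarith
  set β : ℝ := Real.exp (-(a / u)) with hβ
  have hβ0 : 0 < β := Real.exp_pos _
  have hβlt : β < 1 - p := by
    have h2 : Real.exp (-a) = 1 - p := by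
      rw [ha, neg_neg, Real.exp_log (by linarith)]
    rw [← h2, hβ]
    apply Real.exp_lt_exp.2
    have : a < a / u := by
      rw [lt_div_iff₀ hu0]
      nlinarith
    linarith
  set δ : ℝ := (1 - p - β) / 2 with hδ
  have hδ0 : 0 < δ := by rw [hδ]; linarith
  have hδ1 : δ ≤ 1 := by rw [hδ]; linarith
  set C : ℝ := (1 + 16 / δ ^ 2 + 1 / δ) / (a * η) with hC
  have hC0 : 0 < C := by rw [hC]; positivity
  filter_upwards [log_le_rpow_eventually (show 0 < η / 12 by linarith),
    rpow_eventually (show 0 < η / 12 by linarith) 1,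
    rpow_eventually (show 0 < η / 6 by linarith) C, eventually_ge_atTop 2,
    log_nat_tendsto.eventually_ge_atTop 1] with n e1 e2 e3 e4 e5
  have hn0 : (0 : ℝ) < n := by
    exact_mod_cast (show 0 < n by omega)
  set lam : ℝ := Real.log (n : ℝ) with hlam
  have hlam0 : 0 < lam := by linarith
  have hLL : LL p n = lam / a := LL_eq n
  have hLL0 : 0 < LL p n := by rw [hLL]; positivity
  set t : ℝ := 1 + 16 * lam / δ ^ 2 + 1 / δ with ht
  have ht1 : 1 ≤ t := by
    rw [ht]
    have : 0 ≤ 16 * lam / δ ^ 2 := by positivity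
    have : 0 ≤ 1 / δ := by positivity
    linarith
  have ht2 : 2 * Real.log n ≤ (t - 1) * δ ^ 2 / 8 := by
    have : (t - 1) * δ ^ 2 / 8 = 2 * lam + δ / 8 := by
      rw [ht]
      field_simp
      ring
    rw [this]
    linarith
  refine le_trans (Prob_mono h0 h1 fun G hG => ?_)
    (prob_not_sparse h0 h1 hδ0 hδ1 (by omega) ht1 ht2)
  intro hsp
  apply hG
  intro T
  set M : ℝ := η * n / LL p n with hM
  have hM0 : 0 < M := by rw [hM]; positivity
  have hMt : u * lam ≤ Real.log (M / t) := by
    rw [Real.le_log_iff_exp_le (by positivity)]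
    have h2 : Real.exp (u * lam) = n / (n : ℝ) ^ (η / 3) := by
      rw [eq_div_iff (by positivity), Real.rpow_def_of_pos hn0, ← Real.exp_add]
      rw [show u * lam + Real.log n * (η / 3) = Real.log n by rw [hu]; ring]
      exact Real.exp_log hn0
    rw [h2, le_div_iff₀ (by positivity), div_mul_eq_mul_div, div_le_iff₀ (by positivity), hM, hLL]
    have h3 : η * n / (lam / a) * (n : ℝ) ^ (η / 3)
        = n * ((a * η) * (n : ℝ) ^ (η / 3) / lam) := by
      field_simp
    rw [h3]
    refine mul_le_mul_of_nonneg_left ?_ hn0.le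
    rw [le_div_iff₀ hlam0]
    set x : ℝ := (n : ℝ) ^ (η / 12) with hx
    have hx3 : (n : ℝ) ^ (η / 6) = x ^ 2 := by
      rw [hx, ← Real.rpow_natCast, ← Real.rpow_mul hn0.le]
      congr 1
      push_cast
      ring
    have hx4 : (n : ℝ) ^ (η / 3) = x ^ 4 := by
      rw [hx, ← Real.rpow_natCast, ← Real.rpow_mul hn0.le]
      congr 1
      push_cast
      ring
    rw [hx3] at e3
    rw [hx4]
    have h4 : t ≤ (C * (a * η)) * x := by
      have : C * (a * η) = 1 + 16 / δ ^ 2 + 1 / δ := by
        rw [hC]
        field_simp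
      rw [this, ht]
      have f1 : 16 * lam / δ ^ 2 ≤ 16 / δ ^ 2 * x := by
        rw [div_mul_eq_mul_div]
        exact div_le_div_of_nonneg_right (by linarith) (by positivity)
      have f2 : 1 / δ ≤ 1 / δ * x := by
        have : 0 < 1 / δ := by positivity
        nlinarith
      nlinarith
    have hx0 : 0 < x := by linarith
    calc t * lam ≤ ((C * (a * η)) * x) * x :=
          mul_le_mul h4 e1 hlam0.le (by positivity)
      _ = (a * η) * (C * x ^ 2) := by ring
      _ ≤ (a * η) * (x ^ 2 * x ^ 2) := by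
          refine mul_le_mul_of_nonneg_left ?_ (by positivity)
          exact mul_le_mul_of_nonneg_right e3 (by positivity)
      _ = a * η * x ^ 4 := by ring
  have hdt : 1 ≤ (1 - (p + δ) - β) * t := by
    have h2 : 1 - (p + δ) - β = δ := by
      have : 1 - p - β = 2 * δ := by rw [hδ]; ring
      linarith
    rw [h2, ht]
    have h3 : δ * (1 + 16 * lam / δ ^ 2 + 1 / δ) = δ + 16 * lam / δ + 1 := by
      field_simp
    rw [h3]
    have : 0 ≤ 16 * lam / δ := by positivity
    linarith
  refine peel_length (ℓ := (1 - η) * LL p n) (M := M)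
    (mul_pos (by linarith) hLL0) hM0.le ?_ T
  intro T hMT _
  set y : ℝ := u * Real.log (M / t) / a with hy
  have hy0 : 0 ≤ y := by
    have : 0 ≤ Real.log (M / t) := le_trans (by positivity) hMt
    rw [hy]
    positivity
  set j : ℕ := ⌊y⌋₊ with hj
  have hjle : (j : ℝ) ≤ y := Nat.floor_le hy0
  have hjlt : y < j + 1 := Nat.lt_floor_add_one y
  have hgr := greedy_card hsp (by linarith) hβ0 (by linarith) hdt j T (by
    have h2 : t / M ≤ β ^ j := by
      rw [hβ, ← Real.exp_nat_mul]
      rw [← Real.log_le_iff_le_exp (by positivity)]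
      have h3 : Real.log (t / M) = -Real.log (M / t) := by
        rw [← Real.log_inv, inv_div]
      rw [h3]
      have h4 : (j : ℝ) * (a / u) ≤ Real.log (M / t) := by
        calc (j : ℝ) * (a / u) ≤ y * (a / u) := mul_le_mul_of_nonneg_right hjle (by positivity)
          _ = Real.log (M / t) := by
              rw [hy]
              field_simp
      linarith
    calc t = M * (t / M) := by field_simp
      _ ≤ T.card * β ^ j := mul_le_mul hMT h2 (by positivity) (by positivity))
  have h5 : ((1 - η) * LL p n) ≤ y := by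
    rw [hLL, hy, ← mul_div_assoc]
    refine div_le_div_of_nonneg_right ?_ ha0.le
    have h6 : u * (u * lam) ≤ u * Real.log (M / t) := mul_le_mul_of_nonneg_left hMt hu0.le
    have h7 : (1 - η) * lam ≤ u * (u * lam) := by
      rw [← mul_assoc]
      refine mul_le_mul_of_nonneg_right ?_ hlam0.le
      rw [hu]
      nlinarith
    linarith
  have h8 : ((j + 1 : ℕ) : ℝ) ≤ (greedy G T).card := by exact_mod_cast hgr
  push_cast at h8
  linarith

end Pool.Agent.H72.Karp
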