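import Pool.Agent.H72.Karp.Final

/-!
The main theorem: an algorithm which finds an independent set with at least `(1 + ε) log_b m`
vertices in `G(m,p)` with probability at least `m ^ (-c)` gives a colouring procedure which almost
surely uses at most `(2 (1 + log (1 + ε)) / (1 + ε) + δ) χ` colours.
-/

set_option autoImplicit false
set_option linter.unusedSectionVars false

namespace Pool.Agent.H72.Karp

open Finset Pool.Agent.H85.Online Filter

variable {p : ℝ}

theorem ord_tendsto {γ : ℝ} (hγ : 0 < γ) (hγ1 : γ ≤ 1 / 4) : Tendsto (ord γ) atTop atTop := by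
  rw [tendsto_atTop]
  intro b
  filter_upwards [sizes hγ hγ1 one_pos, rpow_eventually (show 0 < 1 - 2 * γ by linarith) (b : ℝ)]
    with n h1 h2
  exact_mod_cast h2.trans h1.2.2.2

theorem seeds_pos (A : SetAlg) {m : ℕ} {s : ℝ} (h : 0 < A.success p m s) : 0 < A.seeds m := by
  by_contra hcon
  push Not at hcon
  have h0 : (A.seeds m : ℝ) = 0 := by
    have : A.seeds m = 0 := by omega
    rw [this]
    simp
  have h2 : A.success p m s = 0 := by
    unfold SetAlg.success
    simp [h0]
  linarith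

/-- the probability that too few vertices are covered is exponentially small -/
theorem fail_small {n : ℕ} {K : ℕ} {c η ps : ℝ} (hη : 0 < η) (hη1 : η ≤ 1)
    (hK : c + 2 ≤ K) (hps : (n : ℝ) ^ (-c) ≤ ps) (hps1 : ps ≤ 1) (hn : 16 / η ≤ n) (k : ℕ) :
    (2 : ℝ) ^ (n - k) * (1 - ps * η / 4 / 2) ^ (n ^ K) ≤ Real.exp (-n) := by
  have hn0 : (0 : ℝ) < n := lt_of_lt_of_le (by positivity) hn
  have hn1 : (1 : ℝ) ≤ n := by
    have : (1 : ℝ) ≤ 16 / η := by
      rw [le_div_iff₀ hη]
      linarith
    linarith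
  have hps0 : 0 < ps := lt_of_lt_of_le (Real.rpow_pos_of_pos hn0 _) hps
  set x : ℝ := ps * η / 8 with hx
  have hx0 : 0 < x := by rw [hx]; positivity
  have hx1 : x ≤ 1 := by
    rw [hx]
    nlinarith
  have h1 : (1 - ps * η / 4 / 2) ^ (n ^ K) ≤ Real.exp (-(x * (n : ℝ) ^ K)) := by
    have e : 1 - ps * η / 4 / 2 = 1 - x := by rw [hx]; ring
    rw [e]
    have h2 : 1 - x ≤ Real.exp (-x) := by
      have := Real.add_one_le_exp (-x)
      linarith
    calc (1 - x) ^ (n ^ K) ≤ Real.exp (-x) ^ (n ^ K) := pow_le_pow_left₀ (by linarith) h2 _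
      _ = _ := by
          rw [← Real.exp_nat_mul]
          congr 1
          push_cast
          ring
  have h3 : (2 : ℝ) ^ (n - k) ≤ Real.exp n := by
    calc (2 : ℝ) ^ (n - k) ≤ 2 ^ n := pow_le_pow_right₀ (by norm_num) (by omega)
      _ ≤ Real.exp 1 ^ n := by
          refine pow_le_pow_left₀ (by norm_num) ?_ _
          have := Real.add_one_le_exp (1 : ℝ)
          linarith
      _ = Real.exp n := by
          rw [← Real.exp_nat_mul, mul_one]
  have h4 : η / 8 * (n : ℝ) ^ 2 ≤ x * (n : ℝ) ^ K := by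
    have h5 : (n : ℝ) ^ 2 ≤ (n : ℝ) ^ (-c) * (n : ℝ) ^ K := by
      rw [← Real.rpow_natCast (n : ℝ) K, ← Real.rpow_natCast (n : ℝ) 2, ← Real.rpow_add hn0]
      refine Real.rpow_le_rpow_of_exponent_le hn1 ?_
      push_cast
      linarith
    calc η / 8 * (n : ℝ) ^ 2 ≤ η / 8 * ((n : ℝ) ^ (-c) * (n : ℝ) ^ K) :=
          mul_le_mul_of_nonneg_left h5 (by positivity)
      _ ≤ η / 8 * (ps * (n : ℝ) ^ K) := by
          refine mul_le_mul_of_nonneg_left ?_ (by positivity)
          exact mul_le_mul_of_nonneg_right hps (by positivity)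
      _ = x * (n : ℝ) ^ K := by
          rw [hx]
          ring
  have hnonneg : 0 ≤ (1 - ps * η / 4 / 2) ^ (n ^ K) := by
    refine pow_nonneg ?_ _
    nlinarith
  calc (2 : ℝ) ^ (n - k) * (1 - ps * η / 4 / 2) ^ (n ^ K)
      ≤ Real.exp n * Real.exp (-(x * (n : ℝ) ^ K)) :=
        mul_le_mul h3 h1 hnonneg (Real.exp_pos _).le
    _ = Real.exp (n - x * (n : ℝ) ^ K) := by
        rw [← Real.exp_add]
        congr 1
    _ ≤ Real.exp (-n) := by
        apply Real.exp_le_exp.2
        rw [div_le_iff₀ hη] at hn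
        nlinarith

open Classical in
theorem main (h0 : 0 < p) (h1 : p < 1) {ε : ℝ} (hε : 0 < ε) {c : ℝ} (hc : 0 ≤ c) {δ : ℝ}
    (hδ : 0 < δ) :
    ∃ (γ η : ℝ) (K : ℕ), 0 < γ ∧ 0 < η ∧ ∀ A : SetAlg,
      (∀ᶠ m : ℕ in atTop, (m : ℝ) ^ (-c) ≤
        A.success p m ((1 + ε) * Real.logb (1 / (1 - p)) m)) →
      Tendsto (fun n : ℕ => ProbR p (fun (G : SimpleGraph (Fin n))
        (σ : Fin (n ^ K) → Sample (ord γ n) (grp γ n) (A.seeds (ord γ n))) =>
          ((colouring A p ε γ η K n G σ).length : ℝ)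
            ≤ (2 * ((1 + Real.log (1 + ε)) / (1 + ε)) + δ) * G.chromaticNumber.toNat))
        atTop (nhds 1) := by
  obtain ⟨η, hη, hη4, hηε, hF⟩ := exists_eta hε hδ
  obtain ⟨K, hK⟩ : ∃ K : ℕ, c + 2 ≤ K := exists_nat_ge _
  obtain ⟨n0, hbad⟩ := prob_bad (p := p) h0 h1 hη (show 0 ≤ c + 1 by linarith)
  obtain ⟨Cα, hCα, halpha⟩ := alpha_bound (p := p) h0 h1 hη
  have hpeel := peel_bound (p := p) h0 h1 hη (show η < 1 by linarith)
  set κ : ℝ := η / 16 with hκ
  have hκ0 : 0 < κ := by rw [hκ]; positivity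
  refine ⟨η, η, K, hη, hη, fun A hA => ?_⟩
  have hA' := (ord_tendsto hη hη4).eventually hA
  -- the lower bound
  have hlow : ∀ᶠ n : ℕ in atTop,
      1 - (6 * (n : ℝ) ^ (-(η / 2)) / κ ^ 2 + 2 / n + Cα * (n : ℝ) ^ (-(η / 2))) - Real.exp (-n)
        ≤ ProbR p (fun (G : SimpleGraph (Fin n))
        (σ : Fin (n ^ K) → Sample (ord η n) (grp η n) (A.seeds (ord η n))) =>
          ((colouring A p ε η η K n G σ).length : ℝ)
            ≤ (2 * ((1 + Real.log (1 + ε)) / (1 + ε)) + δ) * G.chromaticNumber.toNat) := by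
    have hr : ∀ᶠ n : ℕ in atTop, (2 + η) * LL p n ≤ η * n := by
      have ha0 := neg_log_pos h0 h1
      set a : ℝ := -Real.log (1 - p) with ha
      filter_upwards [log_le_rpow_eventually (show (0 : ℝ) < 1 / 2 by norm_num),
        rpow_eventually (show (0 : ℝ) < 1 / 2 by norm_num) ((2 + η) / (a * η)),
        eventually_ge_atTop 1] with n e1 e2 e3
      have hn0 : (0 : ℝ) < n := by exact_mod_cast e3
      have hsq : (n : ℝ) ^ (1 / 2 : ℝ) * (n : ℝ) ^ (1 / 2 : ℝ) = n := by
        rw [← Real.rpow_add hn0]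
        norm_num
      rw [LL_eq, ← ha]
      rw [div_le_iff₀ (by positivity)] at e2
      set x : ℝ := (n : ℝ) ^ (1 / 2 : ℝ) with hx
      have hx0 : 0 < x := Real.rpow_pos_of_pos hn0 _
      have h5 : (2 + η) * Real.log n ≤ η * n * a := by
        calc (2 + η) * Real.log n ≤ (2 + η) * x := mul_le_mul_of_nonneg_left e1 (by linarith)
          _ ≤ (x * (a * η)) * x := mul_le_mul_of_nonneg_right e2 hx0.le
          _ = η * (x * x) * a := by ring
          _ = η * n * a := by rw [hsq]
      rw [← mul_div_assoc, div_le_iff₀ ha0]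
      exact h5
    filter_upwards [hA', halpha, hpeel, sizes hη hη4 hκ0, eventually_ge_atTop (max 2 n0), hr,
      tendsto_natCast_atTop_atTop.eventually_ge_atTop (16 / η),
      log_nat_tendsto.eventually_ge_atTop 1] with n e1 e2 e3 e4 e5 e6 e7 e8
    obtain ⟨s1, s2, s3, s4⟩ := e4
    set m := ord η n with hm
    set g := grp η n with hg
    have hn2 : 2 ≤ n := le_trans (le_max_left _ _) e5
    have hn0' : n0 ≤ n := le_trans (le_max_right _ _) e5
    have hn0 : 0 < n := by omega
    have hnr : (0 : ℝ) < n := by exact_mod_cast hn0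
    have hn1 : (1 : ℝ) ≤ n := by exact_mod_cast (show 1 ≤ n by omega)
    have hmg : m * g ≤ n := ord_mul_grp η n
    have hmpos' : (0 : ℝ) < m := lt_of_lt_of_le (Real.rpow_pos_of_pos hnr _) s4
    have hmpos : 0 < m := by exact_mod_cast hmpos'
    have hmn : (m : ℝ) ≤ n := by
      have : m ≤ n := le_trans (Nat.le_mul_of_pos_right m s2) hmg
      exact_mod_cast this
    set s : ℝ := (1 + ε) * Real.logb (1 / (1 - p)) m with hs
    set ps : ℝ := A.success p m s with hps
    have ha0 := neg_log_pos h0 h1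
    set a : ℝ := -Real.log (1 - p) with ha
    have hLLn : 0 < LL p n := by
      rw [LL_eq, ← ha]
      exact div_pos (by linarith) ha0
    have hsge : (1 + ε) * ((1 - 2 * η) * LL p n) ≤ s := by
      rw [hs]
      refine mul_le_mul_of_nonneg_left ?_ (by linarith)
      have : Real.logb (1 / (1 - p)) m = Real.log m / a := LL_eq m
      rw [this, LL_eq, ← ha, ← mul_div_assoc]
      refine div_le_div_of_nonneg_right ?_ ha0.le
      have h2 := Real.log_le_log (Real.rpow_pos_of_pos hnr _) s4
      rwa [Real.log_rpow hnr] at h2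
    have hspos : 0 < s := lt_of_lt_of_le
      (mul_pos (by linarith) (mul_pos (by linarith) hLLn)) hsge
    have hpsn : (n : ℝ) ^ (-c) ≤ ps := by
      refine le_trans ?_ e1
      exact Real.rpow_le_rpow_of_nonpos hmpos' hmn (by linarith)
    have hps0 : 0 < ps := lt_of_lt_of_le (Real.rpow_pos_of_pos hnr _) hpsn
    have hps1 : ps ≤ 1 := by
      rw [hps, ← EG_hw A s h0 h1]
      calc EG p (hw A s : SimpleGraph (Fin m) → ℝ) ≤ EG p (fun _ : SimpleGraph (Fin m) => 1) :=
            EG_mono h0 h1 fun H => hw_le_one A s H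
        _ = 1 := by
            rw [EG_eq, EE_const]
    have hpsm : (n : ℝ) ^ (-(c + 1)) ≤ ps / m := by
      rw [le_div_iff₀ hmpos']
      calc (n : ℝ) ^ (-(c + 1)) * m ≤ (n : ℝ) ^ (-(c + 1)) * n :=
            mul_le_mul_of_nonneg_left hmn (Real.rpow_nonneg hnr.le _)
        _ = (n : ℝ) ^ (-c) := by
            conv_lhs => rw [← Real.rpow_one (n : ℝ)]
            rw [Real.rpow_one, ← Real.rpow_add_one hnr.ne']
            congr 1
            ring
        _ ≤ ps := hpsn
    have hseeds : 0 < A.seeds m := seeds_pos A hps0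
    set α : Fin m → Fin g := fun _ => ⟨0, s2⟩ with hα
    have hb1 := hbad n hn0' m g hmg s1 A s hspos hmpos hpsm α κ hκ0
    rw [← hps] at hb1
    have hSne : Nonempty (Sample m g (A.seeds m)) :=
      ⟨(Equiv.refl _, fun _ => ⟨0, s2⟩, ⟨0, hseeds⟩)⟩
    have hScard : 0 < Fintype.card (Sample m g (A.seeds m)) := Fintype.card_pos
    -- the bad graphs
    set B : SimpleGraph (Fin n) → Prop := fun G =>
      (¬ GoodG A s hmg α ps κ G ∨ ¬ ∀ T : Finset (Fin n), ((peel G T).length : ℝ)
        ≤ T.card / ((1 - η) * LL p n) + η * n / LL p n) ∨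
      ¬ ∀ I : Finset (Fin n), Indep G I → (I.card : ℝ) ≤ (2 + η) * LL p n with hB
    have hBprob : Prob p B ≤ 6 * (n : ℝ) ^ (-(η / 2)) / κ ^ 2 + 2 / n
        + Cα * (n : ℝ) ^ (-(η / 2)) :=
      (Prob_or h0 h1 _ _).trans (add_le_add ((Prob_or h0 h1 _ _).trans (add_le_add hb1 e3)) e2)
    have hge := ProbR_ge h0 h1 (Ω := Fin (n ^ K) → Sample m g (A.seeds m))
      (fun (G : SimpleGraph (Fin n)) σ => ((colouring A p ε η η K n G σ).length : ℝ)
        ≤ (2 * ((1 + Real.log (1 + ε)) / (1 + ε)) + δ) * G.chromaticNumber.toNat) B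
      (Real.exp (-n)) (Real.exp_pos _).le (by
        intro G hG
        rw [hB] at hG
        push Not at hG
        obtain ⟨⟨g1, g2⟩, g3⟩ := hG
        have hfail := failP_le A s (ε / (1 + ε)) η hmg G hn0 hspos (by
          have : 1 - ε / (1 + ε) = 1 / (1 + ε) := by
            field_simp
            ring
          have h2 : 4 * η < 1 / (1 + ε) := by
            rw [lt_div_iff₀ (by linarith)]
            exact hηε
          linarith) hη (ps * η / 4) (by nlinarith) hScard
          (fun C => accept_le A s hmg α g1 hps0.le hκ0.le hη (by linarith) (by rw [hκ]; linarith)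
            hspos hmpos s2 s3 C) (n ^ K) []
        refine le_trans ?_ (hfail.trans (fail_small hη (by linarith) hK hpsn hps1 e7 _))
        unfold failP
        rw [Fintype.card_pi]
        simp only [Finset.prod_const, Finset.card_univ, Fintype.card_fin]
        push_cast
        refine div_le_div_of_nonneg_right (Finset.sum_le_sum fun σ _ => ?_) (by positivity)
        by_cases hcov : ((covered ((List.ofFn σ).foldl (step A hmg s (ε / (1 + ε)) η G) [])).card : ℝ)
            < ε / (1 + ε) * n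
        · rw [if_pos hcov]
          split_ifs <;> norm_num
        · rw [if_neg hcov, if_pos]
          push Not at hcov
          have hcr : ε / (1 + ε) + (2 + η) * LL p n / n < 1 - η := by
            have h1' : (2 + η) * LL p n / n ≤ η := by
              rw [div_le_iff₀ hnr]
              exact e6
            have : 1 - ε / (1 + ε) = 1 / (1 + ε) := by
              field_simp
              ring
            have h2 : 4 * η < 1 / (1 + ε) := by
              rw [lt_div_iff₀ (by linarith)]
              exact hηε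
            linarith
          have hinv := inv_foldl A s (ε / (1 + ε)) η hmg (r := (2 + η) * LL p n) G hn0 hspos g3 hcr
            (List.ofFn σ) [] (inv_nil s (ε / (1 + ε)) η (by positivity) (by positivity) G)
          have hcount := count_le hε hη hη4 hηε hn0 G hLLn hsge e6 g3 g2 _ hinv hcov
          refine hcount.trans ?_
          exact mul_le_mul_of_nonneg_right hF (by positivity))
    linarith
  refine tendsto_of_tendsto_of_tendsto_of_le_of_le' (g := fun n : ℕ =>
    1 - (6 * (n : ℝ) ^ (-(η / 2)) / κ ^ 2 + 2 / n + Cα * (n : ℝ) ^ (-(η / 2))) - Real.exp (-n))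
    ?_ tendsto_const_nhds hlow (Eventually.of_forall fun n => ProbR_le_one h0 h1 _)
  have t1 : Tendsto (fun n : ℕ => (n : ℝ) ^ (-(η / 2))) atTop (nhds 0) :=
    (tendsto_rpow_neg_atTop (half_pos hη)).comp tendsto_natCast_atTop_atTop
  have t2 : Tendsto (fun n : ℕ => 2 / (n : ℝ)) atTop (nhds 0) :=
    tendsto_const_nhds.div_atTop tendsto_natCast_atTop_atTop
  have t3 : Tendsto (fun n : ℕ => Real.exp (-(n : ℝ))) atTop (nhds 0) :=
    Real.tendsto_exp_neg_atTop_nhds_zero.comp tendsto_natCast_atTop_atTop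
  have t4 := (((t1.const_mul 6).div_const (κ ^ 2)).add t2).add (t1.const_mul Cα)
  have t5 := (tendsto_const_nhds (x := (1 : ℝ)) (f := (atTop : Filter ℕ))).sub t4 |>.sub t3
  simpa using t5

end Pool.Agent.H72.Karp
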