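import Pool.Agent.H72.Karp.PeelBound

/-!
Independent sets of the random graph have at most `(2 + η) log_b n` vertices, and the resulting lower
bound for the chromatic number.
-/

set_option autoImplicit false
set_option linter.unusedSectionVars false

namespace Pool.Agent.H72.Karp

open Finset Pool.Agent.H85.Online Filter

variable {p : ℝ} {n : ℕ}

theorem Prob_indep (I : Finset (Fin n)) :
    Prob p (fun G : SimpleGraph (Fin n) => Indep G I) = (1 - p) ^ (I.card.choose 2) := by
  classical
  rw [Prob_eq, EG_eq]
  have e1 : ∀ ω : Prs (Fin n) → Bool, (if Indep (gr ω) I then (1 : ℝ) else 0)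
      = ∏ e, if e ∈ insd I then (if ω e then 0 else 1) else 1 := by
    intro ω
    rw [Finset.prod_ite_mem, Finset.univ_inter]
    split_ifs with h
    · symm
      refine Finset.prod_eq_one fun e he => ?_
      obtain ⟨e, hd⟩ := e
      induction e using Sym2.ind with
      | _ a b =>
      have hin := (Finset.mem_filter.1 he).2
      have hnot := h a (hin a (Sym2.mem_mk_left a b)) b (hin b (Sym2.mem_mk_right a b))
      rw [gr_adj] at hnot
      rw [if_neg]
      intro hω
      exact hnot ⟨hd, hω⟩
    · unfold Indep at h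
      push Not at h
      obtain ⟨a, ha, b, hb, hab⟩ := h
      obtain ⟨hd, hω⟩ := (gr_adj ω a b).1 hab
      symm
      refine Finset.prod_eq_zero (i := ⟨s(a, b), hd⟩) ?_ (by rw [if_pos hω])
      refine Finset.mem_filter.2 ⟨Finset.mem_univ _, ?_⟩
      intro v hv
      rcases Sym2.mem_iff.1 hv with rfl | rfl <;> assumption
  rw [EE_congr e1, EE_prod (fun e b => if e ∈ insd I then (if b then (0 : ℝ) else 1) else 1)]
  have e2 : ∀ e : Prs (Fin n), ∑ b : Bool, bw p b *
      (if e ∈ insd I then (if b then (0 : ℝ) else 1) else 1)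
      = if e ∈ insd I then 1 - p else 1 := by
    intro e
    split_ifs
    · simp [bw]
    · simp [bw]
  simp only [e2]
  rw [Finset.prod_ite_mem, Finset.univ_inter, Finset.prod_const, card_insd]

theorem alpha_bound (h0 : 0 < p) (h1 : p < 1) {η : ℝ} (hη : 0 < η) :
    ∃ C : ℝ, 0 < C ∧ ∀ᶠ n : ℕ in atTop, Prob p (fun G : SimpleGraph (Fin n) =>
      ¬ ∀ I : Finset (Fin n), Indep G I → (I.card : ℝ) ≤ (2 + η) * LL p n)
        ≤ C * (n : ℝ) ^ (-(η / 2)) := by
  classical
  set a : ℝ := -Real.log (1 - p) with ha
  have ha0 : 0 < a := neg_log_pos h0 h1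
  have hea : Real.exp (-a) = 1 - p := by
    rw [ha, neg_neg, Real.exp_log (by linarith)]
  refine ⟨Real.exp (a / 2), Real.exp_pos _, ?_⟩
  filter_upwards [log_nat_tendsto.eventually_ge_atTop (a / η), eventually_ge_atTop 2,
    log_nat_tendsto.eventually_ge_atTop a] with n e1 e2 e3
  have hn0 : (0 : ℝ) < n := by
    exact_mod_cast (show 0 < n by omega)
  set lam : ℝ := Real.log (n : ℝ) with hlam
  have hlam0 : 0 < lam := lt_of_lt_of_le ha0 e3
  have hLL : LL p n = lam / a := LL_eq n
  set r : ℕ := ⌈(2 + η) * LL p n⌉₊ with hr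
  have hr1 : (2 + η) * LL p n ≤ r := Nat.le_ceil _
  have hrpos : 1 ≤ r := by
    rw [Nat.one_le_iff_ne_zero]
    intro h
    rw [h] at hr1
    have : 0 < (2 + η) * LL p n := by rw [hLL]; positivity
    simp only [Nat.cast_zero] at hr1
    linarith
  calc Prob p (fun G : SimpleGraph (Fin n) =>
      ¬ ∀ I : Finset (Fin n), Indep G I → (I.card : ℝ) ≤ (2 + η) * LL p n)
      ≤ Prob p (fun G : SimpleGraph (Fin n) =>
        ∃ I ∈ Finset.powersetCard r (Finset.univ : Finset (Fin n)), Indep G I) := by
        refine Prob_mono h0 h1 fun G hG => ?_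
        push Not at hG
        obtain ⟨I, hI, hIr⟩ := hG
        have hrI : r ≤ I.card := Nat.ceil_le.2 hIr.le
        obtain ⟨I', hI', hc⟩ := Finset.exists_subset_card_eq hrI
        refine ⟨I', Finset.mem_powersetCard.2 ⟨Finset.subset_univ _, hc⟩, ?_⟩
        exact fun u hu v hv => hI u (hI' hu) v (hI' hv)
    _ ≤ ∑ I ∈ Finset.powersetCard r (Finset.univ : Finset (Fin n)),
          Prob p (fun G : SimpleGraph (Fin n) => Indep G I) := Prob_exists h0 h1 _ _
    _ = (n.choose r) * (1 - p) ^ (r.choose 2) := by
        rw [Finset.sum_congr rfl fun I hI => by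
          rw [Prob_indep, (Finset.mem_powersetCard.1 hI).2], Finset.sum_const,
          Finset.card_powersetCard, Finset.card_univ, Fintype.card_fin, nsmul_eq_mul]
    _ ≤ Real.exp (r * lam) * Real.exp (-(a * (r * (r - 1) / 2))) := by
        refine mul_le_mul ?_ ?_ (by positivity) (Real.exp_pos _).le
        · rw [Real.exp_nat_mul, Real.exp_log hn0]
          exact_mod_cast Nat.choose_le_pow n r
        · rw [← hea, ← Real.exp_nat_mul, Nat.cast_choose_two]
          apply le_of_eq
          congr 1
          ring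
    _ = Real.exp (-(r * (a * (r - 1) / 2 - lam))) := by
        rw [← Real.exp_add]
        congr 1
        ring
    _ ≤ Real.exp (-(1 * (η / 2 * lam - a / 2))) := by
        apply Real.exp_le_exp.2
        have h2 : (2 + η) * lam ≤ a * r := by
          have := mul_le_mul_of_nonneg_left hr1 ha0.le
          rw [hLL] at this
          have e : a * ((2 + η) * (lam / a)) = (2 + η) * lam := by field_simp
          linarith
        have h3 : η / 2 * lam - a / 2 ≤ a * (r - 1) / 2 - lam := by linarith
        have h4 : 0 ≤ η / 2 * lam - a / 2 := by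
          rw [div_le_iff₀ hη] at e1
          linarith
        have h5 : (1 : ℝ) ≤ r := by exact_mod_cast hrpos
        have h6 : 1 * (η / 2 * lam - a / 2) ≤ r * (a * (r - 1) / 2 - lam) :=
          mul_le_mul h5 h3 h4 (by positivity)
        linarith
    _ = Real.exp (a / 2) * (n : ℝ) ^ (-(η / 2)) := by
        rw [Real.rpow_def_of_pos hn0, ← Real.exp_add]
        congr 1
        rw [← hlam]
        ring

/-- if all independent sets have at most `r` elements then `n ≤ χ r` -/
theorem le_chi_mul (G : SimpleGraph (Fin n)) {r : ℝ}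
    (hG : ∀ I : Finset (Fin n), Indep G I → (I.card : ℝ) ≤ r) :
    (n : ℝ) ≤ (G.chromaticNumber.toNat : ℝ) * r := by
  classical
  obtain ⟨C⟩ := G.colorable_chromaticNumber_of_fintype
  have h1 : (Finset.univ : Finset (Fin n)).card
      = ∑ c, ((Finset.univ : Finset (Fin n)).filter (fun v => C v = c)).card :=
    Finset.card_eq_sum_card_fiberwise (fun v _ => Finset.mem_univ _)
  rw [Finset.card_univ, Fintype.card_fin] at h1
  have h2 : (n : ℝ) = ∑ c, (((Finset.univ : Finset (Fin n)).filter (fun v => C v = c)).card : ℝ) := by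
    exact_mod_cast h1
  rw [h2]
  refine (Finset.sum_le_sum fun c _ => hG _ ?_).trans ?_
  · intro u hu v hv hadj
    have e1 := (Finset.mem_filter.1 hu).2
    have e2 := (Finset.mem_filter.1 hv).2
    exact C.valid hadj (e1.trans e2.symm)
  · rw [Finset.sum_const, Finset.card_univ, Fintype.card_fin, nsmul_eq_mul]

end Pool.Agent.H72.Karp
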