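import Pool.Agent.H72.Karp.Fourier

/-!
Hypercontractivity for biased bits (fourth moments), and the level inequality.
-/

set_option autoImplicit false
set_option linter.unusedSectionVars false

namespace Pool.Agent.H72.Karp

open Finset

variable {ι : Type*} [Fintype ι] [DecidableEq ι] {p : ℝ}

/-- third moment of the biased bit -/
noncomputable def mu3 (p : ℝ) : ℝ := ∑ b : Bool, bw p b * phi p b ^ 3

/-- fourth moment of the biased bit -/
noncomputable def mu4 (p : ℝ) : ℝ := ∑ b : Bool, bw p b * phi p b ^ 4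

/-- the hypercontractivity constant -/
noncomputable def bet (p : ℝ) : ℝ := 4 + mu4 p + 2 * mu3 p ^ 2

theorem mu4_nonneg (h0 : 0 < p) (h1 : p < 1) : 0 ≤ mu4 p :=
  Finset.sum_nonneg fun b _ => mul_nonneg (bw_nonneg h0 h1 b) (by positivity)

theorem bet_ge (h0 : 0 < p) (h1 : p < 1) : 4 ≤ bet p := by
  have := mu4_nonneg h0 h1
  unfold bet
  nlinarith [sq_nonneg (mu3 p)]

theorem bet_sq (h0 : 0 < p) (h1 : p < 1) : mu4 p + 2 * mu3 p ^ 2 ≤ bet p ^ 2 := by
  have h4 := bet_ge h0 h1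
  have : mu4 p + 2 * mu3 p ^ 2 ≤ bet p := by
    unfold bet
    linarith
  nlinarith

/-- the function with coefficients `c` on the subsets of `S` -/
noncomputable def comb (p : ℝ) (S : Finset ι) (c : Finset ι → ℝ) (ω : ι → Bool) : ℝ :=
  ∑ T ∈ S.powerset, c T * chi p T ω

theorem comb_update {S : Finset ι} {e : ι} (he : e ∉ S) (c : Finset ι → ℝ) (ω : ι → Bool)
    (b : Bool) : comb p S c (Function.update ω e b) = comb p S c ω := by
  unfold comb
  refine Finset.sum_congr rfl fun T hT => ?_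
  rw [chi_update]
  intro h
  exact he (Finset.mem_powerset.1 hT h)

theorem comb_insert {S : Finset ι} {e : ι} (he : e ∉ S) (c : Finset ι → ℝ) (ω : ι → Bool) :
    comb p (insert e S) c ω
      = comb p S c ω + comb p S (fun T => c (insert e T)) ω * phi p (ω e) := by
  unfold comb
  rw [Finset.sum_powerset_insert he, Finset.sum_mul]
  congr 1
  refine Finset.sum_congr rfl fun T hT => ?_
  rw [chi_insert]
  · ring
  · intro h
    exact he (Finset.mem_powerset.1 hT h)

/-- Bonami's lemma for the coefficients on the subsets of `S` -/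
theorem bonami_comb (h0 : 0 < p) (h1 : p < 1) (S : Finset ι) :
    ∀ (d : ℕ) (c : Finset ι → ℝ), (∀ T, d < T.card → c T = 0) →
      EE p (fun ω => comb p S c ω ^ 4)
        ≤ bet p ^ (2 * d) * EE p (fun ω => comb p S c ω ^ 2) ^ 2 := by
  have hβ4 := bet_ge h0 h1
  have hβ1 : 1 ≤ bet p := by linarith
  have hβ0 : 0 < bet p := by linarith
  induction S using Finset.induction_on with
  | empty =>
    intro d c _
    have hc : ∀ ω : ι → Bool, comb p ∅ c ω = c ∅ := by
      intro ω
      simp [comb, chi_empty]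
    simp only [hc, EE_const]
    have : 1 ≤ bet p ^ (2 * d) := one_le_pow₀ hβ1
    nlinarith [sq_nonneg (c ∅ ^ 2)]
  | insert e S he ih =>
    intro d c hc
    rcases d with _ | d
    · -- no dependence on the new coordinate
      have hz : ∀ ω : ι → Bool, comb p (insert e S) c ω = comb p S c ω := by
        intro ω
        rw [comb_insert he]
        have : comb p S (fun T => c (insert e T)) ω = 0 := by
          unfold comb
          refine Finset.sum_eq_zero fun T _ => ?_
          have := hc (insert e T) (Finset.card_pos.2 (Finset.insert_nonempty _ _))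
          simp only [this, zero_mul]
        rw [this]
        ring
      simp only [hz]
      exact ih 0 c hc
    · set Q : (ι → Bool) → ℝ := comb p S c with hQ
      set R : (ι → Bool) → ℝ := comb p S (fun T => if e ∈ T then 0 else c (insert e T)) with hR
      have hR' : ∀ ω, R ω = comb p S (fun T => c (insert e T)) ω := by
        intro ω
        rw [hR]
        unfold comb
        refine Finset.sum_congr rfl fun T hT => ?_
        have : e ∉ T := fun h => he (Finset.mem_powerset.1 hT h)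
        simp only [if_neg this]
      have hF : ∀ ω : ι → Bool, comb p (insert e S) c ω = Q ω + R ω * phi p (ω e) := by
        intro ω
        rw [comb_insert he, hR']
      have hQu : ∀ ω b, Q (Function.update ω e b) = Q ω := fun ω b => comb_update he c ω b
      have hRu : ∀ ω b, R (Function.update ω e b) = R ω := fun ω b => comb_update he _ ω b
      have m1 := bw_phi h0 h1
      have m2 := bw_phi_sq h0 h1
      -- moments
      have ind : ∀ (F : (ι → Bool) → ℝ) (_ : ∀ ω b, F (Function.update ω e b) = F ω) (k : ℕ),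
          EE p (fun ω => F ω * phi p (ω e) ^ k) = EE p F * ∑ b : Bool, bw p b * phi p b ^ k :=
        fun F hF k => EE_indep e F hF (fun b => phi p b ^ k)
      set a := EE p (fun ω => Q ω ^ 2) with ha
      set b := EE p (fun ω => R ω ^ 2) with hb
      have ha0 : 0 ≤ a := EE_nonneg h0 h1 fun ω => sq_nonneg _
      have hb0 : 0 ≤ b := EE_nonneg h0 h1 fun ω => sq_nonneg _
      have hF2 : EE p (fun ω => comb p (insert e S) c ω ^ 2) = a + b := by
        have e1 : ∀ ω : ι → Bool, comb p (insert e S) c ω ^ 2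
            = (Q ω ^ 2 + (2 * (Q ω * R ω)) * phi p (ω e) ^ 1) + R ω ^ 2 * phi p (ω e) ^ 2 := by
          intro ω
          rw [hF]
          ring
        rw [EE_congr e1, EE_add, EE_add, ind _ (by intro ω b; rw [hQu, hRu]) 1,
          ind _ (by intro ω b; rw [hRu]) 2, m2]
        simp only [pow_one]
        rw [m1]
        ring
      have hF4 : EE p (fun ω => comb p (insert e S) c ω ^ 4)
          = EE p (fun ω => Q ω ^ 4) + 6 * EE p (fun ω => Q ω ^ 2 * R ω ^ 2)
            + 4 * mu3 p * EE p (fun ω => Q ω * R ω ^ 3) + mu4 p * EE p (fun ω => R ω ^ 4) := by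
        have e1 : ∀ ω : ι → Bool, comb p (insert e S) c ω ^ 4
            = ((((Q ω ^ 4 + (4 * (Q ω ^ 3 * R ω)) * phi p (ω e) ^ 1)
              + (6 * (Q ω ^ 2 * R ω ^ 2)) * phi p (ω e) ^ 2)
              + (4 * (Q ω * R ω ^ 3)) * phi p (ω e) ^ 3)
              + R ω ^ 4 * phi p (ω e) ^ 4) := by
          intro ω
          rw [hF]
          ring
        rw [EE_congr e1, EE_add, EE_add, EE_add, EE_add,
          ind _ (by intro ω b; rw [hQu, hRu]) 1, ind _ (by intro ω b; rw [hQu, hRu]) 2,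
          ind _ (by intro ω b; rw [hQu, hRu]) 3, ind _ (by intro ω b; rw [hRu]) 4, m2,
          EE_mul_left, EE_mul_left, EE_mul_left]
        simp only [pow_one]
        rw [m1]
        unfold mu3 mu4
        ring
      -- the induction hypothesis
      have iQ := ih (d + 1) c hc
      have iR := ih d (fun T => if e ∈ T then 0 else c (insert e T)) (by
        intro T hT
        by_cases h : e ∈ T
        · simp only [if_pos h]
        · simp only [if_neg h]
          refine hc _ ?_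
          rw [Finset.card_insert_of_notMem h]
          omega)
      rw [← hQ, ← ha] at iQ
      rw [← hR, ← hb] at iR
      have hQR : EE p (fun ω => Q ω ^ 2 * R ω ^ 2) ≤ bet p ^ (2 * d + 1) * (a * b) := by
        have h1' := EE_cs h0 h1 (fun ω => Q ω ^ 2) (fun ω => R ω ^ 2)
        simp only [← pow_mul] at h1'
        norm_num at h1'
        have h2 : EE p (fun ω => Q ω ^ 2 * R ω ^ 2) ^ 2
            ≤ (bet p ^ (2 * d + 1) * (a * b)) ^ 2 := by
          calc _ ≤ _ := h1'
            _ ≤ (bet p ^ (2 * (d + 1)) * a ^ 2) * (bet p ^ (2 * d) * b ^ 2) :=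
                mul_le_mul iQ iR (EE_nonneg h0 h1 fun ω => by positivity) (by positivity)
            _ = _ := by ring
        exact (abs_le_of_sq_le_sq' h2 (by positivity)).2
      have hc3 : 4 * mu3 p * EE p (fun ω => Q ω * R ω ^ 3)
          ≤ 2 * EE p (fun ω => Q ω ^ 2 * R ω ^ 2) + 2 * mu3 p ^ 2 * EE p (fun ω => R ω ^ 4) := by
        rw [← EE_mul_left, ← EE_mul_left, ← EE_mul_left, ← EE_add]
        refine EE_mono h0 h1 fun ω => ?_
        nlinarith [sq_nonneg (Q ω * R ω - mu3 p * R ω ^ 2)]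
      rw [hF4, hF2]
      have hbs := bet_sq h0 h1
      have hR4 : 0 ≤ EE p (fun ω => R ω ^ 4) := EE_nonneg h0 h1 fun ω => by positivity
      have hab : 0 ≤ a * b := mul_nonneg ha0 hb0
      have s1 : (mu4 p + 2 * mu3 p ^ 2) * EE p (fun ω => R ω ^ 4)
          ≤ bet p ^ 2 * (bet p ^ (2 * d) * b ^ 2) :=
        mul_le_mul hbs iR hR4 (by positivity)
      have s2 : 8 * (bet p ^ (2 * d + 1) * (a * b)) ≤ 2 * (bet p ^ (2 * d + 2) * (a * b)) := by
        have e1 : bet p ^ (2 * d + 2) = bet p ^ (2 * d + 1) * bet p := by ring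
        rw [e1]
        have e2 : 0 ≤ bet p ^ (2 * d + 1) * (a * b) := by positivity
        nlinarith
      have e3 : bet p ^ (2 * (d + 1)) * (a + b) ^ 2
          = bet p ^ (2 * (d + 1)) * a ^ 2 + 2 * (bet p ^ (2 * d + 2) * (a * b))
            + bet p ^ 2 * (bet p ^ (2 * d) * b ^ 2) := by ring
      rw [e3]
      nlinarith

/-- `F` has degree at most `d` -/
def Deg (p : ℝ) (d : ℕ) (F : (ι → Bool) → ℝ) : Prop := ∀ U : Finset ι, d < U.card → cf p F U = 0

theorem Deg.mul (h0 : 0 < p) (h1 : p < 1) {d d' : ℕ} {F G : (ι → Bool) → ℝ}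
    (hF : Deg p d F) (hG : Deg p d' G) : Deg p (d + d') (fun ω => F ω * G ω) := by
  intro U hU
  unfold cf
  have h : ∀ ω : ι → Bool, F ω * G ω * chi p U ω
      = ∑ A : Finset ι, ∑ B : Finset ι, (cf p F A * cf p G B) *
        (chi p A ω * chi p B ω * chi p U ω) := by
    intro ω
    conv_lhs => rw [inversion h0 h1 F ω, inversion h0 h1 G ω]
    rw [Finset.sum_mul_sum, Finset.sum_mul]
    refine Finset.sum_congr rfl fun A _ => ?_
    rw [Finset.sum_mul]
    exact Finset.sum_congr rfl fun B _ => by ring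
  rw [EE_congr h, EE_sum]
  refine Finset.sum_eq_zero fun A _ => ?_
  rw [EE_sum]
  refine Finset.sum_eq_zero fun B _ => ?_
  rw [EE_mul_left]
  by_cases hA : d < A.card
  · rw [hF A hA, zero_mul, zero_mul]
  by_cases hB : d' < B.card
  · rw [hG B hB, mul_zero, zero_mul]
  rw [EE_chi_mul_mul h0 h1, mul_zero]
  intro hsub
  have := Finset.card_le_card hsub
  have := Finset.card_union_le A B
  omega

theorem Deg.pow (h0 : 0 < p) (h1 : p < 1) {d : ℕ} {F : (ι → Bool) → ℝ} (hF : Deg p d F) (k : ℕ) :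
    Deg p (k * d) (fun ω => F ω ^ k) := by
  induction k with
  | zero =>
    intro U hU
    unfold cf
    simp only [pow_zero, one_mul]
    rw [show (fun ω => chi p U ω) = chi p U from rfl, EE_chi h0 h1, if_neg]
    rintro rfl
    simp at hU
  | succ k ih =>
    have := Deg.mul h0 h1 ih hF
    rw [show k * d + d = (k + 1) * d by ring] at this
    intro U hU
    have h2 := this U hU
    rw [← h2]
    unfold cf
    exact EE_congr fun ω => by simp only [pow_succ]

/-- Bonami's lemma -/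
theorem bonami (h0 : 0 < p) (h1 : p < 1) {d : ℕ} {F : (ι → Bool) → ℝ} (hF : Deg p d F) :
    EE p (fun ω => F ω ^ 4) ≤ bet p ^ (2 * d) * EE p (fun ω => F ω ^ 2) ^ 2 := by
  have h := bonami_comb h0 h1 (Finset.univ : Finset ι) d (cf p F) hF
  have e : ∀ ω : ι → Bool, comb p Finset.univ (cf p F) ω = F ω := by
    intro ω
    unfold comb
    rw [Finset.powerset_univ, ← inversion h0 h1 F ω]
  simp only [e] at h
  exact h

/-- all moments of order a power of two -/
theorem moments (h0 : 0 < p) (h1 : p < 1) (d s : ℕ) :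
    ∃ K : ℝ, 0 < K ∧ ∀ (κ : Type) [Fintype κ] [DecidableEq κ] (F : (κ → Bool) → ℝ), Deg p d F →
      EE p (fun ω => F ω ^ (2 ^ (s + 1))) ≤ K * EE p (fun ω => F ω ^ 2) ^ (2 ^ s) := by
  induction s with
  | zero =>
    refine ⟨1, one_pos, fun κ _ _ F _ => ?_⟩
    simp
  | succ s ih =>
    obtain ⟨K, hK, h⟩ := ih
    have hβ0 : 0 < bet p := by linarith [bet_ge h0 h1]
    refine ⟨bet p ^ (2 * (2 ^ s * d)) * K ^ 2, by positivity, fun κ _ _ F hF => ?_⟩
    have hb := bonami h0 h1 (Deg.pow h0 h1 hF (2 ^ s))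
    simp only [← pow_mul] at hb
    have e1 : 2 ^ s * 4 = 2 ^ (s + 1 + 1) := by ring
    have e2 : 2 ^ s * 2 = 2 ^ (s + 1) := by ring
    rw [e1, e2] at hb
    have hs := h κ F hF
    have hnn : 0 ≤ EE p (fun ω => F ω ^ (2 ^ (s + 1))) := EE_nonneg h0 h1 fun ω => by
      rw [← e2, pow_mul]
      positivity
    calc _ ≤ _ := hb
      _ ≤ bet p ^ (2 * (2 ^ s * d)) * (K * EE p (fun ω => F ω ^ 2) ^ (2 ^ s)) ^ 2 := by
          gcongr
      _ = _ := by ring

theorem EE_abs_le (h0 : 0 < p) (h1 : p < 1) {h P : (ι → Bool) → ℝ} (hh : ∀ ω, 0 ≤ h ω)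
    (hh1 : ∀ ω, h ω ≤ 1) (s : ℕ) :
    (EE p fun ω => h ω * P ω) ^ (2 ^ (s + 1))
      ≤ EE p h ^ (2 ^ (s + 1) - 1) * EE p (fun ω => h ω * P ω ^ (2 ^ (s + 1))) := by
  induction s with
  | zero =>
    have h2 := EE_cs h0 h1 (fun ω => Real.sqrt (h ω)) (fun ω => Real.sqrt (h ω) * P ω)
    have e1 : ∀ ω : ι → Bool, Real.sqrt (h ω) * (Real.sqrt (h ω) * P ω) = h ω * P ω := by
      intro ω
      rw [← mul_assoc, Real.mul_self_sqrt (hh ω)]
    have e2 : ∀ ω : ι → Bool, Real.sqrt (h ω) ^ 2 = h ω := fun ω => Real.sq_sqrt (hh ω)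
    have e3 : ∀ ω : ι → Bool, (Real.sqrt (h ω) * P ω) ^ 2 = h ω * P ω ^ 2 := by
      intro ω
      rw [mul_pow, e2]
    simp only [e1, e2, e3] at h2
    simpa using h2
  | succ s ih =>
    have hE0 : 0 ≤ EE p h := EE_nonneg h0 h1 hh
    have h2 := EE_cs h0 h1 (fun ω => Real.sqrt (h ω))
      (fun ω => Real.sqrt (h ω) * P ω ^ (2 ^ (s + 1)))
    have e1 : ∀ ω : ι → Bool, Real.sqrt (h ω) * (Real.sqrt (h ω) * P ω ^ (2 ^ (s + 1)))
        = h ω * P ω ^ (2 ^ (s + 1)) := by
      intro ω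
      rw [← mul_assoc, Real.mul_self_sqrt (hh ω)]
    have e2 : ∀ ω : ι → Bool, Real.sqrt (h ω) ^ 2 = h ω := fun ω => Real.sq_sqrt (hh ω)
    have e3 : ∀ ω : ι → Bool, (Real.sqrt (h ω) * P ω ^ (2 ^ (s + 1))) ^ 2
        = h ω * P ω ^ (2 ^ (s + 1 + 1)) := by
      intro ω
      rw [mul_pow, e2, ← pow_mul]
      ring_nf
    simp only [e1, e2, e3] at h2
    have hev : ∀ x : ℝ, 0 ≤ x ^ (2 ^ (s + 1)) := fun x => by
      rw [pow_succ, mul_comm (2 ^ s) 2, pow_mul]
      positivity
    calc (EE p fun ω => h ω * P ω) ^ (2 ^ (s + 1 + 1))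
        = ((EE p fun ω => h ω * P ω) ^ (2 ^ (s + 1))) ^ 2 := by
          rw [← pow_mul]
          ring_nf
      _ ≤ (EE p h ^ (2 ^ (s + 1) - 1) * EE p (fun ω => h ω * P ω ^ (2 ^ (s + 1)))) ^ 2 :=
          pow_le_pow_left₀ (hev _) ih 2
      _ = (EE p h ^ (2 ^ (s + 1) - 1)) ^ 2 * (EE p (fun ω => h ω * P ω ^ (2 ^ (s + 1)))) ^ 2 := by
          ring
      _ ≤ (EE p h ^ (2 ^ (s + 1) - 1)) ^ 2 *
          (EE p h * EE p (fun ω => h ω * P ω ^ (2 ^ (s + 1 + 1)))) := by
          gcongr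
      _ = EE p h ^ (2 ^ (s + 1 + 1) - 1) * EE p (fun ω => h ω * P ω ^ (2 ^ (s + 1 + 1))) := by
          have e : 2 ^ (s + 1 + 1) - 1 = (2 ^ (s + 1) - 1) * 2 + 1 := by
            have : 1 ≤ 2 ^ (s + 1) := Nat.one_le_two_pow
            have e' : 2 ^ (s + 1 + 1) = 2 ^ (s + 1) * 2 := by ring
            omega
          rw [e]
          generalize 2 ^ (s + 1) - 1 = N
          ring

/-- The level inequality: a function with values in `[0,1]` and small mean has little weight on the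
low levels. -/
theorem level (h0 : 0 < p) (h1 : p < 1) (d s : ℕ) :
    ∃ K : ℝ, 0 < K ∧ ∀ (κ : Type) [Fintype κ] [DecidableEq κ] (h : (κ → Bool) → ℝ)
      (_ : ∀ ω, 0 ≤ h ω) (_ : ∀ ω, h ω ≤ 1) (𝓛 : Finset (Finset κ)) (_ : ∀ T ∈ 𝓛, T.card ≤ d),
      (∑ T ∈ 𝓛, cf p h T ^ 2) ^ (2 ^ s) ≤ K * EE p h ^ (2 ^ (s + 1) - 1) := by
  obtain ⟨K, hK, hm⟩ := moments h0 h1 d s
  refine ⟨K, hK, fun κ _ _ h hh hh1 𝓛 h𝓛 => ?_⟩
  set w := ∑ T ∈ 𝓛, cf p h T ^ 2 with hw
  set P : (κ → Bool) → ℝ := fun ω => ∑ T ∈ 𝓛, cf p h T * chi p T ω with hP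
  have hw0 : 0 ≤ w := Finset.sum_nonneg fun _ _ => sq_nonneg _
  have hE0 : 0 ≤ EE p h := EE_nonneg h0 h1 hh
  have e1 : EE p (fun ω => P ω ^ 2) = w := parseval_comb h0 h1 𝓛 _
  have e2 : EE p (fun ω => h ω * P ω) = w := by
    have e : ∀ ω : κ → Bool, h ω * P ω = ∑ T ∈ 𝓛, cf p h T * (h ω * chi p T ω) := by
      intro ω
      rw [hP, Finset.mul_sum]
      exact Finset.sum_congr rfl fun T _ => by ring
    rw [EE_congr e, EE_sum, hw]
    refine Finset.sum_congr rfl fun T _ => ?_
    rw [EE_mul_left, sq]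
    rfl
  have hdeg : Deg p d P := by
    intro U hU
    unfold cf
    have e : ∀ ω : κ → Bool, P ω * chi p U ω = ∑ T ∈ 𝓛, cf p h T * (chi p T ω * chi p U ω) := by
      intro ω
      rw [hP, Finset.sum_mul]
      exact Finset.sum_congr rfl fun T _ => by ring
    rw [EE_congr e, EE_sum]
    refine Finset.sum_eq_zero fun T hT => ?_
    rw [EE_mul_left, EE_chi_mul h0 h1, if_neg, mul_zero]
    rintro rfl
    exact absurd (h𝓛 T hT) (by omega)
  have h2 := hm κ P hdeg
  rw [e1] at h2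
  have h3 := EE_abs_le h0 h1 (P := P) hh hh1 s
  rw [e2] at h3
  have h4 : EE p (fun ω => h ω * P ω ^ (2 ^ (s + 1))) ≤ K * w ^ (2 ^ s) := by
    refine le_trans (EE_mono h0 h1 fun ω => ?_) h2
    have hev : 0 ≤ P ω ^ (2 ^ (s + 1)) := by
      rw [pow_succ, mul_comm (2 ^ s) 2, pow_mul]
      positivity
    have := mul_le_mul_of_nonneg_right (hh1 ω) hev
    linarith
  have h5 : w ^ (2 ^ (s + 1)) ≤ EE p h ^ (2 ^ (s + 1) - 1) * (K * w ^ (2 ^ s)) :=
    h3.trans (mul_le_mul_of_nonneg_left h4 (by positivity))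
  rcases hw0.eq_or_lt with hz | hpos
  · rw [← hz, zero_pow (by positivity)]
    positivity
  · have hp2 : 0 < w ^ (2 ^ s) := by positivity
    have e3 : w ^ (2 ^ (s + 1)) = w ^ (2 ^ s) * w ^ (2 ^ s) := by
      rw [← pow_add]
      ring_nf
    rw [e3] at h5
    have h6 : w ^ (2 ^ s) * w ^ (2 ^ s) ≤ (K * EE p h ^ (2 ^ (s + 1) - 1)) * w ^ (2 ^ s) := by
      linarith
    exact le_of_mul_le_mul_right h6 hp2

end Pool.Agent.H72.Karp
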