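import Pool.Agent.H72.Karp.Sampling
import Pool.Agent.H72.Karp.Bonami

/-!
The relative variance of averages over the samples is polynomially small, for every function with
values in `[0,1]` whose mean is at least an inverse polynomial.
-/

set_option autoImplicit false
set_option linter.unusedSectionVars false

namespace Pool.Agent.H72.Karp

open Finset Pool.Agent.H85.Online

variable {n m g : ℕ} {p : ℝ}

theorem mem_vs {T : Finset (Prs (Fin m))} {e : Prs (Fin m)} (he : e ∈ T) {j : Fin m}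
    (hj : j ∈ e.1) : j ∈ vs T := by
  unfold vs
  exact Finset.mem_filter.2 ⟨Finset.mem_univ _, e, he, hj⟩

theorem vs_sdiff_pos {J : Finset (Fin m)} (hJ : J.card ≤ 1) {T : Finset (Prs (Fin m))}
    (hT : T ≠ ∅) : 1 ≤ (vs T \ J).card := by
  obtain ⟨e, he⟩ := Finset.nonempty_iff_ne_empty.2 hT
  obtain ⟨e, hd⟩ := e
  induction e using Sym2.ind with
  | _ a b =>
  have ha := mem_vs he (show a ∈ s(a, b) from Sym2.mem_mk_left a b)
  have hb := mem_vs he (show b ∈ s(a, b) from Sym2.mem_mk_right a b)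
  rw [Sym2.mk_isDiag_iff] at hd
  rw [Nat.one_le_iff_ne_zero, Finset.card_ne_zero]
  by_cases h : a ∈ J
  · refine ⟨b, Finset.mem_sdiff.2 ⟨hb, fun h' => hd ?_⟩⟩
    exact Finset.card_le_one.1 hJ a h b h'
  · exact ⟨a, Finset.mem_sdiff.2 ⟨ha, h⟩⟩

theorem card_le_of_vs {J : Finset (Fin m)} (hJ : J.card ≤ 1) {T : Finset (Prs (Fin m))} {j0 : ℕ}
    (hT : (vs T \ J).card < j0) : T.card ≤ (j0 + 1).choose 2 := by
  classical
  have h1 : (vs T).card ≤ j0 := by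
    have h2 := Finset.card_le_card (Finset.subset_union_left (s₁ := vs T) (s₂ := J))
    rw [← Finset.sdiff_union_self_eq_union] at h2
    have h3 := Finset.card_union_le (vs T \ J) J
    omega
  have h2 : T.image Subtype.val ⊆ (vs T).sym2 := by
    intro e he
    obtain ⟨e', he', rfl⟩ := Finset.mem_image.1 he
    rw [Finset.mem_sym2_iff]
    exact fun j hj => mem_vs he' hj
  have h3 := Finset.card_le_card h2
  rw [Finset.card_image_of_injective _ Subtype.val_injective, Finset.card_sym2] at h3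
  exact h3.trans (Nat.choose_le_choose 2 (by omega))

theorem var_small (h0 : 0 < p) (h1 : p < 1) {γ c : ℝ} (hγ : 0 < γ) (hc : 0 ≤ c) :
    ∃ n0 : ℕ, ∀ n : ℕ, n0 ≤ n → ∀ (m g : ℕ) (h : m * g ≤ n), (n : ℝ) ^ γ ≤ 2 * g →
      ∀ (J : Finset (Fin m)), J.card ≤ 1 → ∀ (α : Fin m → Fin g) (hh : SimpleGraph (Fin m) → ℝ),
      (∀ G, 0 ≤ hh G) → (∀ G, hh G ≤ 1) → (n : ℝ) ^ (-c) ≤ EG p hh →
      EG p (fun G : SimpleGraph (Fin n) => (∑ f : Fin m → Fin g, cw J α f * hh (G.comap (sf h f))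
        - (1 / (g : ℝ)) ^ J.card * EG p hh) ^ 2)
      ≤ 3 * (n : ℝ) ^ (-(γ / 2)) * ((1 / (g : ℝ)) ^ J.card * EG p hh) ^ 2 := by
  classical
  -- the parameters
  obtain ⟨s, hs⟩ : ∃ s : ℕ, 2 * (c + 1) / γ ≤ 2 ^ s := by
    obtain ⟨s, hs⟩ := pow_unbounded_of_one_lt (2 * (c + 1) / γ) (show (1 : ℝ) < 2 by norm_num)
    exact ⟨s, hs.le⟩
  obtain ⟨j0, hj0⟩ : ∃ j0 : ℕ, 1 + 2 * c / γ ≤ j0 := exists_nat_ge _
  obtain ⟨K, hK, hlev⟩ := level (p := p) h0 h1 ((j0 + 1).choose 2) s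
  have hev : ∀ᶠ n : ℕ in Filter.atTop, 2 ≤ (n : ℝ) ^ (γ / 2) :=
    ((tendsto_rpow_atTop (half_pos hγ)).comp tendsto_natCast_atTop_atTop).eventually_ge_atTop 2
  obtain ⟨n1, hn1⟩ := Filter.eventually_atTop.1 hev
  refine ⟨max n1 (max 1 ⌈K⌉₊), fun n hn m g h hg J hJ α hh hh0 hh1 hq => ?_⟩
  have hn1' : 2 ≤ (n : ℝ) ^ (γ / 2) := hn1 n (le_trans (le_max_left _ _) hn)
  have hn2 : 1 ≤ n := le_trans (le_trans (le_max_left _ _) (le_max_right _ _)) hn
  have hn3 : K ≤ n := (Nat.le_ceil K).trans (by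
    exact_mod_cast le_trans (le_trans (le_max_right _ _) (le_max_right _ _)) hn)
  have hn2' : (1 : ℝ) ≤ n := by exact_mod_cast hn2
  have hn0 : (0 : ℝ) < n := by linarith
  set q := EG p hh with hqdef
  have hq0 : 0 < q := lt_of_lt_of_le (Real.rpow_pos_of_pos hn0 _) hq
  have hnγ : 0 < (n : ℝ) ^ γ := Real.rpow_pos_of_pos hn0 _
  have hgr : (0 : ℝ) < g := by linarith
  have hg0 : 0 < g := by exact_mod_cast hgr
  set θ : ℝ := 1 / (g : ℝ) with hθ
  have hθ0 : 0 < θ := by positivity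
  have hθ1 : θ ≤ 2 * (n : ℝ) ^ (-γ) := by
    rw [hθ, Real.rpow_neg hn0.le, div_le_iff₀ hgr, mul_assoc, mul_comm, ← div_eq_inv_mul,
      div_mul_eq_mul_div, le_div_iff₀ hnγ]
    linarith
  have hsplit : (n : ℝ) ^ (-γ) = (n : ℝ) ^ (-(γ / 2)) * (n : ℝ) ^ (-(γ / 2)) := by
    rw [← Real.rpow_add hn0]
    congr 1
    ring
  have hinv : (n : ℝ) ^ (-(γ / 2)) * (n : ℝ) ^ (γ / 2) = 1 := by
    rw [← Real.rpow_add hn0]
    simp
  have hy0 : 0 < (n : ℝ) ^ (-(γ / 2)) := Real.rpow_pos_of_pos hn0 _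
  have hθ2 : θ ≤ (n : ℝ) ^ (-(γ / 2)) := by
    refine hθ1.trans ?_
    rw [hsplit]
    have : 2 * (n : ℝ) ^ (-(γ / 2)) ≤ 1 := by
      rw [← hinv, mul_comm (2 : ℝ)]
      exact mul_le_mul_of_nonneg_left hn1' hy0.le
    nlinarith
  have hθle1 : θ ≤ 1 := by
    rw [hθ, div_le_one hgr]
    exact_mod_cast hg0
  refine (variance_le h0 h1 hg0 h J α hh).trans ?_
  set hω : (Prs (Fin m) → Bool) → ℝ := fun ω => hh (gr ω) with hωdef
  have hEq : EE p hω = q := by rw [hqdef, EG_eq]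
  have hω0 : ∀ ω, 0 ≤ hω ω := fun ω => hh0 _
  have hω1 : ∀ ω, hω ω ≤ 1 := fun ω => hh1 _
  -- the low and the high part
  set 𝓛 : Finset (Finset (Prs (Fin m))) :=
    (Finset.univ.erase ∅).filter (fun T => (vs T \ J).card < j0) with h𝓛
  set w := ∑ T ∈ 𝓛, cf p hω T ^ 2 with hw
  have hw0 : 0 ≤ w := Finset.sum_nonneg fun _ _ => sq_nonneg _
  have hsum : ∑ T ∈ Finset.univ.erase ∅, cf p hω T ^ 2 * θ ^ (2 * J.card + (vs T \ J).card)
      ≤ θ ^ (2 * J.card) * (θ * w + θ ^ j0 * q) := by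
    rw [← Finset.sum_filter_add_sum_filter_not (Finset.univ.erase ∅)
      (fun T => (vs T \ J).card < j0), ← h𝓛, mul_add]
    refine add_le_add ?_ ?_
    · rw [hw, Finset.mul_sum, Finset.mul_sum]
      refine Finset.sum_le_sum fun T hT => ?_
      have hT' := Finset.mem_filter.1 hT
      have hpos := vs_sdiff_pos hJ (Finset.ne_of_mem_erase hT'.1)
      rw [pow_add]
      have : θ ^ (vs T \ J).card ≤ θ := by
        calc θ ^ (vs T \ J).card ≤ θ ^ 1 := pow_le_pow_of_le_one hθ0.le hθle1 hpos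
          _ = θ := pow_one θ
      calc cf p hω T ^ 2 * (θ ^ (2 * J.card) * θ ^ (vs T \ J).card)
          ≤ cf p hω T ^ 2 * (θ ^ (2 * J.card) * θ) := by gcongr
        _ = _ := by ring
    · have hpars : ∑ T : Finset (Prs (Fin m)), cf p hω T ^ 2 ≤ q := by
        rw [parseval h0 h1, ← hEq]
        refine EE_mono h0 h1 fun ω => ?_
        nlinarith [hω0 ω, hω1 ω]
      calc ∑ T ∈ (Finset.univ.erase ∅).filter (fun T => ¬ (vs T \ J).card < j0),
            cf p hω T ^ 2 * θ ^ (2 * J.card + (vs T \ J).card)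
          ≤ ∑ T ∈ (Finset.univ.erase ∅).filter (fun T => ¬ (vs T \ J).card < j0),
            cf p hω T ^ 2 * (θ ^ (2 * J.card) * θ ^ j0) := by
            refine Finset.sum_le_sum fun T hT => ?_
            have hT' := (Finset.mem_filter.1 hT).2
            rw [pow_add]
            have : θ ^ (vs T \ J).card ≤ θ ^ j0 :=
              pow_le_pow_of_le_one hθ0.le hθle1 (by omega)
            gcongr
        _ ≤ ∑ T : Finset (Prs (Fin m)), cf p hω T ^ 2 * (θ ^ (2 * J.card) * θ ^ j0) :=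
            Finset.sum_le_sum_of_subset_of_nonneg (Finset.subset_univ _)
              fun _ _ _ => by positivity
        _ = (∑ T : Finset (Prs (Fin m)), cf p hω T ^ 2) * (θ ^ (2 * J.card) * θ ^ j0) := by
            rw [Finset.sum_mul]
        _ ≤ q * (θ ^ (2 * J.card) * θ ^ j0) := by gcongr
        _ = _ := by ring
  refine hsum.trans ?_
  -- the low part
  have hwN := hlev (Prs (Fin m)) hω hω0 hω1 𝓛 (fun T hT => card_le_of_vs hJ
    (Finset.mem_filter.1 hT).2)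
  rw [← hw, hEq] at hwN
  have hqc : 1 ≤ (n : ℝ) ^ c * q := by
    have e : (n : ℝ) ^ c * (n : ℝ) ^ (-c) = 1 := by
      rw [← Real.rpow_add hn0]
      simp
    calc (1 : ℝ) = (n : ℝ) ^ c * (n : ℝ) ^ (-c) := e.symm
      _ ≤ _ := mul_le_mul_of_nonneg_left hq (Real.rpow_nonneg hn0.le _)
  have hwle : w ≤ (n : ℝ) ^ (γ / 2) * q ^ 2 := by
    have hN : (2 ^ s : ℕ) ≠ 0 := by positivity
    rw [← pow_le_pow_iff_left₀ hw0 (by positivity) hN]
    refine hwN.trans ?_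
    have e1 : ((n : ℝ) ^ (γ / 2) * q ^ 2) ^ (2 ^ s)
        = ((n : ℝ) ^ (γ / 2)) ^ (2 ^ s) * (q * q ^ (2 ^ (s + 1) - 1)) := by
      have h1' : 2 ^ (s + 1) - 1 + 1 = 2 * 2 ^ s := by
        have : 1 ≤ 2 ^ (s + 1) := Nat.one_le_two_pow
        have e' : 2 ^ (s + 1) = 2 * 2 ^ s := by ring
        omega
      have h2' : q * q ^ (2 ^ (s + 1) - 1) = q ^ (2 * 2 ^ s) := by
        rw [← h1']
        exact (pow_succ' q _).symm
      rw [mul_pow, ← pow_mul q, h2']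
    have e2 : (n : ℝ) * (n : ℝ) ^ c ≤ ((n : ℝ) ^ (γ / 2)) ^ (2 ^ s) := by
      rw [← Real.rpow_natCast, ← Real.rpow_mul hn0.le]
      have e3 : (n : ℝ) * (n : ℝ) ^ c = (n : ℝ) ^ (1 + c) := by
        rw [Real.rpow_add hn0, Real.rpow_one]
      rw [e3]
      refine Real.rpow_le_rpow_of_exponent_le hn2' ?_
      push_cast
      rw [div_le_iff₀ hγ] at hs
      linarith
    rw [e1]
    have hq2 : 0 ≤ q ^ (2 ^ (s + 1) - 1) := by positivity
    calc K * q ^ (2 ^ (s + 1) - 1) ≤ (n * ((n : ℝ) ^ c * q)) * q ^ (2 ^ (s + 1) - 1) := by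
          refine mul_le_mul_of_nonneg_right ?_ hq2
          nlinarith
      _ = (n * (n : ℝ) ^ c) * (q * q ^ (2 ^ (s + 1) - 1)) := by ring
      _ ≤ _ := by gcongr
  have hlow : θ * w ≤ 2 * (n : ℝ) ^ (-(γ / 2)) * q ^ 2 := by
    calc θ * w ≤ (2 * (n : ℝ) ^ (-γ)) * ((n : ℝ) ^ (γ / 2) * q ^ 2) :=
          mul_le_mul hθ1 hwle hw0 (by positivity)
      _ = 2 * (n : ℝ) ^ (-(γ / 2)) * ((n : ℝ) ^ (-(γ / 2)) * (n : ℝ) ^ (γ / 2)) * q ^ 2 := by
          rw [hsplit]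
          ring
      _ = _ := by rw [hinv, mul_one]
  have hhigh : θ ^ j0 * q ≤ (n : ℝ) ^ (-(γ / 2)) * q ^ 2 := by
    have e1 : θ ^ j0 ≤ (n : ℝ) ^ (-(γ / 2)) * (n : ℝ) ^ (-c) := by
      calc θ ^ j0 ≤ ((n : ℝ) ^ (-(γ / 2))) ^ j0 := pow_le_pow_left₀ hθ0.le hθ2 _
        _ = (n : ℝ) ^ (-(γ / 2) * j0) := by rw [← Real.rpow_natCast, ← Real.rpow_mul hn0.le]
        _ ≤ (n : ℝ) ^ (-(γ / 2) + -c) := by
            refine Real.rpow_le_rpow_of_exponent_le hn2' ?_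
            have : γ / 2 * (1 + 2 * c / γ) ≤ γ / 2 * j0 :=
              mul_le_mul_of_nonneg_left hj0 (by positivity)
            have e : γ / 2 * (1 + 2 * c / γ) = γ / 2 + c := by field_simp
            linarith
        _ = _ := Real.rpow_add hn0 _ _
    calc θ ^ j0 * q ≤ ((n : ℝ) ^ (-(γ / 2)) * (n : ℝ) ^ (-c)) * q := by gcongr
      _ ≤ ((n : ℝ) ^ (-(γ / 2)) * q) * q := by gcongr
      _ = _ := by ring
  calc θ ^ (2 * J.card) * (θ * w + θ ^ j0 * q)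
      ≤ θ ^ (2 * J.card) * (2 * (n : ℝ) ^ (-(γ / 2)) * q ^ 2 + (n : ℝ) ^ (-(γ / 2)) * q ^ 2) := by
        gcongr
    _ = _ := by
        rw [mul_pow, ← pow_mul, mul_comm J.card 2]
        ring

end Pool.Agent.H72.Karp
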