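import Pool.Agent.H85.Online.Prob

/-!
Definitions: randomised algorithms which search for independent sets, and the colouring procedure
which uses such an algorithm as a black box on induced subgraphs of the random graph.
-/

set_option autoImplicit false

namespace Pool.Agent.H72.Karp

open Pool.Agent.H85.Online Finset

/-- `I` is an independent set of `G` -/
def Indep {V : Type*} (G : SimpleGraph V) (I : Finset V) : Prop :=
  ∀ u ∈ I, ∀ v ∈ I, ¬ G.Adj u v

/-- A randomised algorithm which outputs a set of vertices. For every order `m` there is a number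
`seeds m` of equally likely seeds, and the output is an arbitrary function of the graph and of the
seed. -/
structure SetAlg where
  /-- the number of seeds -/
  seeds : ℕ → ℕ
  /-- the output -/
  out : ∀ m : ℕ, SimpleGraph (Fin m) → Fin (seeds m) → Finset (Fin m)

/-- The probability, over `G(m,p)` and a uniform seed, that the output is an independent set with
at least `s` vertices. -/
noncomputable def SetAlg.success (A : SetAlg) (p : ℝ) (m : ℕ) (s : ℝ) : ℝ :=
  (∑ ρ : Fin (A.seeds m), Prob p (fun G : SimpleGraph (Fin m) =>
    Indep G (A.out m G ρ) ∧ s ≤ ((A.out m G ρ).card : ℝ))) / A.seeds m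

/-- One random sample: a permutation of the `m` groups, one of the `g` vertices in every group, and
a seed. -/
abbrev Sample (m g r : ℕ) : Type := Equiv.Perm (Fin m) × (Fin m → Fin g) × Fin r

/-- the vertex number `a` of the group number `i`, among `n ≥ m g` vertices -/
def pt {n m g : ℕ} (h : m * g ≤ n) (i : Fin m) (a : Fin g) : Fin n :=
  ⟨i * g + a, by
    have hi := i.isLt
    have ha := a.isLt
    have h1 : (i : ℕ) * g + g ≤ m * g := by
      have : ((i : ℕ) + 1) * g ≤ m * g := Nat.mul_le_mul_right _ hi
      linarith
    omega⟩

theorem pt_inj {n m g : ℕ} (h : m * g ≤ n) {i j : Fin m} {a b : Fin g}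
    (he : pt h i a = pt h j b) : i = j ∧ a = b := by
  have h1 : (i : ℕ) * g + a = j * g + b := by
    have := congrArg Fin.val he
    simpa [pt] using this
  have ha := a.isLt
  have hb := b.isLt
  have hg : 0 < g := lt_of_le_of_lt (Nat.zero_le _) ha
  have h2 : (i : ℕ) = j := by
    have e1 : ((i : ℕ) * g + a) / g = i := by
      rw [mul_comm, Nat.mul_add_div hg, Nat.div_eq_of_lt ha, add_zero]
    have e2 : ((j : ℕ) * g + b) / g = j := by
      rw [mul_comm, Nat.mul_add_div hg, Nat.div_eq_of_lt hb, add_zero]
    rw [← e1, ← e2, h1]
  have h3 : (a : ℕ) = b := by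
    rw [h2] at h1
    omega
  exact ⟨Fin.ext h2, Fin.ext h3⟩

/-- the vertices of the sample, listed in the order given by the permutation -/
def emb {n m g : ℕ} (h : m * g ≤ n) (π : Equiv.Perm (Fin m)) (f : Fin m → Fin g) :
    Fin m ↪ Fin n :=
  ⟨fun a => pt h (π a) (f (π a)), fun _ _ he => π.injective (pt_inj h he).1⟩

/-- the set found by the algorithm `A` in the induced subgraph of `G` given by the sample -/
def cand (A : SetAlg) {n m g : ℕ} (h : m * g ≤ n) (G : SimpleGraph (Fin n))
    (σ : Sample m g (A.seeds m)) : Finset (Fin n) :=
  (A.out m (G.comap (emb h σ.1 σ.2.1)) σ.2.2).map (emb h σ.1 σ.2.1)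

/-- the union of the sets in a list -/
def covered {n : ℕ} (L : List (Finset (Fin n))) : Finset (Fin n) :=
  L.foldr (fun I C => I ∪ C) ∅

open Classical in
/-- One round of the procedure: `L` is the list of the classes found so far and `C` is the set of
the vertices in them. If `C` has fewer than `c n` elements, and if the set `I` found by the
algorithm in the sample is an independent set with at least `s` elements, of which at least the
fraction `1 - |C|/n - η` is outside `C`, then `I \ C` is added to the list of classes. -/
noncomputable def step (A : SetAlg) {n m g : ℕ} (h : m * g ≤ n) (s c η : ℝ)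
    (G : SimpleGraph (Fin n)) (L : List (Finset (Fin n))) (σ : Sample m g (A.seeds m)) :
    List (Finset (Fin n)) :=
  if ((covered L).card : ℝ) < c * n ∧ Indep G (cand A h G σ) ∧ s ≤ ((cand A h G σ).card : ℝ) ∧
      (1 - ((covered L).card : ℝ) / n - η) * (cand A h G σ).card
        ≤ ((cand A h G σ \ covered L).card : ℝ)
    then (cand A h G σ \ covered L) :: L else L

open Classical in
/-- the number of neighbours of `v` in `T` -/
noncomputable def degIn {n : ℕ} (G : SimpleGraph (Fin n)) (T : Finset (Fin n)) (v : Fin n) : ℕ :=
  (T.filter fun u => G.Adj v u).card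

/-- a vertex of `T` with the smallest number of neighbours in `T` -/
noncomputable def minVertex {n : ℕ} (G : SimpleGraph (Fin n)) (T : Finset (Fin n))
    (hT : T.Nonempty) : Fin n :=
  (exists_min_image T (degIn G T) hT).choose

theorem minVertex_mem {n : ℕ} (G : SimpleGraph (Fin n)) (T : Finset (Fin n))
    (hT : T.Nonempty) : minVertex G T hT ∈ T :=
  (exists_min_image T (degIn G T) hT).choose_spec.1

theorem minVertex_le {n : ℕ} (G : SimpleGraph (Fin n)) (T : Finset (Fin n))
    (hT : T.Nonempty) {u : Fin n} (hu : u ∈ T) : degIn G T (minVertex G T hT) ≤ degIn G T u :=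
  (exists_min_image T (degIn G T) hT).choose_spec.2 u hu

open Classical in
/-- The minimum degree greedy algorithm for an independent set in `T`: take a vertex `v` with the
smallest number of neighbours in `T` and continue with the other non-neighbours of `v` in `T`. -/
noncomputable def greedy {n : ℕ} (G : SimpleGraph (Fin n)) (T : Finset (Fin n)) :
    Finset (Fin n) :=
  if h : T.Nonempty then
    insert (minVertex G T h)
      (greedy G (T.filter fun u => u ≠ minVertex G T h ∧ ¬ G.Adj (minVertex G T h) u))
  else ∅
termination_by T.card
decreasing_by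
  refine Finset.card_lt_card (Finset.filter_ssubset.2 ⟨minVertex G T h, minVertex_mem G T h, ?_⟩)
  simp

theorem greedy_of_empty {n : ℕ} (G : SimpleGraph (Fin n)) : greedy G ∅ = ∅ := by
  rw [greedy]
  simp

open Classical in
theorem greedy_of_nonempty {n : ℕ} (G : SimpleGraph (Fin n)) (T : Finset (Fin n))
    (h : T.Nonempty) : greedy G T = insert (minVertex G T h)
      (greedy G (T.filter fun u => u ≠ minVertex G T h ∧ ¬ G.Adj (minVertex G T h) u)) := by
  rw [greedy, dif_pos h]

open Classical in
theorem greedy_subset {n : ℕ} (G : SimpleGraph (Fin n)) (T : Finset (Fin n)) :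
    greedy G T ⊆ T := by
  induction hk : T.card using Nat.strong_induction_on generalizing T with
  | _ k ih =>
    rcases T.eq_empty_or_nonempty with h | h
    · rw [h, greedy_of_empty]
    · rw [greedy_of_nonempty G T h]
      refine Finset.insert_subset (minVertex_mem G T h) ?_
      refine (ih _ ?_ _ rfl).trans (Finset.filter_subset _ _)
      rw [← hk]
      refine Finset.card_lt_card
        (Finset.filter_ssubset.2 ⟨minVertex G T h, minVertex_mem G T h, ?_⟩)
      simp

theorem greedy_nonempty {n : ℕ} (G : SimpleGraph (Fin n)) (T : Finset (Fin n))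
    (h : T.Nonempty) : (greedy G T).Nonempty := by
  rw [greedy_of_nonempty G T h]
  exact Finset.insert_nonempty _ _

/-- Colour `T` by repeatedly removing the set found by the greedy algorithm. -/
noncomputable def peel {n : ℕ} (G : SimpleGraph (Fin n)) (T : Finset (Fin n)) :
    List (Finset (Fin n)) :=
  if _h : T.Nonempty then greedy G T :: peel G (T \ greedy G T) else []
termination_by T.card
decreasing_by
  refine Finset.card_lt_card (Finset.sdiff_ssubset (greedy_subset G T) (greedy_nonempty G T _h))

/-- the number of vertices in a group -/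
noncomputable def grp (γ : ℝ) (n : ℕ) : ℕ := ⌊(n : ℝ) ^ γ⌋₊

/-- the number of groups, which is the order of the induced subgraphs to which the algorithm is
applied -/
noncomputable def ord (γ : ℝ) (n : ℕ) : ℕ := n / grp γ n

theorem ord_mul_grp (γ : ℝ) (n : ℕ) : ord γ n * grp γ n ≤ n := Nat.div_mul_le_self _ _

/-- The colouring procedure. It makes `n ^ K` rounds with the samples `σ`, each with one call of
`A` on an induced subgraph of order `ord γ n`, and it colours the remaining vertices by the greedy
algorithm. -/
noncomputable def colouring (A : SetAlg) (p ε γ η : ℝ) (K n : ℕ) (G : SimpleGraph (Fin n))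
    (σ : Fin (n ^ K) → Sample (ord γ n) (grp γ n) (A.seeds (ord γ n))) :
    List (Finset (Fin n)) :=
  peel G (Finset.univ \ covered ((List.ofFn σ).foldl (step A (ord_mul_grp γ n)
    ((1 + ε) * Real.logb (1 / (1 - p)) (ord γ n)) (ε / (1 + ε)) η G) [])) ++
  (List.ofFn σ).foldl (step A (ord_mul_grp γ n)
    ((1 + ε) * Real.logb (1 / (1 - p)) (ord γ n)) (ε / (1 + ε)) η G) []

/-- the sets in the list are independent, pairwise disjoint, and cover all the vertices -/
def IsColouring {n : ℕ} (G : SimpleGraph (Fin n)) (L : List (Finset (Fin n))) : Prop :=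
  (∀ I ∈ L, Indep G I) ∧ L.Pairwise Disjoint ∧ ∀ v, ∃ I ∈ L, v ∈ I

/-- the probability of an event which depends on `G(n,p)` and on an independent uniform element of
`Ω` -/
noncomputable def ProbR (p : ℝ) {n : ℕ} {Ω : Type} [Fintype Ω]
    (E : SimpleGraph (Fin n) → Ω → Prop) : ℝ :=
  (∑ ω : Ω, Prob p (fun G => E G ω)) / Fintype.card Ω

end Pool.Agent.H72.Karp
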