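import Pool.Agent.H72.Karp.Accept

/-!
The good graphs: they have probability tending to one, and for a good graph and every set of covered
vertices a random sample is accepted with probability at least `ps η / 4`.
-/

set_option autoImplicit false
set_option linter.unusedSectionVars false

namespace Pool.Agent.H72.Karp

open Finset Pool.Agent.H85.Online

variable {n m g : ℕ} {p : ℝ} (A : SetAlg) (s : ℝ)

/-- Markov's inequality -/
theorem Prob_le_div (h0 : 0 < p) (h1 : p < 1) (E : SimpleGraph (Fin n) → Prop)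
    (F : SimpleGraph (Fin n) → ℝ) (hF : ∀ G, 0 ≤ F G) {t : ℝ} (ht : 0 < t)
    (hE : ∀ G, E G → t ≤ F G) : Prob p E ≤ EG p F / t := by
  classical
  rw [le_div_iff₀ ht, Prob_eq, mul_comm, ← EG_mul_left]
  refine EG_mono h0 h1 fun G => ?_
  split_ifs with h
  · rw [mul_one]
    exact hE G h
  · rw [mul_zero]
    exact hF G

/-- a graph for which the averages over the samples are close to their expectations -/
def GoodG (h : m * g ≤ n) (α : Fin m → Fin g) (ps κ : ℝ) (G : SimpleGraph (Fin n)) : Prop :=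
  (1 - κ) * ps ≤ Wt A s h α G ∧
    ∑ x : Fin m × Fin g, (Xv A s h G x.1 x.2 - ps / (m * g)) ^ 2 ≤ κ ^ 2 * ps ^ 2 / (m * g)

theorem prob_bad (h0 : 0 < p) (h1 : p < 1) {γ c : ℝ} (hγ : 0 < γ) (hc : 0 ≤ c) :
    ∃ n0 : ℕ, ∀ n : ℕ, n0 ≤ n → ∀ (m g : ℕ) (h : m * g ≤ n), (n : ℝ) ^ γ ≤ 2 * g →
      ∀ (A : SetAlg) (s : ℝ), 0 < s → 0 < m → (n : ℝ) ^ (-c) ≤ A.success p m s / m →
      ∀ (α : Fin m → Fin g) (κ : ℝ), 0 < κ →
      Prob p (fun G : SimpleGraph (Fin n) => ¬ GoodG A s h α (A.success p m s) κ G)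
        ≤ 6 * (n : ℝ) ^ (-(γ / 2)) / κ ^ 2 := by
  obtain ⟨n0, hn0⟩ := var_small (p := p) h0 h1 hγ hc
  refine ⟨max 1 n0, fun n hn m g h hg A s hs hm hps α κ hκ => ?_⟩
  have hn1 : (0 : ℝ) < n := by
    exact_mod_cast lt_of_lt_of_le Nat.one_pos (le_trans (le_max_left _ _) hn)
  have hn' : n0 ≤ n := le_trans (le_max_right _ _) hn
  set ps := A.success p m s with hpsd
  have hm' : (0 : ℝ) < m := by exact_mod_cast hm
  have hm1 : (1 : ℝ) ≤ m := by exact_mod_cast hm
  have hnγ : 0 < (n : ℝ) ^ γ := Real.rpow_pos_of_pos hn1 _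
  have hg' : (0 : ℝ) < g := by linarith
  have hg0 : 0 < g := by exact_mod_cast hg'
  have hnc : 0 < (n : ℝ) ^ (-c) := Real.rpow_pos_of_pos hn1 _
  have hpm : 0 < ps / m := lt_of_lt_of_le hnc hps
  have hps0 : 0 < ps := by
    rw [div_pos_iff] at hpm
    rcases hpm with h' | h'
    · exact h'.1
    · linarith [h'.2]
  have hps1 : (n : ℝ) ^ (-c) ≤ ps := hps.trans (div_le_self hps0.le hm1)
  have hy : 0 < (n : ℝ) ^ (-(γ / 2)) := Real.rpow_pos_of_pos hn1 _
  -- the first part
  have v1 := hn0 n hn' m g h hg ∅ (by simp) α (hw A s) (hw_nonneg A s) (hw_le_one A s)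
    (by rw [EG_hw A s h0 h1]; exact hps1)
  rw [EG_hw A s h0 h1] at v1
  simp only [Finset.card_empty, pow_zero, one_mul, ← hpsd] at v1
  have b1 : Prob p (fun G : SimpleGraph (Fin n) => ¬ (1 - κ) * ps ≤ Wt A s h α G)
      ≤ 3 * (n : ℝ) ^ (-(γ / 2)) / κ ^ 2 := by
    refine (Prob_le_div h0 h1 _ (fun G : SimpleGraph (Fin n) => (Wt A s h α G - ps) ^ 2)
      (fun G => sq_nonneg _) (t := κ ^ 2 * ps ^ 2) (by positivity) ?_).trans ?_
    · intro G hG
      push Not at hG
      have h2 : κ * ps ≤ ps - Wt A s h α G := by linarith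
      have h3 : 0 ≤ κ * ps := by positivity
      nlinarith
    · rw [div_le_div_iff₀ (by positivity) (by positivity)]
      have : EG p (fun G : SimpleGraph (Fin n) => (Wt A s h α G - ps) ^ 2)
          ≤ 3 * (n : ℝ) ^ (-(γ / 2)) * ps ^ 2 := v1
      have h2 := mul_le_mul_of_nonneg_right this (sq_nonneg κ)
      linarith
  -- the second part
  have v2 : ∀ x : Fin m × Fin g, EG p (fun G : SimpleGraph (Fin n) =>
      (Xv A s h G x.1 x.2 - ps / (m * g)) ^ 2) ≤ 3 * (n : ℝ) ^ (-(γ / 2)) * (ps / (m * g)) ^ 2 := by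
    intro x
    have v := hn0 n hn' m g h hg {x.1} (by simp) (fun _ => x.2) (hv A s x.1)
      (hv_nonneg A s x.1) (hv_le_one A s x.1) (by rw [EG_hv A s h0 h1 hs]; exact hps)
    rw [EG_hv A s h0 h1 hs] at v
    simp only [Finset.card_singleton, pow_one, ← hpsd] at v
    have e : 1 / (g : ℝ) * (ps / m) = ps / (m * g) := by
      field_simp
    rw [e] at v
    exact v
  have b2 : Prob p (fun G : SimpleGraph (Fin n) => ¬ ∑ x : Fin m × Fin g,
      (Xv A s h G x.1 x.2 - ps / (m * g)) ^ 2 ≤ κ ^ 2 * ps ^ 2 / (m * g))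
      ≤ 3 * (n : ℝ) ^ (-(γ / 2)) / κ ^ 2 := by
    refine (Prob_le_div h0 h1 _ (fun G : SimpleGraph (Fin n) => ∑ x : Fin m × Fin g,
      (Xv A s h G x.1 x.2 - ps / (m * g)) ^ 2)
      (fun G => Finset.sum_nonneg fun _ _ => sq_nonneg _) (t := κ ^ 2 * ps ^ 2 / (m * g))
      (by positivity) ?_).trans ?_
    · intro G hG
      push Not at hG
      exact hG.le
    · rw [div_le_div_iff₀ (by positivity) (by positivity), EG_sum]
      have h2 : ∑ x : Fin m × Fin g, EG p (fun G : SimpleGraph (Fin n) =>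
          (Xv A s h G x.1 x.2 - ps / (m * g)) ^ 2)
          ≤ ∑ _x : Fin m × Fin g, 3 * (n : ℝ) ^ (-(γ / 2)) * (ps / (m * g)) ^ 2 :=
        Finset.sum_le_sum fun x _ => v2 x
      rw [Finset.sum_const, Finset.card_univ, Fintype.card_prod, Fintype.card_fin,
        Fintype.card_fin, nsmul_eq_mul] at h2
      have h3 := mul_le_mul_of_nonneg_right h2 (sq_nonneg κ)
      refine h3.trans (le_of_eq ?_)
      push_cast
      field_simp
  calc Prob p (fun G : SimpleGraph (Fin n) => ¬ GoodG A s h α ps κ G)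
      ≤ Prob p (fun G : SimpleGraph (Fin n) => ¬ (1 - κ) * ps ≤ Wt A s h α G ∨
        ¬ ∑ x : Fin m × Fin g, (Xv A s h G x.1 x.2 - ps / (m * g)) ^ 2
          ≤ κ ^ 2 * ps ^ 2 / (m * g)) := by
        refine Prob_mono h0 h1 fun G hG => ?_
        unfold GoodG at hG
        tauto
    _ ≤ _ := Prob_or h0 h1 _ _
    _ ≤ 3 * (n : ℝ) ^ (-(γ / 2)) / κ ^ 2 + 3 * (n : ℝ) ^ (-(γ / 2)) / κ ^ 2 := add_le_add b1 b2
    _ = _ := by ring

theorem avS_mono {F F' : Sample m g (A.seeds m) → ℝ} (h : ∀ σ, F σ ≤ F' σ) :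
    avS A F ≤ avS A F' := by
  unfold avS
  exact div_le_div_of_nonneg_right (Finset.sum_le_sum fun σ _ => h σ) (by positivity)

theorem avS_add (F F' : Sample m g (A.seeds m) → ℝ) :
    avS A (fun σ => F σ + F' σ) = avS A F + avS A F' := by
  unfold avS
  rw [Finset.sum_add_distrib, add_div]

theorem avS_div (F : Sample m g (A.seeds m) → ℝ) (c : ℝ) :
    avS A (fun σ => F σ / c) = avS A F / c := by
  unfold avS
  rw [← Finset.sum_div, div_right_comm]

/-- the total share of a set of vertices -/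
theorem share_le (h : m * g ≤ n) (α : Fin m → Fin g) {ps κ : ℝ} {G : SimpleGraph (Fin n)}
    (hG : GoodG A s h α ps κ G) (hps : 0 ≤ ps) (hκ : 0 ≤ κ) (hκ1 : κ ≤ 1) (hm : 0 < m)
    (hg : 0 < g) (hn : (n : ℝ) ≤ (1 + κ) * (m * g)) (C : Finset (Fin n)) :
    ∑ x : Fin m × Fin g, (if pt h x.1 x.2 ∈ C then Xv A s h G x.1 x.2 else 0)
      ≤ ps * ((C.card : ℝ) / n + 3 * κ) := by
  classical
  have hm' : (0 : ℝ) < m := by exact_mod_cast hm
  have hg' : (0 : ℝ) < g := by exact_mod_cast hg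
  have hmg : (m : ℝ) * g ≤ n := by exact_mod_cast h
  have hn0 : (0 : ℝ) < n := lt_of_lt_of_le (by positivity) hmg
  set S : Finset (Fin m × Fin g) := Finset.univ.filter (fun x => pt h x.1 x.2 ∈ C) with hS
  set xb : ℝ := ps / (m * g) with hxb
  have hScard : (S.card : ℝ) ≤ C.card := by
    have : S.card ≤ C.card := by
      refine Finset.card_le_card_of_injOn (fun x => pt h x.1 x.2) ?_ ?_
      · intro x hx
        exact (Finset.mem_filter.1 hx).2
      · intro x _ y _ hxy
        obtain ⟨e1, e2⟩ := pt_inj h hxy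
        exact Prod.ext e1 e2
    exact_mod_cast this
  have hCn : (C.card : ℝ) ≤ n := by
    have := Finset.card_le_univ C
    rw [Fintype.card_fin] at this
    exact_mod_cast this
  rw [← Finset.sum_filter, ← hS]
  have e1 : ∑ x ∈ S, Xv A s h G x.1 x.2
      = S.card * xb + ∑ x ∈ S, (Xv A s h G x.1 x.2 - xb) := by
    rw [Finset.sum_sub_distrib, Finset.sum_const, nsmul_eq_mul]
    ring
  have h2 : (∑ x ∈ S, (Xv A s h G x.1 x.2 - xb)) ^ 2 ≤ (2 * κ * ps) ^ 2 := by
    calc (∑ x ∈ S, (Xv A s h G x.1 x.2 - xb)) ^ 2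
        ≤ S.card * ∑ x ∈ S, (Xv A s h G x.1 x.2 - xb) ^ 2 := sq_sum_le_card_mul_sum_sq
      _ ≤ S.card * ∑ x : Fin m × Fin g, (Xv A s h G x.1 x.2 - xb) ^ 2 := by
          refine mul_le_mul_of_nonneg_left ?_ (by positivity)
          exact Finset.sum_le_sum_of_subset_of_nonneg (Finset.subset_univ _)
            fun _ _ _ => sq_nonneg _
      _ ≤ n * (κ ^ 2 * ps ^ 2 / (m * g)) := by
          refine mul_le_mul (hScard.trans hCn) hG.2
            (Finset.sum_nonneg fun _ _ => sq_nonneg _) hn0.le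
      _ ≤ ((1 + κ) * (m * g)) * (κ ^ 2 * ps ^ 2 / (m * g)) := by
          exact mul_le_mul_of_nonneg_right hn (by positivity)
      _ = (1 + κ) * (κ ^ 2 * ps ^ 2) := by field_simp
      _ ≤ 4 * (κ ^ 2 * ps ^ 2) := mul_le_mul_of_nonneg_right (by linarith) (by positivity)
      _ = _ := by ring
  have h3 := (abs_le_of_sq_le_sq' h2 (by positivity)).2
  have h4 : (S.card : ℝ) * xb ≤ ps * ((C.card : ℝ) / n + κ) := by
    have : (C.card : ℝ) / (m * g) ≤ (C.card : ℝ) / n + κ := by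
      rw [div_add' _ _ _ hn0.ne', div_le_div_iff₀ (by positivity) hn0]
      have e2 : (C.card : ℝ) * n ≤ (C.card : ℝ) * ((1 + κ) * (m * g)) :=
        mul_le_mul_of_nonneg_left hn (by positivity)
      have e3 : (C.card : ℝ) * (κ * (m * g)) ≤ n * (κ * (m * g)) :=
        mul_le_mul_of_nonneg_right hCn (by positivity)
      nlinarith
    calc (S.card : ℝ) * xb ≤ C.card * xb := mul_le_mul_of_nonneg_right hScard (by positivity)
      _ = ps * ((C.card : ℝ) / (m * g)) := by rw [hxb]; ring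
      _ ≤ _ := mul_le_mul_of_nonneg_left this hps
  rw [e1]
  nlinarith

open Classical in
/-- the acceptance probability -/
theorem accept_le (h : m * g ≤ n) (α : Fin m → Fin g) {ps κ η : ℝ} {G : SimpleGraph (Fin n)}
    (hG : GoodG A s h α ps κ G) (hps : 0 ≤ ps) (hκ : 0 ≤ κ) (hη : 0 < η) (hη1 : η ≤ 1)
    (hκη : 16 * κ ≤ η) (hs : 0 < s) (hm : 0 < m) (hg : 0 < g)
    (hn : (n : ℝ) ≤ (1 + κ) * (m * g)) (C : Finset (Fin n)) :
    ps * η / 4 ≤ avS A (fun σ => if SucG A s h G σ ∧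
      (1 - (C.card : ℝ) / n - η) * (cand A h G σ).card ≤ ((cand A h G σ \ C).card : ℝ)
        then 1 else 0) := by
  have hm' : (0 : ℝ) < m := by exact_mod_cast hm
  have hg' : (0 : ℝ) < g := by exact_mod_cast hg
  have hmg : (m : ℝ) * g ≤ n := by exact_mod_cast h
  have hn0 : (0 : ℝ) < n := lt_of_lt_of_le (by positivity) hmg
  set c : ℝ := (C.card : ℝ) / n with hc
  have hc0 : 0 ≤ c := by positivity
  have hc1 : c ≤ 1 := by
    rw [hc, div_le_one hn0]
    have := Finset.card_le_univ C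
    rw [Fintype.card_fin] at this
    exact_mod_cast this
  have hcη : 0 < c + η := by linarith
  have key : ∀ σ : Sample m g (A.seeds m), (if SucG A s h G σ then (1 : ℝ) else 0)
      ≤ (if SucG A s h G σ ∧ (1 - c - η) * (cand A h G σ).card ≤ ((cand A h G σ \ C).card : ℝ)
          then 1 else 0)
        + (if SucG A s h G σ then ((cand A h G σ ∩ C).card : ℝ) / (cand A h G σ).card else 0)
          / (c + η) := by
    intro σ
    by_cases hS : SucG A s h G σ
    · have hI : (0 : ℝ) < (cand A h G σ).card := lt_of_lt_of_le hs hS.2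
      by_cases hacc : (1 - c - η) * (cand A h G σ).card ≤ ((cand A h G σ \ C).card : ℝ)
      · rw [if_pos hS, if_pos ⟨hS, hacc⟩, if_pos hS]
        have : 0 ≤ ((cand A h G σ ∩ C).card : ℝ) / (cand A h G σ).card / (c + η) := by positivity
        linarith
      · rw [if_pos hS, if_neg (fun h' => hacc h'.2), if_pos hS, zero_add]
        push Not at hacc
        have e : ((cand A h G σ \ C).card : ℝ) + (cand A h G σ ∩ C).card
            = (cand A h G σ).card := by
          exact_mod_cast Finset.card_sdiff_add_card_inter _ _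
        rw [le_div_iff₀ hcη, one_mul, le_div_iff₀ hI]
        nlinarith
    · rw [if_neg hS, if_neg (fun h' => hS h'.1), if_neg hS]
      simp
  have h2 := avS_mono A key
  rw [avS_add, avS_div, avS_suc A s h α, avS_inter] at h2
  have h3 := share_le A s h α hG hps hκ (by linarith) hm hg hn C
  have h4 : (∑ x : Fin m × Fin g, (if pt h x.1 x.2 ∈ C then Xv A s h G x.1 x.2 else 0)) / (c + η)
      ≤ ps * (c + 3 * κ) / (c + η) := div_le_div_of_nonneg_right h3 hcη.le
  have h5 : ps * (c + 3 * κ) / (c + η) ≤ ps * (1 - η / 4 - κ) := by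
    rw [div_le_iff₀ hcη, mul_assoc]
    refine mul_le_mul_of_nonneg_left ?_ hps
    nlinarith
  have h6 := hG.1
  nlinarith

end Pool.Agent.H72.Karp
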