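import Pool.Agent.H72.Karp.Greedy
import Pool.Agent.H72.Karp.Good

/-!
With high probability every large set of vertices has a vertex whose degree in the set is at most
`(p + δ)` times the size of the set.
-/

set_option autoImplicit false
set_option linter.unusedSectionVars false

namespace Pool.Agent.H72.Karp

open Finset Pool.Agent.H85.Online

variable {n : ℕ} {p : ℝ}

open Classical in
/-- the pairs inside `T` -/
noncomputable def insd (T : Finset (Fin n)) : Finset (Prs (Fin n)) :=
  Finset.univ.filter fun e => ∀ v ∈ e.1, v ∈ T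

theorem card_insd (T : Finset (Fin n)) : (insd T).card = T.card.choose 2 := by
  classical
  have h1 : (insd T).image Subtype.val = T.sym2.filter (fun e => ¬ e.IsDiag) := by
    ext e
    simp only [insd, Finset.mem_image, Finset.mem_filter, Finset.mem_univ, true_and,
      Finset.mem_sym2_iff, Subtype.exists, exists_and_right, exists_eq_right]
    constructor
    · rintro ⟨h, h'⟩
      exact ⟨h', h⟩
    · rintro ⟨h, h'⟩
      exact ⟨h', h⟩
  rw [← Finset.card_image_of_injective _ Subtype.val_injective, h1]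
  have h2 := Finset.card_filter_add_card_filter_not (s := T.sym2) (fun e => e.IsDiag)
  have h3 : T.sym2.filter (fun e => e.IsDiag) = T.image Sym2.diag := by
    ext e
    induction e using Sym2.ind with
    | _ a b =>
    simp only [Finset.mem_filter, Finset.mk_mem_sym2_iff, Sym2.mk_isDiag_iff, Finset.mem_image,
      Sym2.diag]
    constructor
    · rintro ⟨h, rfl⟩
      exact ⟨a, h.1, rfl⟩
    · rintro ⟨c, hc, he⟩
      rw [Sym2.eq_iff] at he
      rcases he with ⟨rfl, rfl⟩ | ⟨rfl, rfl⟩ <;> exact ⟨⟨hc, hc⟩, rfl⟩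
  rw [h3, Finset.card_image_of_injective _ Sym2.diag_injective, Finset.card_sym2] at h2
  have h4 : (T.card + 1).choose 2 = T.card.choose 2 + T.card := by
    rw [Nat.choose_succ_succ' T.card 1]
    simp
    ring
  omega

open Classical in
/-- the number of edges in `T` -/
noncomputable def edgesIn (T : Finset (Fin n)) (ω : Prs (Fin n) → Bool) : ℕ :=
  ((insd T).filter fun e => ω e = true).card

open Classical in
theorem sum_degIn (T : Finset (Fin n)) (ω : Prs (Fin n) → Bool) :
    ∑ v ∈ T, degIn (gr ω) T v = 2 * edgesIn T ω := by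
  set H : SimpleGraph (Fin n) :=
    { Adj := fun u v => (gr ω).Adj u v ∧ u ∈ T ∧ v ∈ T
      symm := ⟨fun u v h => ⟨h.1.symm, h.2.2, h.2.1⟩⟩
      loopless := ⟨fun u h => (gr ω).loopless.irrefl _ h.1⟩ } with hH
  have h1 := H.sum_degrees_eq_twice_card_edges
  have h2 : ∑ v, H.degree v = ∑ v ∈ T, degIn (gr ω) T v := by
    rw [← Finset.sum_subset (Finset.subset_univ T)]
    · refine Finset.sum_congr rfl fun v hv => ?_
      unfold degIn SimpleGraph.degree
      congr 1
      ext u
      rw [SimpleGraph.mem_neighborFinset, Finset.mem_filter]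
      constructor
      · intro h
        exact ⟨h.2.2, h.1⟩
      · intro h
        exact ⟨h.2, hv, h.1⟩
    · intro v _ hv
      unfold SimpleGraph.degree
      rw [Finset.card_eq_zero]
      ext u
      rw [SimpleGraph.mem_neighborFinset]
      constructor
      · intro h
        exact absurd h.2.1 hv
      · intro h
        simp at h
  have h3 : H.edgeFinset.card = edgesIn T ω := by
    unfold edgesIn
    symm
    refine Finset.card_bij (fun e _ => e.1) ?_ ?_ ?_
    · rintro ⟨e, he⟩ hmem
      induction e using Sym2.ind with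
      | _ a b =>
      rw [Finset.mem_filter] at hmem
      have hin := (Finset.mem_filter.1 hmem.1).2
      rw [SimpleGraph.mem_edgeFinset, SimpleGraph.mem_edgeSet]
      exact ⟨(gr_adj ω a b).2 ⟨he, hmem.2⟩, hin a (Sym2.mem_mk_left a b),
        hin b (Sym2.mem_mk_right a b)⟩
    · intro e _ e' _ h
      exact Subtype.ext h
    · intro e he
      induction e using Sym2.ind with
      | _ a b =>
      rw [SimpleGraph.mem_edgeFinset, SimpleGraph.mem_edgeSet] at he
      obtain ⟨h1, h2, h3⟩ := he
      obtain ⟨hd, hω⟩ := (gr_adj ω a b).1 h1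
      refine ⟨⟨s(a, b), hd⟩, ?_, rfl⟩
      rw [Finset.mem_filter]
      refine ⟨Finset.mem_filter.2 ⟨Finset.mem_univ _, ?_⟩, hω⟩
      intro v hv
      rcases Sym2.mem_iff.1 hv with rfl | rfl <;> assumption
  rw [← h2, h1, h3]

theorem mgf_edgesIn (h0 : 0 < p) (h1 : p < 1) (T : Finset (Fin n)) (s : ℝ) :
    EE p (fun ω => Real.exp (s * edgesIn T ω))
      ≤ Real.exp ((T.card.choose 2 : ℕ) * (p * (Real.exp s - 1))) := by
  classical
  have e1 : ∀ ω : Prs (Fin n) → Bool, Real.exp (s * edgesIn T ω)
      = ∏ e, if e ∈ insd T then (if ω e then Real.exp s else 1) else 1 := by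
    intro ω
    unfold edgesIn
    rw [Finset.prod_ite_mem, Finset.univ_inter, Finset.prod_ite, Finset.prod_const,
      Finset.prod_const_one, mul_one, ← Real.exp_nat_mul, mul_comm]
  rw [EE_congr e1, EE_prod (fun e b => if e ∈ insd T then (if b then Real.exp s else 1) else 1)]
  have e2 : ∀ e : Prs (Fin n), ∑ b : Bool, bw p b *
      (if e ∈ insd T then (if b then Real.exp s else 1) else 1)
      = if e ∈ insd T then 1 + p * (Real.exp s - 1) else 1 := by
    intro e
    split_ifs
    · simp [bw]
      ring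
    · simp [bw]
  simp only [e2]
  rw [Finset.prod_ite_mem, Finset.univ_inter, Finset.prod_const, card_insd, Real.exp_nat_mul]
  have hpos : 0 ≤ 1 + p * (Real.exp s - 1) := by
    have := Real.exp_pos s
    nlinarith
  refine pow_le_pow_left₀ hpos ?_ _
  have := Real.add_one_le_exp (p * (Real.exp s - 1))
  linarith

theorem prob_dense_set (h0 : 0 < p) (h1 : p < 1) {δ : ℝ} (hδ : 0 < δ) (hδ1 : δ ≤ 1)
    (T : Finset (Fin n)) (hT : T.Nonempty) :
    Prob p (fun G : SimpleGraph (Fin n) => ∀ v ∈ T, (p + δ) * T.card < degIn G T v)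
      ≤ Real.exp (-((T.card : ℝ) * (T.card - 1) * δ ^ 2 / 8)) := by
  classical
  set N : ℝ := ((T.card.choose 2 : ℕ) : ℝ) with hN
  have hN2 : N = (T.card : ℝ) * (T.card - 1) / 2 := by
    rw [hN, Nat.cast_choose_two]
  set s : ℝ := δ / 2 with hs
  have hs0 : 0 < s := by positivity
  have hmk : Prob p (fun G : SimpleGraph (Fin n) => ∀ v ∈ T, (p + δ) * T.card < degIn G T v)
      ≤ EG p (fun G : SimpleGraph (Fin n) => Real.exp (s * edgesIn T (cfg G)))
        / Real.exp (s * ((p + δ) * N)) := by
    refine Prob_le_div h0 h1 _ _ (fun G => (Real.exp_pos _).le) (Real.exp_pos _) ?_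
    intro G hG
    apply Real.exp_le_exp.2
    refine mul_le_mul_of_nonneg_left ?_ hs0.le
    have h2 := sum_degIn T (cfg G)
    rw [gr_cfg] at h2
    have h3 : (p + δ) * T.card * T.card ≤ 2 * (edgesIn T (cfg G) : ℝ) := by
      have h4 : ((∑ v ∈ T, degIn G T v : ℕ) : ℝ) = 2 * (edgesIn T (cfg G) : ℝ) := by
        exact_mod_cast h2
      rw [← h4]
      push_cast
      have : ∑ v ∈ T, (p + δ) * (T.card : ℝ) ≤ ∑ v ∈ T, (degIn G T v : ℝ) :=
        Finset.sum_le_sum fun v hv => (hG v hv).le
      rw [Finset.sum_const, nsmul_eq_mul] at this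
      linarith
    have h5 : (1 : ℝ) ≤ T.card := by
      exact_mod_cast Finset.card_pos.2 hT
    rw [hN2]
    have : 0 ≤ (p + δ) * T.card := by positivity
    nlinarith
  have hE : EG p (fun G : SimpleGraph (Fin n) => Real.exp (s * edgesIn T (cfg G)))
      = EE p (fun ω : Prs (Fin n) → Bool => Real.exp (s * edgesIn T ω)) := by
    rw [EG_eq]
    exact EE_congr fun ω => by rw [cfg_gr]
  rw [hE] at hmk
  refine hmk.trans ?_
  rw [div_le_iff₀ (Real.exp_pos _), ← Real.exp_add]
  refine (mgf_edgesIn h0 h1 T s).trans (Real.exp_le_exp.2 ?_)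
  rw [← hN]
  have hexp : Real.exp s - 1 ≤ s + s ^ 2 := by
    have h2 : |s| ≤ 1 := by
      rw [abs_of_pos hs0]
      linarith
    have h3 := Real.abs_exp_sub_one_sub_id_le h2
    have h4 := (abs_le.1 h3).2
    linarith
  have hN0 : 0 ≤ N := by positivity
  have h6 : p * (Real.exp s - 1) ≤ p * (s + s ^ 2) := mul_le_mul_of_nonneg_left hexp h0.le
  have h7 : p * (s + s ^ 2) - s * (p + δ) ≤ -(δ ^ 2 / 4) := by
    have : p * s ^ 2 ≤ 1 * s ^ 2 := mul_le_mul_of_nonneg_right h1.le (sq_nonneg s)
    rw [hs] at *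
    nlinarith
  have h8 : N * (p * (Real.exp s - 1)) ≤ N * (s * (p + δ) - δ ^ 2 / 4) :=
    mul_le_mul_of_nonneg_left (by linarith) hN0
  have e : -((T.card : ℝ) * (T.card - 1) * δ ^ 2 / 8) = -(N * (δ ^ 2 / 4)) := by
    rw [hN2]
    ring
  rw [e]
  linarith

theorem prob_not_sparse (h0 : 0 < p) (h1 : p < 1) {δ : ℝ} (hδ : 0 < δ) (hδ1 : δ ≤ 1)
    (hn : 0 < n) {t : ℝ} (ht : 1 ≤ t) (ht2 : 2 * Real.log n ≤ (t - 1) * δ ^ 2 / 8) :
    Prob p (fun G : SimpleGraph (Fin n) => ¬ SparseG (p + δ) t G) ≤ 2 / n := by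
  classical
  have hn0 : (0 : ℝ) < n := by exact_mod_cast hn
  have hn1 : (1 : ℝ) ≤ n := by exact_mod_cast hn
  set x : ℝ := (n : ℝ)⁻¹ ^ 2 with hx
  have hx0 : 0 ≤ x := by positivity
  calc Prob p (fun G : SimpleGraph (Fin n) => ¬ SparseG (p + δ) t G)
      ≤ Prob p (fun G : SimpleGraph (Fin n) =>
        ∃ T ∈ (Finset.univ : Finset (Fin n)).powerset.filter (fun T => t ≤ T.card),
          ∀ v ∈ T, (p + δ) * T.card < degIn G T v) := by
        refine Prob_mono h0 h1 fun G hG => ?_
        unfold SparseG at hG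
        push Not at hG
        obtain ⟨T, hT, hT'⟩ := hG
        exact ⟨T, Finset.mem_filter.2 ⟨Finset.mem_powerset.2 (Finset.subset_univ _), hT⟩, hT'⟩
    _ ≤ ∑ T ∈ (Finset.univ : Finset (Fin n)).powerset.filter (fun T => t ≤ T.card),
          Prob p (fun G : SimpleGraph (Fin n) => ∀ v ∈ T, (p + δ) * T.card < degIn G T v) :=
        Prob_exists h0 h1 _ _
    _ ≤ ∑ T ∈ (Finset.univ : Finset (Fin n)).powerset.filter (fun T => t ≤ T.card),
          x ^ T.card := by
        refine Finset.sum_le_sum fun T hT => ?_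
        have hT' := (Finset.mem_filter.1 hT).2
        have hne : T.Nonempty := by
          rw [← Finset.card_pos]
          exact_mod_cast lt_of_lt_of_le (by linarith : (0 : ℝ) < t) hT'
        refine (prob_dense_set h0 h1 hδ hδ1 T hne).trans ?_
        have e1 : x ^ T.card = Real.exp (-(T.card * (2 * Real.log n))) := by
          rw [hx, ← pow_mul, ← Real.exp_log (inv_pos.2 hn0), ← Real.exp_nat_mul, Real.log_inv]
          congr 1
          push_cast
          ring
        rw [e1]
        apply Real.exp_le_exp.2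
        have h2 : (t - 1) * δ ^ 2 / 8 ≤ ((T.card : ℝ) - 1) * δ ^ 2 / 8 := by
          have : (t - 1) * δ ^ 2 ≤ ((T.card : ℝ) - 1) * δ ^ 2 :=
            mul_le_mul_of_nonneg_right (by linarith) (sq_nonneg _)
          linarith
        have h3 : (T.card : ℝ) * (2 * Real.log n) ≤ T.card * (((T.card : ℝ) - 1) * δ ^ 2 / 8) :=
          mul_le_mul_of_nonneg_left (ht2.trans h2) (by positivity)
        linarith
    _ ≤ ∑ T ∈ (Finset.univ : Finset (Fin n)).powerset.erase ∅, x ^ T.card := by
        refine Finset.sum_le_sum_of_subset_of_nonneg ?_ fun _ _ _ => by positivity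
        intro T hT
        have hT' := Finset.mem_filter.1 hT
        refine Finset.mem_erase.2 ⟨?_, hT'.1⟩
        rintro rfl
        have := hT'.2
        simp at this
        linarith
    _ = (x + 1) ^ n - 1 := by
        have h2 := Finset.sum_pow_mul_eq_add_pow x 1 (Finset.univ : Finset (Fin n))
        simp only [one_pow, mul_one, Finset.card_univ, Fintype.card_fin] at h2
        rw [← h2, ← Finset.add_sum_erase _ _ (Finset.empty_mem_powerset _)]
        simp
    _ ≤ 2 / n := by
        have h2 : (x + 1) ^ n ≤ Real.exp (n * x) := by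
          rw [Real.exp_nat_mul]
          exact pow_le_pow_left₀ (by positivity) (Real.add_one_le_exp x) n
        have h3 : (n : ℝ) * x = (n : ℝ)⁻¹ := by
          rw [hx]
          field_simp
        rw [h3] at h2
        have h4 : |(n : ℝ)⁻¹| ≤ 1 := by
          rw [abs_of_pos (inv_pos.2 hn0)]
          exact inv_le_one_of_one_le₀ hn1
        have h5 := (abs_le.1 (Real.abs_exp_sub_one_sub_id_le h4)).2
        have h6 : ((n : ℝ)⁻¹) ^ 2 ≤ (n : ℝ)⁻¹ := by
          rw [sq]
          have := inv_le_one_of_one_le₀ hn1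
          have h' : 0 ≤ (n : ℝ)⁻¹ := by positivity
          nlinarith
        have h7 : 2 / (n : ℝ) = (n : ℝ)⁻¹ + (n : ℝ)⁻¹ := by ring
        rw [h7]
        linarith

end Pool.Agent.H72.Karp
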