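import Pool.Agent.H72.Karp.Good

/-!
The rounds of the procedure: invariants of the list of classes, and the probability that the
covered set stays small.
-/

set_option autoImplicit false
set_option linter.unusedSectionVars false

namespace Pool.Agent.H72.Karp

open Finset Pool.Agent.H85.Online

variable {n m g : ℕ} {p : ℝ} (A : SetAlg) (s c η : ℝ)

theorem covered_nil : covered ([] : List (Finset (Fin n))) = ∅ := rfl

theorem covered_cons (I : Finset (Fin n)) (L : List (Finset (Fin n))) :
    covered (I :: L) = I ∪ covered L := rfl

theorem mem_covered {L : List (Finset (Fin n))} {v : Fin n} :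
    v ∈ covered L ↔ ∃ I ∈ L, v ∈ I := by
  induction L with
  | nil => simp [covered_nil]
  | cons I L ih =>
    rw [covered_cons, Finset.mem_union, ih]
    simp

/-- The invariants of the list of classes: independent disjoint sets, few of them, covering not
too many vertices. -/
def Inv (s c η r : ℝ) (G : SimpleGraph (Fin n)) (L : List (Finset (Fin n))) : Prop :=
  (∀ I ∈ L, Indep G I) ∧ L.Pairwise Disjoint ∧ ((covered L).card : ℝ) ≤ c * n + r ∧
    (L.length : ℝ) * s ≤ n * (Real.log (1 - η) - Real.log (1 - η - (covered L).card / n))

theorem inv_nil {r : ℝ} (hc : 0 ≤ c) (hr : 0 ≤ r) (G : SimpleGraph (Fin n)) :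
    Inv s c η r G [] := by
  refine ⟨by simp, by simp, ?_, ?_⟩
  · rw [covered_nil]
    simp
    positivity
  · rw [covered_nil]
    simp

theorem inv_step (h : m * g ≤ n) {r : ℝ} (G : SimpleGraph (Fin n)) (hn : 0 < n) (_hs : 0 < s)
    (hr : ∀ I : Finset (Fin n), Indep G I → (I.card : ℝ) ≤ r)
    (hcr : c + r / n < 1 - η) (L : List (Finset (Fin n)))
    (hL : Inv s c η r G L) (σ : Sample m g (A.seeds m)) :
    Inv s c η r G (step A h s c η G L σ) := by
  classical
  unfold step
  split_ifs with hacc
  swap
  · exact hL
  obtain ⟨hC, hI, hsI, hfr⟩ := hacc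
  obtain ⟨i1, i2, i3, i4⟩ := hL
  set I := cand A h G σ with hIdef
  set C := covered L with hCdef
  set D := I \ C with hD
  have hn' : (0 : ℝ) < n := by exact_mod_cast hn
  have hdis : Disjoint D C := Finset.sdiff_disjoint
  have hcard : ((D ∪ C).card : ℝ) = D.card + C.card := by
    rw [Finset.card_union_of_disjoint hdis]
    push_cast
    ring
  have hDI : (D.card : ℝ) ≤ I.card := by
    exact_mod_cast Finset.card_le_card Finset.sdiff_subset
  have hDr : (D.card : ℝ) ≤ r := hDI.trans (hr I hI)
  have hx : (C.card : ℝ) / n < c := by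
    rw [div_lt_iff₀ hn']
    exact hC
  have hx' : ((C.card : ℝ) + D.card) / n < 1 - η := by
    have : ((C.card : ℝ) + D.card) / n ≤ c + r / n := by
      rw [add_div]
      have := div_le_div_of_nonneg_right hDr hn'.le
      linarith
    linarith
  refine ⟨?_, ?_, ?_, ?_⟩
  · intro J hJ
    rcases List.mem_cons.1 hJ with rfl | hJ
    · intro u hu v hv
      exact hI u (Finset.mem_sdiff.1 hu).1 v (Finset.mem_sdiff.1 hv).1
    · exact i1 J hJ
  · refine List.pairwise_cons.2 ⟨?_, i2⟩
    intro J hJ
    rw [Finset.disjoint_left]
    intro v hv hvJ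
    exact (Finset.mem_sdiff.1 hv).2 (mem_covered.2 ⟨J, hJ, hvJ⟩)
  · rw [covered_cons, ← hCdef, hcard]
    linarith
  · rw [covered_cons, ← hCdef, hcard, List.length_cons]
    push_cast
    set a := 1 - η - (C.card : ℝ) / n with ha
    set b := 1 - η - ((D.card : ℝ) + C.card) / n with hb
    have hb0 : 0 < b := by
      rw [hb, add_comm]
      linarith
    have hab : a - b = D.card / n := by
      rw [ha, hb, add_div]
      ring
    have ha0 : 0 < a := by
      have : 0 ≤ (D.card : ℝ) / n := by positivity
      linarith
    have hlog : (a - b) / a ≤ Real.log a - Real.log b := by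
      have h1 := Real.log_le_sub_one_of_pos (div_pos hb0 ha0)
      rw [Real.log_div hb0.ne' ha0.ne'] at h1
      have h2 : (a - b) / a = 1 - b / a := by
        field_simp
      linarith
    have hDs : a * s ≤ D.card := by
      have e : 1 - (C.card : ℝ) / n - η = a := by rw [ha]; ring
      rw [e] at hfr
      exact (mul_le_mul_of_nonneg_left hsI ha0.le).trans hfr
    have h3 : s ≤ n * (Real.log a - Real.log b) := by
      have h4 : s / n ≤ (a - b) / a := by
        rw [hab, le_div_iff₀ ha0, div_mul_eq_mul_div]
        refine div_le_div_of_nonneg_right ?_ hn'.le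
        linarith
      have h5 := h4.trans hlog
      rw [div_le_iff₀ hn'] at h5
      linarith
    have h6 : (L.length : ℝ) * s ≤ n * (Real.log (1 - η) - Real.log a) := i4
    have e1 : ((L.length : ℝ) + 1) * s = (L.length : ℝ) * s + s := by ring
    have e2 : (n : ℝ) * (Real.log (1 - η) - Real.log b)
        = n * (Real.log (1 - η) - Real.log a) + n * (Real.log a - Real.log b) := by ring
    rw [e1, e2]
    exact add_le_add h6 h3

theorem inv_foldl (h : m * g ≤ n) {r : ℝ} (G : SimpleGraph (Fin n)) (hn : 0 < n) (hs : 0 < s)
    (hr : ∀ I : Finset (Fin n), Indep G I → (I.card : ℝ) ≤ r)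
    (hcr : c + r / n < 1 - η) (xs : List (Sample m g (A.seeds m))) :
    ∀ L : List (Finset (Fin n)), Inv s c η r G L →
      Inv s c η r G (xs.foldl (step A h s c η G) L) := by
  induction xs with
  | nil => exact fun L hL => hL
  | cons x xs ih =>
    intro L hL
    rw [List.foldl_cons]
    exact ih _ (inv_step A s c η h G hn hs hr hcr L hL x)

/-- nothing happens when enough vertices are covered -/
theorem step_done (h : m * g ≤ n) (G : SimpleGraph (Fin n)) (L : List (Finset (Fin n)))
    (hL : c * n ≤ ((covered L).card : ℝ)) (σ : Sample m g (A.seeds m)) :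
    step A h s c η G L σ = L := by
  unfold step
  rw [if_neg]
  rintro ⟨h', _⟩
  linarith

theorem foldl_done (h : m * g ≤ n) (G : SimpleGraph (Fin n)) (L : List (Finset (Fin n)))
    (hL : c * n ≤ ((covered L).card : ℝ)) (xs : List (Sample m g (A.seeds m))) :
    xs.foldl (step A h s c η G) L = L := by
  induction xs with
  | nil => rfl
  | cons x xs ih => rw [List.foldl_cons, step_done A s c η h G L hL, ih]

open Classical in
/-- the fraction of the sequences of samples for which the covered set stays small -/
noncomputable def failP (h : m * g ≤ n) (G : SimpleGraph (Fin n)) (N : ℕ)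
    (L : List (Finset (Fin n))) : ℝ :=
  (∑ σ : Fin N → Sample m g (A.seeds m),
    if ((covered ((List.ofFn σ).foldl (step A h s c η G) L)).card : ℝ) < c * n then (1 : ℝ) else 0)
    / (Fintype.card (Sample m g (A.seeds m)) : ℝ) ^ N

theorem failP_done (h : m * g ≤ n) (G : SimpleGraph (Fin n)) (N : ℕ)
    (L : List (Finset (Fin n))) (hL : c * n ≤ ((covered L).card : ℝ)) :
    failP A s c η h G N L = 0 := by
  classical
  unfold failP
  rw [Finset.sum_eq_zero, zero_div]
  intro σ _
  rw [foldl_done A s c η h G L hL, if_neg]
  linarith

theorem failP_succ (h : m * g ≤ n) (G : SimpleGraph (Fin n)) (N : ℕ)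
    (L : List (Finset (Fin n))) :
    failP A s c η h G (N + 1) L = avS A (fun x => failP A s c η h G N (step A h s c η G L x)) := by
  classical
  unfold failP avS
  have e : ∑ σ : Fin (N + 1) → Sample m g (A.seeds m),
      (if ((covered ((List.ofFn σ).foldl (step A h s c η G) L)).card : ℝ) < c * n
        then (1 : ℝ) else 0)
      = ∑ x : Sample m g (A.seeds m), ∑ σ : Fin N → Sample m g (A.seeds m),
        (if ((covered ((List.ofFn σ).foldl (step A h s c η G) (step A h s c η G L x))).card : ℝ)
          < c * n then (1 : ℝ) else 0) := by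
    rw [← Fintype.sum_prod_type', ← (Fin.consEquiv (fun _ => Sample m g (A.seeds m))).sum_comp]
    refine Finset.sum_congr rfl fun x _ => ?_
    rw [List.ofFn_succ, List.foldl_cons]
    simp [Fin.consEquiv]
  rw [e, ← Finset.sum_div, pow_succ, div_div]

theorem failP_le (h : m * g ≤ n) (G : SimpleGraph (Fin n)) (hn : 0 < n) (hs : 0 < s)
    (hc1 : c + η < 1) (hη : 0 < η) (a : ℝ) (ha1 : a ≤ 1)
    (hS : 0 < Fintype.card (Sample m g (A.seeds m)))
    (hacc : ∀ C : Finset (Fin n), a ≤ avS A (fun σ => open Classical in if SucG A s h G σ ∧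
      (1 - (C.card : ℝ) / n - η) * (cand A h G σ).card ≤ ((cand A h G σ \ C).card : ℝ)
        then 1 else 0)) (N : ℕ) :
    ∀ L : List (Finset (Fin n)),
      failP A s c η h G N L ≤ 2 ^ (n - (covered L).card) * (1 - a / 2) ^ N := by
  classical
  have hn' : (0 : ℝ) < n := by exact_mod_cast hn
  have hS' : (0 : ℝ) < Fintype.card (Sample m g (A.seeds m)) := by exact_mod_cast hS
  induction N with
  | zero =>
    intro L
    unfold failP
    simp only [pow_zero, div_one, mul_one]
    refine (Finset.sum_le_sum (g := fun _ => (1 : ℝ)) fun σ _ => ?_).trans ?_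
    · split_ifs <;> norm_num
    · simp
      exact one_le_pow₀ (by norm_num)
  | succ N ih =>
    intro L
    by_cases hL : c * n ≤ ((covered L).card : ℝ)
    · rw [failP_done A s c η h G _ L hL]
      have : 0 ≤ 1 - a / 2 := by linarith
      positivity
    · push Not at hL
      rw [failP_succ]
      set C := covered L with hCdef
      have ha2 : 0 ≤ 1 - a / 2 := by linarith
      have hx : (C.card : ℝ) / n < c := by
        rw [div_lt_iff₀ hn']
        exact hL
      have hCn : C.card < n := by
        have : (C.card : ℝ) < n := by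
          have : c * n ≤ 1 * n := mul_le_mul_of_nonneg_right (by linarith) hn'.le
          linarith
        exact_mod_cast this
      have key : ∀ x : Sample m g (A.seeds m), failP A s c η h G N (step A h s c η G L x)
          ≤ 2 ^ (n - C.card) * (1 - a / 2) ^ N * (1 - (if SucG A s h G x ∧
            (1 - (C.card : ℝ) / n - η) * (cand A h G x).card ≤ ((cand A h G x \ C).card : ℝ)
              then 1 else 0) / 2) := by
        intro x
        refine (ih _).trans ?_
        by_cases hx2 : SucG A s h G x ∧
            (1 - (C.card : ℝ) / n - η) * (cand A h G x).card ≤ ((cand A h G x \ C).card : ℝ)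
        · have e1 : step A h s c η G L x = (cand A h G x \ C) :: L := by
            unfold step
            rw [if_pos ⟨hL, hx2.1.1, hx2.1.2, hx2.2⟩]
          rw [if_pos hx2, e1, covered_cons, ← hCdef]
          have hI : (0 : ℝ) < (cand A h G x).card := lt_of_lt_of_le hs hx2.1.2
          have hpos : (0 : ℝ) < ((cand A h G x \ C).card : ℝ) := by
            refine lt_of_lt_of_le ?_ hx2.2
            exact mul_pos (by linarith) hI
          have hpos' : 0 < (cand A h G x \ C).card := by exact_mod_cast hpos
          have hcard : (cand A h G x \ C ∪ C).card = (cand A h G x \ C).card + C.card :=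
            Finset.card_union_of_disjoint Finset.sdiff_disjoint
          have hle : n - (cand A h G x \ C ∪ C).card ≤ n - C.card - 1 := by omega
          have h2 : (2 : ℝ) ^ (n - (cand A h G x \ C ∪ C).card) ≤ 2 ^ (n - C.card) / 2 := by
            calc (2 : ℝ) ^ (n - (cand A h G x \ C ∪ C).card) ≤ 2 ^ (n - C.card - 1) :=
                  pow_le_pow_right₀ (by norm_num) hle
              _ = 2 ^ (n - C.card) / 2 := by
                  rw [eq_div_iff (by norm_num), ← pow_succ]
                  congr 1
                  omega
          have h3 : 0 ≤ (1 - a / 2) ^ N := pow_nonneg ha2 N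
          nlinarith
        · have e1 : step A h s c η G L x = L := by
            unfold step
            rw [if_neg]
            rintro ⟨_, h2, h3, h4⟩
            exact hx2 ⟨⟨h2, h3⟩, h4⟩
          rw [if_neg hx2, e1, ← hCdef]
          simp
      refine (avS_mono A key).trans ?_
      have e2 : avS A (fun x : Sample m g (A.seeds m) => 2 ^ (n - C.card) * (1 - a / 2) ^ N *
          (1 - (if SucG A s h G x ∧
            (1 - (C.card : ℝ) / n - η) * (cand A h G x).card ≤ ((cand A h G x \ C).card : ℝ)
              then (1 : ℝ) else 0) / 2))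
          = 2 ^ (n - C.card) * (1 - a / 2) ^ N * (1 - avS A (fun x => if SucG A s h G x ∧
            (1 - (C.card : ℝ) / n - η) * (cand A h G x).card ≤ ((cand A h G x \ C).card : ℝ)
              then (1 : ℝ) else 0) / 2) := by
        unfold avS
        rw [← Finset.mul_sum, Finset.sum_sub_distrib, ← Finset.sum_div]
        simp only [Finset.sum_const, Finset.card_univ, nsmul_eq_mul, mul_one]
        field_simp
      rw [e2, pow_succ, ← mul_assoc]
      refine mul_le_mul_of_nonneg_left ?_ (by positivity)
      have := hacc C
      linarith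

end Pool.Agent.H72.Karp
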