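import Pool.Agent.H72.Karp.Alpha
import Pool.Agent.H72.Karp.Process

/-!
The main theorem.
-/

set_option autoImplicit false
set_option linter.unusedSectionVars false

namespace Pool.Agent.H72.Karp

open Finset Pool.Agent.H85.Online Filter

variable {p : ℝ} {n : ℕ}

/-- The classes found in the rounds are independent and disjoint. -/
theorem classes_ok (A : SetAlg) {m g : ℕ} (h : m * g ≤ n) (s c η : ℝ) (G : SimpleGraph (Fin n))
    (xs : List (Sample m g (A.seeds m))) :
    ∀ L : List (Finset (Fin n)), ((∀ I ∈ L, Indep G I) ∧ L.Pairwise Disjoint) →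
      ((∀ I ∈ xs.foldl (step A h s c η G) L, Indep G I) ∧
        (xs.foldl (step A h s c η G) L).Pairwise Disjoint) := by
  classical
  induction xs with
  | nil => exact fun L hL => hL
  | cons x xs ih =>
    intro L hL
    rw [List.foldl_cons]
    apply ih
    unfold step
    split_ifs with hacc
    swap
    · exact hL
    refine ⟨?_, ?_⟩
    · intro J hJ
      rcases List.mem_cons.1 hJ with rfl | hJ
      · intro u hu v hv
        exact hacc.2.1 u (Finset.mem_sdiff.1 hu).1 v (Finset.mem_sdiff.1 hv).1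
      · exact hL.1 J hJ
    · refine List.pairwise_cons.2 ⟨?_, hL.2⟩
      intro J hJ
      rw [Finset.disjoint_left]
      intro v hv hvJ
      exact (Finset.mem_sdiff.1 hv).2 (mem_covered.2 ⟨J, hJ, hvJ⟩)

/-- the procedure always returns a colouring -/
theorem colouring_ok (A : SetAlg) (p ε γ η : ℝ) (K n : ℕ) (G : SimpleGraph (Fin n))
    (σ : Fin (n ^ K) → Sample (ord γ n) (grp γ n) (A.seeds (ord γ n))) :
    IsColouring G (colouring A p ε γ η K n G σ) := by
  classical
  unfold colouring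
  set L := (List.ofFn σ).foldl (step A (ord_mul_grp γ n)
    ((1 + ε) * Real.logb (1 / (1 - p)) (ord γ n)) (ε / (1 + ε)) η G) [] with hL
  obtain ⟨h1, h2⟩ := classes_ok A (ord_mul_grp γ n)
    ((1 + ε) * Real.logb (1 / (1 - p)) (ord γ n)) (ε / (1 + ε)) η G (List.ofFn σ) []
    (by simp)
  rw [← hL] at h1 h2
  obtain ⟨p1, p2, p3, p4⟩ := peel_spec G (Finset.univ \ covered L)
  refine ⟨?_, ?_, ?_⟩
  · intro I hI
    rcases List.mem_append.1 hI with hI | hI
    · exact p1 I hI
    · exact h1 I hI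
  · refine List.pairwise_append.2 ⟨p2, h2, ?_⟩
    intro I hI J hJ
    rw [Finset.disjoint_left]
    intro v hv hvJ
    exact (Finset.mem_sdiff.1 (p3 I hI hv)).2 (mem_covered.2 ⟨J, hJ, hvJ⟩)
  · intro v
    by_cases hv : v ∈ covered L
    · obtain ⟨I, hI, hvI⟩ := mem_covered.1 hv
      exact ⟨I, List.mem_append_right _ hI, hvI⟩
    · obtain ⟨I, hI, hvI⟩ := p4 v (Finset.mem_sdiff.2 ⟨Finset.mem_univ _, hv⟩)
      exact ⟨I, List.mem_append_left _ hI, hvI⟩

open Classical in
/-- lower bound for the probability over the graph and the samples -/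
theorem ProbR_ge (h0 : 0 < p) (h1 : p < 1) {Ω : Type} [Fintype Ω] [Nonempty Ω]
    (E : SimpleGraph (Fin n) → Ω → Prop) (B : SimpleGraph (Fin n) → Prop) (b : ℝ)
    (hb0 : 0 ≤ b)
    (hb : ∀ G, ¬ B G → (∑ ω : Ω, if E G ω then (0 : ℝ) else 1) / Fintype.card Ω ≤ b) :
    1 - Prob p B - b ≤ ProbR p E := by
  have hΩ : (0 : ℝ) < Fintype.card Ω := by exact_mod_cast Fintype.card_pos
  have e1 : ProbR p E
      = EG p (fun G => (∑ ω : Ω, if E G ω then (1 : ℝ) else 0) / Fintype.card Ω) := by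
    unfold ProbR
    rw [EG_div, EG_sum]
    simp only [Prob_eq]
  have e2 : EG p (fun _ : SimpleGraph (Fin n) => (1 : ℝ)) = 1 := by
    have := Prob_true (p := p) (n := n) h1
    rw [Prob_eq] at this
    simpa using this
  have e3 : 1 - Prob p B - b = EG p (fun G => 1 - (if B G then (1 : ℝ) else 0) - b) := by
    have h2 : EG p (fun G => 1 - (if B G then (1 : ℝ) else 0) - b)
        = (1 - b) * EG p (fun _ : SimpleGraph (Fin n) => (1 : ℝ))
          - EG p (fun G => if B G then (1 : ℝ) else 0) := by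
      unfold EG
      rw [Finset.mul_sum, ← Finset.sum_sub_distrib]
      exact Finset.sum_congr rfl fun G _ => by ring
    rw [h2, e2, Prob_eq]
    ring
  rw [e1, e3]
  refine EG_mono h0 h1 fun G => ?_
  have e4 : (∑ ω : Ω, if E G ω then (1 : ℝ) else 0) / Fintype.card Ω
      = 1 - (∑ ω : Ω, if E G ω then (0 : ℝ) else 1) / Fintype.card Ω := by
    rw [eq_sub_iff_add_eq, ← add_div, ← Finset.sum_add_distrib, div_eq_one_iff_eq hΩ.ne']
    rw [Finset.sum_congr rfl fun ω _ => show
      ((if E G ω then (1 : ℝ) else 0) + if E G ω then (0 : ℝ) else 1) = 1 by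
        split_ifs <;> norm_num]
    simp
  rw [e4]
  split_ifs with hB
  · have h2 : (∑ ω : Ω, if E G ω then (0 : ℝ) else 1) / Fintype.card Ω ≤ 1 := by
      rw [div_le_one hΩ]
      refine (Finset.sum_le_sum (g := fun _ => (1 : ℝ)) fun ω _ => ?_).trans ?_
      · split_ifs <;> norm_num
      · simp
    linarith
  · have := hb G hB
    linarith

theorem ProbR_le_one (h0 : 0 < p) (h1 : p < 1) {Ω : Type} [Fintype Ω]
    (E : SimpleGraph (Fin n) → Ω → Prop) : ProbR p E ≤ 1 := by
  unfold ProbR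
  refine div_le_one_of_le₀ ?_ (by positivity)
  refine (Finset.sum_le_sum fun ω _ => Prob_le_one h0 h1 _).trans ?_
  simp

/-- the function of `η` which bounds the ratio -/
noncomputable def ratioF (ε η : ℝ) : ℝ :=
  (2 + η) * (-Real.log (1 / (1 + ε) - 2 * η) / ((1 + ε) * (1 - 2 * η))
    + 1 / ((1 + ε) * (1 - η)) + η)

theorem exists_eta {ε : ℝ} (hε : 0 < ε) {δ : ℝ} (hδ : 0 < δ) :
    ∃ η : ℝ, 0 < η ∧ η ≤ 1 / 4 ∧ 4 * η * (1 + ε) < 1 ∧
      ratioF ε η ≤ 2 * ((1 + Real.log (1 + ε)) / (1 + ε)) + δ := by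
  have h1 : 0 < 1 / (1 + ε) := by positivity
  have hcont : ContinuousAt (ratioF ε) 0 := by
    unfold ratioF
    refine ContinuousAt.mul (by fun_prop) (ContinuousAt.add (ContinuousAt.add ?_ ?_) (by fun_prop))
    · refine ContinuousAt.div ?_ (by fun_prop) ?_
      · refine ContinuousAt.neg (ContinuousAt.log (by fun_prop) ?_)
        simp only [mul_zero, sub_zero]
        exact h1.ne'
      · simp only [mul_zero, sub_zero, mul_one]
        positivity
    · refine ContinuousAt.div (by fun_prop) (by fun_prop) ?_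
      simp only [sub_zero, mul_one]
      positivity
  have h0 : ratioF ε 0 = 2 * ((1 + Real.log (1 + ε)) / (1 + ε)) := by
    unfold ratioF
    simp only [mul_zero, sub_zero, mul_one, one_div, Real.log_inv]
    ring
  have hev : ∀ᶠ η in nhds (0 : ℝ), ratioF ε η < 2 * ((1 + Real.log (1 + ε)) / (1 + ε)) + δ := by
    refine hcont.eventually_lt_const ?_
    rw [h0]
    linarith
  have hev2 : ∀ᶠ η in nhds (0 : ℝ), η < min (1 / 4) (1 / (4 * (1 + ε))) := by
    refine eventually_lt_nhds ?_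
    rw [lt_min_iff]
    constructor
    · norm_num
    · positivity
  obtain ⟨η, ⟨hη1, hη2⟩, hη0⟩ := ((hev.and hev2).filter_mono nhdsWithin_le_nhds).and
    (self_mem_nhdsWithin : Set.Ioi (0 : ℝ) ∈ nhdsWithin 0 (Set.Ioi 0)) |>.exists
  rw [lt_min_iff] at hη2
  refine ⟨η, hη0, hη2.1.le, ?_, hη1.le⟩
  have := hη2.2
  rw [lt_div_iff₀ (by positivity)] at this
  linarith

/-- the sizes of the groups and the number of groups -/
theorem sizes {γ : ℝ} (hγ : 0 < γ) (hγ1 : γ ≤ 1 / 4) {κ : ℝ} (hκ : 0 < κ) :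
    ∀ᶠ n : ℕ in atTop, (n : ℝ) ^ γ ≤ 2 * grp γ n ∧ 0 < grp γ n ∧
      (n : ℝ) ≤ (1 + κ) * (ord γ n * grp γ n) ∧ (n : ℝ) ^ (1 - 2 * γ) ≤ ord γ n := by
  filter_upwards [eventually_ge_atTop 1, rpow_eventually hγ 1,
    rpow_eventually (show 0 < 1 - 2 * γ by linarith) (1 / κ), rpow_eventually hγ 2] with n e1 e2 e3 e4
  have hn0 : (0 : ℝ) < n := by exact_mod_cast e1
  have hn1 : (1 : ℝ) ≤ n := by exact_mod_cast e1
  set g := grp γ n with hg
  set m := ord γ n with hm
  have hgle : (g : ℝ) ≤ (n : ℝ) ^ γ := Nat.floor_le (by positivity)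
  have hglt : (n : ℝ) ^ γ < g + 1 := Nat.lt_floor_add_one _
  have hg1 : 1 ≤ g := by
    rw [hg]
    unfold grp
    exact Nat.le_floor (by exact_mod_cast e2)
  have hg1' : (1 : ℝ) ≤ g := by exact_mod_cast hg1
  have hmlt : (n : ℝ) < (m + 1) * g := by
    have := Nat.lt_div_mul_add (a := n) (b := g) (by omega)
    have h2 : n < (m + 1) * g := by
      rw [hm]
      unfold ord
      rw [← hg]
      linarith
    exact_mod_cast h2
  have hmge : (n : ℝ) ^ (1 - 2 * γ) ≤ m := by
    have h2 : (n : ℝ) ^ (1 - 2 * γ) * (2 * (n : ℝ) ^ γ) ≤ n := by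
      have h3 : 2 * (n : ℝ) ^ γ ≤ (n : ℝ) ^ γ * (n : ℝ) ^ γ :=
        mul_le_mul_of_nonneg_right e4 (by positivity)
      calc (n : ℝ) ^ (1 - 2 * γ) * (2 * (n : ℝ) ^ γ)
          ≤ (n : ℝ) ^ (1 - 2 * γ) * ((n : ℝ) ^ γ * (n : ℝ) ^ γ) :=
            mul_le_mul_of_nonneg_left h3 (by positivity)
        _ = n := by
            rw [← Real.rpow_add hn0, ← Real.rpow_add hn0]
            conv_rhs => rw [← Real.rpow_one (n : ℝ)]
            congr 1
            ring
    have h4 : (n : ℝ) ^ (1 - 2 * γ) * (2 * (n : ℝ) ^ γ) < (m + 1) * (n : ℝ) ^ γ := by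
      calc _ ≤ (n : ℝ) := h2
        _ < (m + 1) * g := hmlt
        _ ≤ (m + 1) * (n : ℝ) ^ γ := mul_le_mul_of_nonneg_left hgle (by positivity)
    have h5 : (n : ℝ) ^ (1 - 2 * γ) * 2 < m + 1 := by
      have h6 : (n : ℝ) ^ (1 - 2 * γ) * 2 * (n : ℝ) ^ γ < (m + 1) * (n : ℝ) ^ γ := by linarith
      exact lt_of_mul_lt_mul_right h6 (by positivity)
    have h7 : (1 : ℝ) ≤ (n : ℝ) ^ (1 - 2 * γ) := Real.one_le_rpow hn1 (by linarith)
    linarith
  refine ⟨by linarith, by omega, ?_, hmge⟩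
  have hκm : 1 ≤ κ * m := by
    have : 1 / κ ≤ m := e3.trans hmge
    rw [div_le_iff₀ hκ] at this
    linarith
  have : (g : ℝ) ≤ κ * m * g := by
    have h' := mul_le_mul_of_nonneg_right hκm (show (0 : ℝ) ≤ g by linarith)
    linarith
  have h2 : ((m : ℝ) + 1) * g = m * g + g := by ring
  have h3 : (1 + κ) * ((m : ℝ) * g) = m * g + κ * m * g := by ring
  rw [h3]
  linarith

open Classical in
/-- the final count of the classes, for a good graph and good samples -/
theorem count_le {ε η : ℝ} (hε : 0 < ε) (hη : 0 < η) (hη4 : η ≤ 1 / 4)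
    (hηε : 4 * η * (1 + ε) < 1) (hn : 0 < n) (G : SimpleGraph (Fin n)) {ell s : ℝ}
    (hell : 0 < ell) (hs : (1 + ε) * ((1 - 2 * η) * ell) ≤ s) (hrn : (2 + η) * ell ≤ η * n)
    (hind : ∀ I : Finset (Fin n), Indep G I → (I.card : ℝ) ≤ (2 + η) * ell)
    (hpeel : ∀ T : Finset (Fin n), ((peel G T).length : ℝ)
      ≤ T.card / ((1 - η) * ell) + η * n / ell)
    (L : List (Finset (Fin n))) (hL : Inv s (ε / (1 + ε)) η ((2 + η) * ell) G L)
    (hcov : ε / (1 + ε) * n ≤ ((covered L).card : ℝ)) :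
    ((peel G (Finset.univ \ covered L) ++ L).length : ℝ)
      ≤ ratioF ε η * G.chromaticNumber.toNat := by
  have hn0 : (0 : ℝ) < n := by exact_mod_cast hn
  have hε1 : 0 < 1 + ε := by linarith
  set C := covered L with hC
  set D : ℝ := 1 / (1 + ε) - 2 * η with hD
  have hD0 : 0 < D := by
    have : 4 * η < 1 / (1 + ε) := by
      rw [lt_div_iff₀ hε1]
      exact hηε
    rw [hD]
    linarith
  have hD1 : D < 1 := by
    have : 1 / (1 + ε) < 1 := by
      rw [div_lt_one hε1]
      linarith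
    rw [hD]
    linarith
  have hce : 1 - ε / (1 + ε) = 1 / (1 + ε) := by
    field_simp
    ring
  obtain ⟨_, _, i3, i4⟩ := hL
  have hs0 : 0 < s := lt_of_lt_of_le (mul_pos hε1 (mul_pos (by linarith) hell)) hs
  -- the classes found in the rounds
  have hx : (C.card : ℝ) / n ≤ ε / (1 + ε) + η := by
    rw [div_le_iff₀ hn0, add_mul]
    linarith
  have hDx : D ≤ 1 - η - (C.card : ℝ) / n := by
    rw [hD]
    linarith
  have hlog1 : Real.log (1 - η) ≤ 0 := Real.log_nonpos (by linarith) (by linarith)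
  have hlog2 : Real.log D ≤ Real.log (1 - η - (C.card : ℝ) / n) :=
    Real.log_le_log hD0 hDx
  have hlogD : 0 < -Real.log D := by
    have := Real.log_neg hD0 hD1
    linarith
  have hA1 : (L.length : ℝ) ≤ n * (-Real.log D) / ((1 + ε) * ((1 - 2 * η) * ell)) := by
    have h1 : (L.length : ℝ) * s ≤ n * (-Real.log D) := by
      refine i4.trans (mul_le_mul_of_nonneg_left ?_ hn0.le)
      linarith
    calc (L.length : ℝ) ≤ n * (-Real.log D) / s := by
          rw [le_div_iff₀ hs0]
          exact h1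
      _ ≤ _ := by
          refine div_le_div_of_nonneg_left (by positivity) ?_ hs
          exact mul_pos hε1 (mul_pos (by linarith) hell)
  -- the other classes
  have hT : ((Finset.univ \ C).card : ℝ) ≤ n / (1 + ε) := by
    have h1 : ((Finset.univ \ C).card : ℝ) = n - C.card := by
      rw [Finset.cast_card_sdiff (Finset.subset_univ _), Finset.card_univ, Fintype.card_fin]
    rw [h1]
    have h2 : (n : ℝ) / (1 + ε) = (1 - ε / (1 + ε)) * n := by
      rw [hce]
      ring
    rw [h2]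
    linarith
  have hA2 : ((peel G (Finset.univ \ C)).length : ℝ)
      ≤ n / (1 + ε) / ((1 - η) * ell) + η * n / ell := by
    refine (hpeel _).trans ?_
    have : ((Finset.univ \ C).card : ℝ) / ((1 - η) * ell) ≤ n / (1 + ε) / ((1 - η) * ell) :=
      div_le_div_of_nonneg_right hT (mul_pos (by linarith) hell).le
    linarith
  have hchi : (n : ℝ) / ell ≤ (2 + η) * G.chromaticNumber.toNat := by
    rw [div_le_iff₀ hell]
    have := le_chi_mul G hind
    linarith
  rw [List.length_append]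
  push_cast
  have h1η : (0 : ℝ) < 1 - 2 * η := by linarith
  have h2η : (0 : ℝ) < 1 - η := by linarith
  set Ψ : ℝ := -Real.log D / ((1 + ε) * (1 - 2 * η)) + 1 / ((1 + ε) * (1 - η)) + η with hΨ
  have hΨ0 : 0 ≤ Ψ := by
    rw [hΨ]
    positivity
  have hsum : ((peel G (Finset.univ \ C)).length : ℝ) + L.length ≤ Ψ * (n / ell) := by
    refine (add_le_add hA2 hA1).trans (le_of_eq ?_)
    rw [hΨ]
    field_simp
    ring
  calc ((peel G (Finset.univ \ C)).length : ℝ) + L.length ≤ Ψ * (n / ell) := hsum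
    _ ≤ Ψ * ((2 + η) * G.chromaticNumber.toNat) := mul_le_mul_of_nonneg_left hchi hΨ0
    _ = _ := by
        unfold ratioF
        rw [hΨ, hD]
        ring

end Pool.Agent.H72.Karp
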