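import Mathlib

/-!
Fourier analysis on a finite product of biased bits.
-/

set_option autoImplicit false
set_option linter.unusedSectionVars false

namespace Pool.Agent.H72.Karp

open Finset

/-- the weight of a bit -/
noncomputable def bw (p : ℝ) (b : Bool) : ℝ := if b then p else 1 - p

/-- the normalised biased bit -/
noncomputable def phi (p : ℝ) (b : Bool) : ℝ :=
  if b then Real.sqrt (1 - p) / Real.sqrt p else -(Real.sqrt p / Real.sqrt (1 - p))

/-- the parameter `κ` with `phi² = 1 + κ phi` -/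
noncomputable def kap (p : ℝ) : ℝ := (1 - 2 * p) / (Real.sqrt p * Real.sqrt (1 - p))

section one

variable {p : ℝ}

theorem bw_nonneg (h0 : 0 < p) (h1 : p < 1) (b : Bool) : 0 ≤ bw p b := by
  unfold bw
  split_ifs <;> linarith

theorem bw_pos (h0 : 0 < p) (h1 : p < 1) (b : Bool) : 0 < bw p b := by
  unfold bw
  split_ifs <;> linarith

theorem bw_sum : ∑ b : Bool, bw p b = 1 := by
  simp [bw]

theorem bw_phi (h0 : 0 < p) (h1 : p < 1) : ∑ b : Bool, bw p b * phi p b = 0 := by
  have hp : 0 < Real.sqrt p := Real.sqrt_pos.2 h0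
  have hq : 0 < Real.sqrt (1 - p) := Real.sqrt_pos.2 (by linarith)
  have e1 : Real.sqrt p ^ 2 = p := Real.sq_sqrt h0.le
  have e2 : Real.sqrt (1 - p) ^ 2 = 1 - p := Real.sq_sqrt (by linarith)
  simp only [bw, phi, Fintype.univ_bool, Finset.mem_singleton, Bool.true_eq_false,
    not_false_eq_true, Finset.sum_insert, if_true, Finset.sum_singleton, if_false,
    Bool.false_eq_true]
  rw [show p * (Real.sqrt (1 - p) / Real.sqrt p)
      = Real.sqrt p ^ 2 * (Real.sqrt (1 - p) / Real.sqrt p) by rw [e1],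
    show (1 - p) * -(Real.sqrt p / Real.sqrt (1 - p))
      = Real.sqrt (1 - p) ^ 2 * -(Real.sqrt p / Real.sqrt (1 - p)) by rw [e2]]
  field_simp
  ring

theorem phi_sq (h0 : 0 < p) (h1 : p < 1) (b : Bool) :
    phi p b ^ 2 = 1 + kap p * phi p b := by
  have hp : 0 < Real.sqrt p := Real.sqrt_pos.2 h0
  have hq : 0 < Real.sqrt (1 - p) := Real.sqrt_pos.2 (by linarith)
  have e1 : Real.sqrt p ^ 2 = p := Real.sq_sqrt h0.le
  have e2 : Real.sqrt (1 - p) ^ 2 = 1 - p := Real.sq_sqrt (by linarith)
  unfold phi kap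
  split_ifs
  · field_simp
    rw [e1, e2]
    ring
  · field_simp
    rw [e1, e2]
    ring

theorem bw_phi_sq (h0 : 0 < p) (h1 : p < 1) : ∑ b : Bool, bw p b * phi p b ^ 2 = 1 := by
  have h := bw_phi h0 h1
  have h2 := bw_sum (p := p)
  calc ∑ b : Bool, bw p b * phi p b ^ 2
      = ∑ b : Bool, (bw p b + kap p * (bw p b * phi p b)) := by
        refine Finset.sum_congr rfl fun b _ => ?_
        rw [phi_sq h0 h1]
        ring
    _ = 1 := by
        rw [Finset.sum_add_distrib, ← Finset.mul_sum, h, h2]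
        ring

/-- `1 + phi(x) phi(y)` is `1/bw(x)` if `x = y` and zero otherwise -/
theorem one_add_phi (h0 : 0 < p) (h1 : p < 1) (x y : Bool) :
    bw p x * (1 + phi p x * phi p y) = if x = y then 1 else 0 := by
  have hp : 0 < Real.sqrt p := Real.sqrt_pos.2 h0
  have hq : 0 < Real.sqrt (1 - p) := Real.sqrt_pos.2 (by linarith)
  have e1 : Real.sqrt p ^ 2 = p := Real.sq_sqrt h0.le
  have e2 : Real.sqrt (1 - p) ^ 2 = 1 - p := Real.sq_sqrt (by linarith)
  cases x <;> cases y <;>
    simp only [bw, phi, if_true, if_false, Bool.false_eq_true, Bool.true_eq_false]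
  · field_simp
    rw [e1, e2]
    ring
  · field_simp
    ring
  · field_simp
    ring
  · field_simp
    rw [e1, e2]
    ring

end one

variable {ι : Type*} [Fintype ι] [DecidableEq ι] {p : ℝ}

/-- the weight of a configuration -/
noncomputable def wt (p : ℝ) (ω : ι → Bool) : ℝ := ∏ e, bw p (ω e)

/-- expectation -/
noncomputable def EE (p : ℝ) (F : (ι → Bool) → ℝ) : ℝ := ∑ ω, wt p ω * F ω

/-- characters -/
noncomputable def chi (p : ℝ) (T : Finset ι) (ω : ι → Bool) : ℝ := ∏ e ∈ T, phi p (ω e)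

/-- Fourier coefficients -/
noncomputable def cf (p : ℝ) (h : (ι → Bool) → ℝ) (T : Finset ι) : ℝ :=
  EE p fun ω => h ω * chi p T ω

theorem wt_nonneg (h0 : 0 < p) (h1 : p < 1) (ω : ι → Bool) : 0 ≤ wt p ω :=
  Finset.prod_nonneg fun _ _ => bw_nonneg h0 h1 _

theorem wt_pos (h0 : 0 < p) (h1 : p < 1) (ω : ι → Bool) : 0 < wt p ω :=
  Finset.prod_pos fun _ _ => bw_pos h0 h1 _

theorem EE_prod (f : ι → Bool → ℝ) :
    EE p (fun ω => ∏ e, f e (ω e)) = ∏ e, ∑ b : Bool, bw p b * f e b := by
  unfold EE wt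
  rw [Finset.prod_univ_sum]
  simp only [Fintype.piFinset_univ, ← Finset.prod_mul_distrib]

theorem wt_sum : ∑ ω : ι → Bool, wt p ω = 1 := by
  have h := EE_prod (ι := ι) (p := p) (fun _ _ => 1)
  simp only [mul_one, bw_sum, Finset.prod_const_one, EE] at h
  exact h

theorem EE_const (c : ℝ) : EE p (fun _ : ι → Bool => c) = c := by
  unfold EE
  rw [← Finset.sum_mul, wt_sum, one_mul]

theorem EE_add (F G : (ι → Bool) → ℝ) :
    EE p (fun ω => F ω + G ω) = EE p F + EE p G := by
  unfold EE
  rw [← Finset.sum_add_distrib]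
  exact Finset.sum_congr rfl fun _ _ => by ring

theorem EE_sub (F G : (ι → Bool) → ℝ) :
    EE p (fun ω => F ω - G ω) = EE p F - EE p G := by
  unfold EE
  rw [← Finset.sum_sub_distrib]
  exact Finset.sum_congr rfl fun _ _ => by ring

theorem EE_mul_left (c : ℝ) (F : (ι → Bool) → ℝ) :
    EE p (fun ω => c * F ω) = c * EE p F := by
  unfold EE
  rw [Finset.mul_sum]
  exact Finset.sum_congr rfl fun _ _ => by ring

theorem EE_mul_right (c : ℝ) (F : (ι → Bool) → ℝ) :
    EE p (fun ω => F ω * c) = EE p F * c := by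
  unfold EE
  rw [Finset.sum_mul]
  exact Finset.sum_congr rfl fun _ _ => by ring

theorem EE_sum {α : Type*} (s : Finset α) (F : α → (ι → Bool) → ℝ) :
    EE p (fun ω => ∑ a ∈ s, F a ω) = ∑ a ∈ s, EE p (F a) := by
  unfold EE
  rw [Finset.sum_comm]
  exact Finset.sum_congr rfl fun _ _ => by rw [Finset.mul_sum]

theorem EE_mono (h0 : 0 < p) (h1 : p < 1) {F G : (ι → Bool) → ℝ} (h : ∀ ω, F ω ≤ G ω) :
    EE p F ≤ EE p G :=
  Finset.sum_le_sum fun ω _ => mul_le_mul_of_nonneg_left (h ω) (wt_nonneg h0 h1 ω)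

theorem EE_nonneg (h0 : 0 < p) (h1 : p < 1) {F : (ι → Bool) → ℝ} (h : ∀ ω, 0 ≤ F ω) :
    0 ≤ EE p F :=
  Finset.sum_nonneg fun ω _ => mul_nonneg (wt_nonneg h0 h1 ω) (h ω)

theorem EE_congr {F G : (ι → Bool) → ℝ} (h : ∀ ω, F ω = G ω) : EE p F = EE p G := by
  rw [show F = G from funext h]

/-- Cauchy-Schwarz -/
theorem EE_cs (h0 : 0 < p) (h1 : p < 1) (F G : (ι → Bool) → ℝ) :
    EE p (fun ω => F ω * G ω) ^ 2 ≤ EE p (fun ω => F ω ^ 2) * EE p (fun ω => G ω ^ 2) := by
  unfold EE
  have h := Finset.sum_mul_sq_le_sq_mul_sq (Finset.univ : Finset (ι → Bool))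
    (fun ω => Real.sqrt (wt p ω) * F ω) (fun ω => Real.sqrt (wt p ω) * G ω)
  have e : ∀ ω : ι → Bool, Real.sqrt (wt p ω) ^ 2 = wt p ω :=
    fun ω => Real.sq_sqrt (wt_nonneg h0 h1 ω)
  calc (∑ ω, wt p ω * (F ω * G ω)) ^ 2
      = (∑ ω, Real.sqrt (wt p ω) * F ω * (Real.sqrt (wt p ω) * G ω)) ^ 2 := by
        congr 1
        refine Finset.sum_congr rfl fun ω _ => ?_
        rw [← e ω]
        rw [Real.sqrt_sq (Real.sqrt_nonneg _)]
        ring
    _ ≤ _ := h
    _ = _ := by
        congr 1 <;> refine Finset.sum_congr rfl fun ω _ => ?_ <;> rw [mul_pow, e]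

theorem wt_update (ω : ι → Bool) (e : ι) (b : Bool) :
    wt p (Function.update ω e b) * bw p (ω e) = wt p ω * bw p b := by
  unfold wt
  rw [← Finset.mul_prod_erase Finset.univ (fun i => bw p (Function.update ω e b i))
      (Finset.mem_univ e),
    ← Finset.mul_prod_erase Finset.univ (fun i => bw p (ω i)) (Finset.mem_univ e)]
  rw [Function.update_self]
  have : ∏ x ∈ Finset.univ.erase e, bw p (Function.update ω e b x)
      = ∏ x ∈ Finset.univ.erase e, bw p (ω x) := by
    refine Finset.prod_congr rfl fun x hx => ?_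
    rw [Function.update_of_ne (Finset.ne_of_mem_erase hx)]
  rw [this]
  ring

/-- resampling one coordinate does not change the expectation -/
theorem EE_resample (e : ι) (F : (ι → Bool) → ℝ) :
    EE p (fun ω => ∑ b : Bool, bw p b * F (Function.update ω e b)) = EE p F := by
  have h : ∑ x : (ι → Bool) × Bool, wt p x.1 * bw p x.2 * F (Function.update x.1 e x.2)
      = ∑ x : (ι → Bool) × Bool, wt p x.1 * bw p x.2 * F x.1 := by
    refine Fintype.sum_equiv
      (Function.Involutive.toPerm
        (fun x : (ι → Bool) × Bool => (Function.update x.1 e x.2, x.1 e)) ?_) _ _ ?_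
    · intro x
      simp
    · intro x
      change wt p x.1 * bw p x.2 * F (Function.update x.1 e x.2)
        = wt p (Function.update x.1 e x.2) * bw p (x.1 e) * F (Function.update x.1 e x.2)
      rw [wt_update]
  rw [Fintype.sum_prod_type, Fintype.sum_prod_type] at h
  unfold EE
  calc ∑ ω, wt p ω * ∑ b : Bool, bw p b * F (Function.update ω e b)
      = ∑ ω, ∑ b : Bool, wt p ω * bw p b * F (Function.update ω e b) := by
        refine Finset.sum_congr rfl fun ω _ => ?_
        rw [Finset.mul_sum]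
        exact Finset.sum_congr rfl fun b _ => by ring
    _ = _ := h
    _ = ∑ ω, wt p ω * F ω := by
        refine Finset.sum_congr rfl fun ω _ => ?_
        calc ∑ b : Bool, wt p ω * bw p b * F ω = (∑ b : Bool, bw p b) * (wt p ω * F ω) := by
              rw [Finset.sum_mul]
              exact Finset.sum_congr rfl fun b _ => by ring
          _ = wt p ω * F ω := by rw [bw_sum, one_mul]

/-- independence of one coordinate from the others -/
theorem EE_indep (e : ι) (F : (ι → Bool) → ℝ) (hF : ∀ ω b, F (Function.update ω e b) = F ω)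
    (ψ : Bool → ℝ) :
    EE p (fun ω => F ω * ψ (ω e)) = EE p F * ∑ b : Bool, bw p b * ψ b := by
  rw [← EE_resample e]
  rw [← EE_mul_right]
  refine EE_congr fun ω => ?_
  simp only [hF, Function.update_self]
  rw [Finset.mul_sum]
  exact Finset.sum_congr rfl fun b _ => by ring

theorem chi_update {T : Finset ι} {e : ι} (he : e ∉ T) (ω : ι → Bool) (b : Bool) :
    chi p T (Function.update ω e b) = chi p T ω := by
  unfold chi
  refine Finset.prod_congr rfl fun x hx => ?_
  rw [Function.update_of_ne]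
  rintro rfl
  exact he hx

theorem chi_insert {T : Finset ι} {e : ι} (he : e ∉ T) (ω : ι → Bool) :
    chi p (insert e T) ω = phi p (ω e) * chi p T ω := by
  unfold chi
  rw [Finset.prod_insert he]

theorem chi_empty (ω : ι → Bool) : chi p ∅ ω = 1 := by
  simp [chi]

/-- the characters as products over all coordinates -/
theorem chi_eq_prod (T : Finset ι) (ω : ι → Bool) :
    chi p T ω = ∏ e, if e ∈ T then phi p (ω e) else 1 := by
  unfold chi
  rw [Finset.prod_ite_mem, Finset.univ_inter]

theorem EE_chi_mul (h0 : 0 < p) (h1 : p < 1) (A B : Finset ι) :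
    EE p (fun ω => chi p A ω * chi p B ω) = if A = B then 1 else 0 := by
  have h : EE p (fun ω => chi p A ω * chi p B ω)
      = ∏ e, ∑ b : Bool, bw p b * ((if e ∈ A then phi p b else 1) *
          (if e ∈ B then phi p b else 1)) := by
    rw [← EE_prod]
    refine EE_congr fun ω => ?_
    rw [chi_eq_prod, chi_eq_prod, ← Finset.prod_mul_distrib]
  rw [h]
  split_ifs with hAB
  · subst hAB
    refine Finset.prod_eq_one fun e _ => ?_
    by_cases he : e ∈ A
    · simp only [he, if_true]
      rw [← bw_phi_sq h0 h1]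
      exact Finset.sum_congr rfl fun b _ => by ring
    · simp only [he, if_false, mul_one]
      exact bw_sum
  · have : ∃ e, ¬ (e ∈ A ↔ e ∈ B) := by
      by_contra hcon
      push Not at hcon
      exact hAB (Finset.ext hcon)
    obtain ⟨e, he⟩ := this
    refine Finset.prod_eq_zero (Finset.mem_univ e) ?_
    have hb := bw_phi h0 h1
    by_cases h1' : e ∈ A
    · have h2' : e ∉ B := by tauto
      simp only [h1', h2', if_true, if_false, mul_one]
      exact hb
    · have h2' : e ∈ B := by tauto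
      simp only [h1', h2', if_true, if_false, one_mul]
      exact hb

theorem EE_chi (h0 : 0 < p) (h1 : p < 1) (A : Finset ι) :
    EE p (chi p A) = if A = ∅ then 1 else 0 := by
  rw [← EE_chi_mul h0 h1 A ∅]
  refine EE_congr fun ω => ?_
  rw [chi_empty, mul_one]

/-- a product of characters has no component outside the union -/
theorem EE_chi_mul_mul (h0 : 0 < p) (h1 : p < 1) (A B U : Finset ι) (hU : ¬ U ⊆ A ∪ B) :
    EE p (fun ω => chi p A ω * chi p B ω * chi p U ω) = 0 := by
  obtain ⟨e, heU, he⟩ := Finset.not_subset.1 hU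
  rw [Finset.mem_union, not_or] at he
  have h : ∀ ω : ι → Bool, chi p A ω * chi p B ω * chi p U ω
      = (chi p A ω * chi p B ω * chi p (U.erase e) ω) * phi p (ω e) := by
    intro ω
    conv_lhs => rw [← Finset.insert_erase heU]
    rw [chi_insert (Finset.notMem_erase e U)]
    ring
  rw [EE_congr h, EE_indep e, bw_phi h0 h1, mul_zero]
  intro ω b
  rw [chi_update he.1, chi_update he.2, chi_update (Finset.notMem_erase e U)]

/-- Fourier inversion -/
theorem inversion (h0 : 0 < p) (h1 : p < 1) (h : (ι → Bool) → ℝ) (ω : ι → Bool) :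
    h ω = ∑ T : Finset ι, cf p h T * chi p T ω := by
  have key : ∀ ω' : ι → Bool, wt p ω' * ∑ T : Finset ι, chi p T ω' * chi p T ω
      = if ω' = ω then 1 else 0 := by
    intro ω'
    have h2 : ∑ T : Finset ι, chi p T ω' * chi p T ω = ∏ e, (1 + phi p (ω' e) * phi p (ω e)) := by
      have h3 := Finset.prod_add (fun e => phi p (ω' e) * phi p (ω e)) (fun _ => (1 : ℝ))
        (Finset.univ : Finset ι)
      simp only [Finset.powerset_univ, Finset.prod_const_one, mul_one] at h3
      rw [show (∏ e, (1 + phi p (ω' e) * phi p (ω e)))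
        = ∏ e, (phi p (ω' e) * phi p (ω e) + 1) from
          Finset.prod_congr rfl fun _ _ => add_comm _ _, h3]
      refine Finset.sum_congr rfl fun T _ => ?_
      rw [Finset.prod_mul_distrib]
      rfl
    rw [h2]
    unfold wt
    rw [← Finset.prod_mul_distrib]
    split_ifs with hω
    · subst hω
      refine Finset.prod_eq_one fun e _ => ?_
      rw [one_add_phi h0 h1, if_pos rfl]
    · obtain ⟨e, he⟩ := Function.ne_iff.1 hω
      refine Finset.prod_eq_zero (Finset.mem_univ e) ?_
      rw [one_add_phi h0 h1, if_neg he]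
  symm
  calc ∑ T : Finset ι, cf p h T * chi p T ω
      = ∑ T : Finset ι, ∑ ω', wt p ω' * (h ω' * chi p T ω') * chi p T ω := by
        refine Finset.sum_congr rfl fun T _ => ?_
        unfold cf EE
        rw [Finset.sum_mul]
    _ = ∑ ω', h ω' * (wt p ω' * ∑ T : Finset ι, chi p T ω' * chi p T ω) := by
        rw [Finset.sum_comm]
        refine Finset.sum_congr rfl fun ω' _ => ?_
        rw [Finset.mul_sum, Finset.mul_sum]
        exact Finset.sum_congr rfl fun T _ => by ring
    _ = h ω := by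
        simp only [key, mul_ite, mul_one, mul_zero, Finset.sum_ite_eq', Finset.mem_univ, if_true]

/-- Parseval for a combination of characters -/
theorem parseval_comb (h0 : 0 < p) (h1 : p < 1) (𝓛 : Finset (Finset ι)) (c : Finset ι → ℝ) :
    EE p (fun ω => (∑ T ∈ 𝓛, c T * chi p T ω) ^ 2) = ∑ T ∈ 𝓛, c T ^ 2 := by
  have h : ∀ ω : ι → Bool, (∑ T ∈ 𝓛, c T * chi p T ω) ^ 2
      = ∑ T ∈ 𝓛, ∑ T' ∈ 𝓛, (c T * c T') * (chi p T ω * chi p T' ω) := by
    intro ω
    rw [sq, Finset.sum_mul_sum]
    exact Finset.sum_congr rfl fun T _ => Finset.sum_congr rfl fun T' _ => by ring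
  rw [EE_congr h, EE_sum]
  refine Finset.sum_congr rfl fun T hT => ?_
  rw [EE_sum]
  simp only [EE_mul_left, EE_chi_mul h0 h1]
  rw [Finset.sum_eq_single T]
  · simp
    ring
  · intro b _ hb
    rw [if_neg (Ne.symm hb), mul_zero]
  · intro hT'
    exact absurd hT hT'

theorem parseval (h0 : 0 < p) (h1 : p < 1) (h : (ι → Bool) → ℝ) :
    ∑ T : Finset ι, cf p h T ^ 2 = EE p (fun ω => h ω ^ 2) := by
  rw [← parseval_comb h0 h1]
  exact EE_congr fun ω => by rw [← inversion h0 h1 h ω]

theorem cf_empty (h : (ι → Bool) → ℝ) : cf p h ∅ = EE p h := by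
  unfold cf
  exact EE_congr fun ω => by rw [chi_empty, mul_one]

end Pool.Agent.H72.Karp
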