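import Pool.Agent.H72.Karp.Fourier
import Pool.Agent.H72.Karp.Defs

/-!
The random graph as a product of biased bits, and the second moment of averages over induced
subgraphs.
-/

set_option autoImplicit false
set_option linter.unusedSectionVars false

namespace Pool.Agent.H72.Karp

open Finset Pool.Agent.H85.Online

/-- pairs of distinct vertices -/
abbrev Prs (V : Type) : Type := {e : Sym2 V // ¬ e.IsDiag}

/-- the graph with the given pairs -/
def gr {V : Type} (ω : Prs V → Bool) : SimpleGraph V :=
  SimpleGraph.fromEdgeSet {e | ∃ h, ω ⟨e, h⟩ = true}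

open Classical in
/-- the configuration of a graph -/
noncomputable def cfg {V : Type} (G : SimpleGraph V) (e : Prs V) : Bool := decide (e.1 ∈ G.edgeSet)

theorem gr_adj {V : Type} (ω : Prs V → Bool) (a b : V) :
    (gr ω).Adj a b ↔ ∃ h, ω ⟨s(a, b), h⟩ = true := by
  unfold gr
  rw [SimpleGraph.fromEdgeSet_adj]
  simp only [Set.mem_ofPred_eq]
  constructor
  · exact fun h => h.1
  · rintro ⟨h, h'⟩
    refine ⟨⟨h, h'⟩, ?_⟩
    rwa [Sym2.mk_isDiag_iff] at h

theorem gr_cfg {V : Type} (G : SimpleGraph V) : gr (cfg G) = G := by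
  ext a b
  rw [gr_adj]
  simp only [cfg, SimpleGraph.mem_edgeSet, decide_eq_true_eq, exists_prop, Sym2.mk_isDiag_iff]
  exact ⟨fun h => h.2, fun h => ⟨h.ne, h⟩⟩

theorem cfg_gr {V : Type} (ω : Prs V → Bool) : cfg (gr ω) = ω := by
  funext ⟨e, he⟩
  induction e using Sym2.ind with
  | _ a b =>
  have h : (cfg (gr ω) ⟨s(a, b), he⟩ = true) ↔ (ω ⟨s(a, b), he⟩ = true) := by
    simp only [cfg, SimpleGraph.mem_edgeSet, decide_eq_true_eq, gr_adj]
    exact ⟨fun ⟨_, h⟩ => h, fun h => ⟨he, h⟩⟩
  exact Bool.eq_iff_iff.2 h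

/-- graphs and configurations -/
noncomputable def grEquiv (V : Type) : (Prs V → Bool) ≃ SimpleGraph V :=
  ⟨gr, cfg, cfg_gr, gr_cfg⟩

open Classical in
/-- the weight of a graph is the weight of its configuration -/
theorem weight_gr {p : ℝ} {n : ℕ} (ω : Prs (Fin n) → Bool) : weight p (gr ω) = wt p ω := by
  classical
  unfold weight wt
  have hc : (gr ω).edgeSet.ncard = (Finset.univ.filter fun e : Prs (Fin n) => ω e = true).card := by
    have : (gr ω).edgeSet
        = (Subtype.val : Prs (Fin n) → Sym2 (Fin n)) '' {e | ω e = true} := by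
      ext e
      induction e using Sym2.ind with
      | _ a b =>
      rw [SimpleGraph.mem_edgeSet, gr_adj]
      simp only [Set.mem_image, Set.mem_ofPred_eq, Subtype.exists, exists_and_right,
        exists_eq_right]
    rw [this, Set.ncard_image_of_injective _ Subtype.val_injective, Set.ncard_eq_toFinset_card']
    congr 1
    ext e
    simp
  have hn : n.choose 2 = (Finset.univ : Finset (Prs (Fin n))).card := by
    rw [Finset.card_univ, Sym2.card_subtype_not_diag, Fintype.card_fin]
  rw [hc, hn]
  have h2 : ∏ e : Prs (Fin n), bw p (ω e)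
      = (∏ e ∈ Finset.univ.filter (fun e => ω e = true), p)
        * ∏ e ∈ Finset.univ.filter (fun e => ¬ ω e = true), (1 - p) := by
    unfold bw
    rw [← Finset.prod_filter_mul_prod_filter_not Finset.univ (fun e => ω e = true)]
    congr 1
    · refine Finset.prod_congr rfl fun e he => ?_
      rw [if_pos (Finset.mem_filter.1 he).2]
    · refine Finset.prod_congr rfl fun e he => ?_
      rw [if_neg (Finset.mem_filter.1 he).2]
  rw [h2, Finset.prod_const, Finset.prod_const]
  congr 2
  have := Finset.card_filter_add_card_filter_not (s := (Finset.univ : Finset (Prs (Fin n))))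
    (fun e => ω e = true)
  omega

/-- expectation over `G(n,p)` -/
noncomputable def EG (p : ℝ) {n : ℕ} (F : SimpleGraph (Fin n) → ℝ) : ℝ := ∑ G, weight p G * F G

theorem EG_eq {p : ℝ} {n : ℕ} (F : SimpleGraph (Fin n) → ℝ) :
    EG p F = EE p (fun ω : Prs (Fin n) → Bool => F (gr ω)) := by
  unfold EG EE
  symm
  refine Fintype.sum_equiv (grEquiv (Fin n)) _ _ fun ω => ?_
  rw [← weight_gr]
  rfl

open Classical in
theorem Prob_eq {p : ℝ} {n : ℕ} (A : SimpleGraph (Fin n) → Prop) :
    Prob p A = EG p (fun G => if A G then 1 else 0) := by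
  unfold Prob EG
  refine Finset.sum_congr rfl fun G _ => ?_
  by_cases h : A G <;> simp [h]

/-- the map on pairs -/
def pmap {V W : Type} (s : V ↪ W) (e : Prs V) : Prs W :=
  ⟨e.1.map s, fun h => e.2 ((Sym2.isDiag_map s.injective).1 h)⟩

theorem pmap_injective {V W : Type} (s : V ↪ W) : Function.Injective (pmap s) := by
  intro e e' h
  exact Subtype.ext (Sym2.map.injective s.injective (congrArg Subtype.val h))

theorem gr_comp {V W : Type} (s : V ↪ W) (ω : Prs W → Bool) :
    gr (fun e => ω (pmap s e)) = (gr ω).comap s := by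
  ext a b
  rw [SimpleGraph.comap_adj, gr_adj, gr_adj]
  constructor
  · rintro ⟨h, h'⟩
    exact ⟨(pmap s ⟨s(a, b), h⟩).2, h'⟩
  · rintro ⟨h, h'⟩
    have hab : ¬ (s(a, b)).IsDiag := by
      rw [Sym2.mk_isDiag_iff] at h ⊢
      exact fun e => h (congrArg s e)
    exact ⟨hab, h'⟩

section pull

variable {ι κ : Type} [Fintype ι] [DecidableEq ι] [Fintype κ] [DecidableEq κ] {p : ℝ}

theorem chi_comp {τ : ι → κ} (hτ : Function.Injective τ) (T : Finset ι) (ω : κ → Bool) :
    chi p T (fun e => ω (τ e)) = chi p (T.image τ) ω := by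
  unfold chi
  rw [Finset.prod_image hτ.injOn]

/-- the marginal on an injective image -/
theorem EE_comp (h0 : 0 < p) (h1 : p < 1) {τ : ι → κ} (hτ : Function.Injective τ)
    (h : (ι → Bool) → ℝ) : EE p (fun ω : κ → Bool => h (fun e => ω (τ e))) = EE p h := by
  have e1 : ∀ ω : κ → Bool, h (fun e => ω (τ e))
      = ∑ T : Finset ι, cf p h T * chi p (T.image τ) ω := by
    intro ω
    rw [inversion h0 h1 h]
    exact Finset.sum_congr rfl fun T _ => by rw [chi_comp hτ]
  rw [EE_congr e1, EE_sum, ← cf_empty]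
  rw [Finset.sum_eq_single ∅]
  · rw [EE_mul_left, Finset.image_empty, EE_chi h0 h1, if_pos rfl, mul_one]
  · intro T _ hT
    rw [EE_mul_left, EE_chi h0 h1, if_neg, mul_zero]
    rwa [Finset.image_eq_empty]
  · intro h
    exact absurd (Finset.mem_univ _) h

open Classical in
/-- The second moment of a weighted average of copies of `h`. -/
theorem second_moment (h0 : 0 < p) (h1 : p < 1) {Φ : Type} [Fintype Φ] (τ : Φ → ι → κ)
    (hτ : ∀ f f' e e', τ f e = τ f' e' → e = e') (c : Φ → ℝ) (h : (ι → Bool) → ℝ) :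
    EE p (fun ω : κ → Bool => (∑ f, c f * h (fun e => ω (τ f e)) - (∑ f, c f) * EE p h) ^ 2)
      = ∑ T ∈ Finset.univ.erase ∅, cf p h T ^ 2 *
          ∑ f, ∑ f', c f * c f' * (if ∀ e ∈ T, τ f e = τ f' e then 1 else 0) := by
  have hinj : ∀ f, Function.Injective (τ f) := fun f e e' he => hτ f f e e' he
  have e1 : ∀ ω : κ → Bool, (∑ f, c f * h (fun e => ω (τ f e)) - (∑ f, c f) * EE p h)
      = ∑ T ∈ Finset.univ.erase ∅, ∑ f, (cf p h T * c f) * chi p (T.image (τ f)) ω := by
    intro ω
    have e2 : ∀ f, h (fun e => ω (τ f e)) - EE p h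
        = ∑ T ∈ Finset.univ.erase ∅, cf p h T * chi p (T.image (τ f)) ω := by
      intro f
      rw [inversion h0 h1 h, ← Finset.add_sum_erase _ _ (Finset.mem_univ (∅ : Finset ι)), cf_empty,
        chi_empty, mul_one, add_sub_cancel_left]
      exact Finset.sum_congr rfl fun T _ => by rw [chi_comp (hinj f)]
    calc (∑ f, c f * h (fun e => ω (τ f e)) - (∑ f, c f) * EE p h)
        = ∑ f, c f * (h (fun e => ω (τ f e)) - EE p h) := by
          rw [Finset.sum_mul, ← Finset.sum_sub_distrib]
          exact Finset.sum_congr rfl fun f _ => by ring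
      _ = ∑ f, ∑ T ∈ Finset.univ.erase ∅, (cf p h T * c f) * chi p (T.image (τ f)) ω := by
          refine Finset.sum_congr rfl fun f _ => ?_
          rw [e2, Finset.mul_sum]
          exact Finset.sum_congr rfl fun T _ => by ring
      _ = _ := Finset.sum_comm
  have e3 : ∀ ω : κ → Bool, (∑ f, c f * h (fun e => ω (τ f e)) - (∑ f, c f) * EE p h) ^ 2
      = ∑ T ∈ Finset.univ.erase ∅, ∑ T' ∈ Finset.univ.erase ∅, ∑ f, ∑ f',
        (cf p h T * cf p h T' * (c f * c f')) *
          (chi p (T.image (τ f)) ω * chi p (T'.image (τ f')) ω) := by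
    intro ω
    rw [e1, sq, Finset.sum_mul_sum]
    refine Finset.sum_congr rfl fun T _ => Finset.sum_congr rfl fun T' _ => ?_
    rw [Finset.sum_mul_sum]
    exact Finset.sum_congr rfl fun f _ => Finset.sum_congr rfl fun f' _ => by ring
  rw [EE_congr e3, EE_sum]
  refine Finset.sum_congr rfl fun T hT => ?_
  rw [EE_sum, Finset.sum_eq_single T]
  · rw [EE_sum, Finset.mul_sum]
    refine Finset.sum_congr rfl fun f _ => ?_
    rw [EE_sum, Finset.mul_sum]
    refine Finset.sum_congr rfl fun f' _ => ?_
    rw [EE_mul_left, EE_chi_mul h0 h1]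
    have hiff : T.image (τ f) = T.image (τ f') ↔ ∀ e ∈ T, τ f e = τ f' e := by
      constructor
      · intro he e heT
        have h2 : τ f e ∈ T.image (τ f') := by
          rw [← he]
          exact Finset.mem_image_of_mem _ heT
        obtain ⟨e', _, he'⟩ := Finset.mem_image.1 h2
        have := hτ f' f e' e he'
        rw [this] at he'
        exact he'.symm
      · intro he
        exact Finset.image_congr he
    simp only [hiff]
    ring
  · intro T' _ hT'
    rw [EE_sum]
    refine Finset.sum_eq_zero fun f _ => ?_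
    rw [EE_sum]
    refine Finset.sum_eq_zero fun f' _ => ?_
    rw [EE_mul_left, EE_chi_mul h0 h1, if_neg, mul_zero]
    intro he
    apply hT'
    ext e
    constructor
    · intro heT
      have h2 : τ f' e ∈ T.image (τ f) := by
        rw [he]
        exact Finset.mem_image_of_mem _ heT
      obtain ⟨e', he'T, he'⟩ := Finset.mem_image.1 h2
      rw [← hτ f f' e' e he']
      exact he'T
    · intro heT
      have h2 : τ f e ∈ T'.image (τ f') := by
        rw [← he]
        exact Finset.mem_image_of_mem _ heT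
      obtain ⟨e', he'T, he'⟩ := Finset.mem_image.1 h2
      rw [← hτ f' f e' e he']
      exact he'T
  · intro h
    exact absurd hT h

end pull

end Pool.Agent.H72.Karp
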