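import Pool.Agent.H72.Karp.Graph

/-!
The greedy colouring of an arbitrary set of vertices of the random graph.
-/

set_option autoImplicit false
set_option linter.unusedSectionVars false

namespace Pool.Agent.H72.Karp

open Finset Pool.Agent.H85.Online

variable {n : ℕ} {p : ℝ}

theorem peel_empty (G : SimpleGraph (Fin n)) : peel G ∅ = [] := by
  rw [peel]
  simp

theorem peel_nonempty (G : SimpleGraph (Fin n)) (T : Finset (Fin n)) (h : T.Nonempty) :
    peel G T = greedy G T :: peel G (T \ greedy G T) := by
  rw [peel, dif_pos h]

open Classical in
theorem greedy_indep (G : SimpleGraph (Fin n)) (T : Finset (Fin n)) : Indep G (greedy G T) := by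
  induction hk : T.card using Nat.strong_induction_on generalizing T with
  | _ k ih =>
    rcases T.eq_empty_or_nonempty with h | h
    · rw [h, greedy_of_empty]
      intro u hu
      simp at hu
    · rw [greedy_of_nonempty G T h]
      set v := minVertex G T h with hv
      set T' := T.filter (fun u => u ≠ v ∧ ¬ G.Adj v u) with hT'
      have hlt : T'.card < k := by
        rw [← hk]
        refine Finset.card_lt_card (Finset.filter_ssubset.2 ⟨v, minVertex_mem G T h, ?_⟩)
        simp
      have hi := ih _ hlt T' rfl
      have hsub := greedy_subset G T'
      intro x hx y hy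
      rcases Finset.mem_insert.1 hx with rfl | hx'
      · rcases Finset.mem_insert.1 hy with rfl | hy'
        · exact G.loopless.irrefl _
        · exact (Finset.mem_filter.1 (hsub hy')).2.2
      · rcases Finset.mem_insert.1 hy with rfl | hy'
        · exact fun h' => (Finset.mem_filter.1 (hsub hx')).2.2 h'.symm
        · exact hi x hx' y hy'

theorem peel_spec (G : SimpleGraph (Fin n)) (T : Finset (Fin n)) :
    (∀ I ∈ peel G T, Indep G I) ∧ (peel G T).Pairwise Disjoint ∧ (∀ I ∈ peel G T, I ⊆ T) ∧
      ∀ v ∈ T, ∃ I ∈ peel G T, v ∈ I := by
  induction hk : T.card using Nat.strong_induction_on generalizing T with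
  | _ k ih =>
    rcases T.eq_empty_or_nonempty with h | h
    · rw [h, peel_empty]
      simp
    · rw [peel_nonempty G T h]
      have hlt : (T \ greedy G T).card < k := by
        rw [← hk]
        exact Finset.card_lt_card
          (Finset.sdiff_ssubset (greedy_subset G T) (greedy_nonempty G T h))
      obtain ⟨i1, i2, i3, i4⟩ := ih _ hlt _ rfl
      refine ⟨?_, ?_, ?_, ?_⟩
      · intro I hI
        rcases List.mem_cons.1 hI with rfl | hI
        · exact greedy_indep G T
        · exact i1 I hI
      · refine List.pairwise_cons.2 ⟨fun J hJ => ?_, i2⟩
        exact (Finset.disjoint_sdiff).mono_right (i3 J hJ)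
      · intro I hI
        rcases List.mem_cons.1 hI with rfl | hI
        · exact greedy_subset G T
        · exact (i3 I hI).trans Finset.sdiff_subset
      · intro v hv
        by_cases hv' : v ∈ greedy G T
        · exact ⟨_, List.mem_cons_self, hv'⟩
        · obtain ⟨I, hI, hvI⟩ := i4 v (Finset.mem_sdiff.2 ⟨hv, hv'⟩)
          exact ⟨I, List.mem_cons_of_mem _ hI, hvI⟩

/-- every large set has a vertex of not too large degree -/
def SparseG (d t : ℝ) (G : SimpleGraph (Fin n)) : Prop :=
  ∀ T : Finset (Fin n), t ≤ T.card → ∃ v ∈ T, (degIn G T v : ℝ) ≤ d * T.card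

open Classical in
theorem greedy_card {d t β : ℝ} {G : SimpleGraph (Fin n)} (hG : SparseG d t G) (ht : 0 < t)
    (hβ0 : 0 < β) (hβ1 : β ≤ 1) (hd : 1 ≤ (1 - d - β) * t) (j : ℕ) :
    ∀ T : Finset (Fin n), t ≤ T.card * β ^ j → j + 1 ≤ (greedy G T).card := by
  induction j with
  | zero =>
    intro T hT
    simp only [pow_zero, mul_one] at hT
    have : T.Nonempty := by
      rw [← Finset.card_pos]
      exact_mod_cast lt_of_lt_of_le ht hT
    exact Finset.card_pos.2 (greedy_nonempty G T this)
  | succ j ih =>
    intro T hT
    have hβj : β ^ (j + 1) ≤ 1 := pow_le_one₀ hβ0.le hβ1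
    have hTt : t ≤ T.card := by
      have : (T.card : ℝ) * β ^ (j + 1) ≤ T.card * 1 :=
        mul_le_mul_of_nonneg_left hβj (by positivity)
      linarith
    have hne : T.Nonempty := by
      rw [← Finset.card_pos]
      exact_mod_cast lt_of_lt_of_le ht hTt
    obtain ⟨v, hv, hvd⟩ := hG T hTt
    set u := minVertex G T hne with hu
    have hud : (degIn G T u : ℝ) ≤ d * T.card := by
      have := minVertex_le G T hne hv
      have : (degIn G T u : ℝ) ≤ degIn G T v := by exact_mod_cast this
      linarith
    set T' := T.filter (fun x => x ≠ u ∧ ¬ G.Adj u x) with hT'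
    have hcard : (T.card : ℝ) = T'.card + (1 + degIn G T u) := by
      have h1 : T = T' ∪ insert u (T.filter (fun x => G.Adj u x)) := by
        ext x
        simp only [hT', Finset.mem_union, Finset.mem_filter, Finset.mem_insert]
        constructor
        · intro hx
          by_cases h1 : x = u
          · tauto
          · by_cases h2 : G.Adj u x <;> tauto
        · rintro (h | h | h)
          · exact h.1
          · rw [h]
            exact minVertex_mem G T hne
          · exact h.1
      have h2 : Disjoint T' (insert u (T.filter (fun x => G.Adj u x))) := by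
        rw [Finset.disjoint_left]
        intro x hx hx'
        simp only [hT', Finset.mem_filter] at hx
        rcases Finset.mem_insert.1 hx' with h | h
        · exact hx.2.1 h
        · exact hx.2.2 (Finset.mem_filter.1 h).2
      have h3 : u ∉ T.filter (fun x => G.Adj u x) := by
        simp
      have h4 : T.card = T'.card + (1 + degIn G T u) := by
        conv_lhs => rw [h1]
        rw [Finset.card_union_of_disjoint h2, Finset.card_insert_of_notMem h3]
        unfold degIn
        ring
      exact_mod_cast h4
    have hT'card : β * T.card ≤ T'.card := by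
      have h1 : (1 - d - β) * t ≤ (1 - d - β) * T.card := by
        refine mul_le_mul_of_nonneg_left hTt ?_
        by_contra hcon
        push Not at hcon
        have : (1 - d - β) * t ≤ 0 := mul_nonpos_of_nonpos_of_nonneg hcon.le ht.le
        linarith
      nlinarith
    rw [greedy_of_nonempty G T hne, Finset.card_insert_of_notMem]
    · have := ih T' (by
        calc t ≤ T.card * β ^ (j + 1) := hT
          _ = (β * T.card) * β ^ j := by ring
          _ ≤ T'.card * β ^ j := mul_le_mul_of_nonneg_right hT'card (by positivity))
      change j + 1 + 1 ≤ (greedy G T').card + 1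
      omega
    · intro hmem
      have := greedy_subset G _ hmem
      exact (Finset.mem_filter.1 this).2.1 rfl

theorem peel_length {ℓ M : ℝ} {G : SimpleGraph (Fin n)} (hℓ : 0 < ℓ) (hM : 0 ≤ M)
    (hG : ∀ T : Finset (Fin n), M ≤ T.card → T.Nonempty → ℓ ≤ (greedy G T).card)
    (T : Finset (Fin n)) :
    ((peel G T).length : ℝ) ≤ T.card / ℓ + M := by
  have triv : ∀ T : Finset (Fin n), (peel G T).length ≤ T.card := by
    intro T
    induction hk : T.card using Nat.strong_induction_on generalizing T with
    | _ k ih =>
      rcases T.eq_empty_or_nonempty with h | h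
      · rw [h, peel_empty]
        simp
      · rw [peel_nonempty G T h, List.length_cons]
        have hlt : (T \ greedy G T).card < k := by
          rw [← hk]
          exact Finset.card_lt_card
            (Finset.sdiff_ssubset (greedy_subset G T) (greedy_nonempty G T h))
        have := ih _ hlt _ rfl
        omega
  induction hk : T.card using Nat.strong_induction_on generalizing T with
  | _ k ih =>
    rcases T.eq_empty_or_nonempty with h | h
    · rw [h, peel_empty]
      simp
      positivity
    · by_cases hMT : M ≤ T.card
      · rw [peel_nonempty G T h, List.length_cons]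
        have hlt : (T \ greedy G T).card < k := by
          rw [← hk]
          exact Finset.card_lt_card
            (Finset.sdiff_ssubset (greedy_subset G T) (greedy_nonempty G T h))
        have h1 := ih _ hlt _ rfl
        have h2 : ((T \ greedy G T).card : ℝ) = T.card - (greedy G T).card := by
          rw [Finset.cast_card_sdiff (greedy_subset G T)]
        have h3 := hG T hMT h
        rw [h2] at h1
        push_cast
        rw [← hk]
        have h4 : ((T.card : ℝ) - (greedy G T).card) / ℓ ≤ T.card / ℓ - 1 := by
          rw [sub_div]
          have : 1 ≤ ((greedy G T).card : ℝ) / ℓ := by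
            rw [le_div_iff₀ hℓ]
            linarith
          linarith
        linarith
      · push Not at hMT
        have h1 : ((peel G T).length : ℝ) ≤ T.card := by exact_mod_cast triv T
        have h2 : 0 ≤ (k : ℝ) / ℓ := by positivity
        linarith

end Pool.Agent.H72.Karp
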