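import Pool.Agent.H72.Karp.Graph

/-!
The second moment of averages over the induced subgraphs with one vertex in every group.
-/

set_option autoImplicit false
set_option linter.unusedSectionVars false

namespace Pool.Agent.H72.Karp

open Finset Pool.Agent.H85.Online

variable {n m g : ℕ} {p : ℝ}

/-- the embedding which takes the vertex `f i` of the group `i` -/
def sf (h : m * g ≤ n) (f : Fin m → Fin g) : Fin m ↪ Fin n :=
  ⟨fun a => pt h a (f a), fun _ _ he => (pt_inj h he).1⟩

theorem sf_apply (h : m * g ≤ n) (f : Fin m → Fin g) (a : Fin m) : sf h f a = pt h a (f a) := rfl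

theorem pt_div (h : m * g ≤ n) (i : Fin m) (a : Fin g) : ((pt h i a : Fin n) : ℕ) / g = i := by
  have ha := a.isLt
  have hg : 0 < g := lt_of_le_of_lt (Nat.zero_le _) ha
  simp only [pt]
  rw [mul_comm, Nat.mul_add_div hg, Nat.div_eq_of_lt ha, add_zero]

theorem pmap_sf_eq (h : m * g ≤ n) (f f' : Fin m → Fin g) (e e' : Prs (Fin m))
    (he : pmap (sf h f) e = pmap (sf h f') e') : e = e' := by
  have h1 : e.1.map (sf h f) = e'.1.map (sf h f') := congrArg Subtype.val he
  have h2 : ∀ (f : Fin m → Fin g) (e : Sym2 (Fin m)),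
      (e.map (sf h f)).map (fun x : Fin n => (x : ℕ) / g) = e.map (fun a : Fin m => (a : ℕ)) := by
    intro f e
    rw [Sym2.map_map]
    congr 1
    funext a
    exact pt_div h a (f a)
  have h3 := congrArg (Sym2.map (fun x : Fin n => (x : ℕ) / g)) h1
  rw [h2, h2] at h3
  exact Subtype.ext (Sym2.map.injective Fin.val_injective h3)

theorem agree_of_pmap (h : m * g ≤ n) (f f' : Fin m → Fin g) (e : Prs (Fin m))
    (he : pmap (sf h f) e = pmap (sf h f') e) (j : Fin m) (hj : j ∈ e.1) : f j = f' j := by
  obtain ⟨e, hd⟩ := e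
  induction e using Sym2.ind with
  | _ a b =>
  have h1 : (s(a, b)).map (sf h f) = (s(a, b)).map (sf h f') := congrArg Subtype.val he
  rw [Sym2.map_mk, Sym2.map_mk, Sym2.eq_iff] at h1
  rw [Sym2.mk_isDiag_iff] at hd
  rcases h1 with ⟨e1, e2⟩ | ⟨e1, e2⟩
  · rcases Sym2.mem_iff.1 hj with rfl | rfl
    · exact (pt_inj h e1).2
    · exact (pt_inj h e2).2
  · exact absurd (pt_inj h e1).1 hd

open Classical in
/-- the vertices in the pairs in `T` -/
noncomputable def vs (T : Finset (Prs (Fin m))) : Finset (Fin m) :=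
  Finset.univ.filter fun j => ∃ e ∈ T, j ∈ e.1

theorem sum_sum_prod {α : Type} [Fintype α] (K : Fin m → α → α → ℝ) :
    ∑ f : Fin m → α, ∑ f' : Fin m → α, ∏ j, K j (f j) (f' j) = ∏ j, ∑ a, ∑ b, K j a b := by
  have h1 : ∀ f : Fin m → α, ∑ f' : Fin m → α, ∏ j, K j (f j) (f' j) = ∏ j, ∑ b, K j (f j) b := by
    intro f
    rw [Finset.prod_univ_sum, Fintype.piFinset_univ]
  simp only [h1]
  rw [Finset.prod_univ_sum, Fintype.piFinset_univ]

open Classical in
/-- the weights of the samples: those with prescribed vertices in the groups in `J` -/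
noncomputable def cw (J : Finset (Fin m)) (α : Fin m → Fin g) (f : Fin m → Fin g) : ℝ :=
  (if ∀ j ∈ J, f j = α j then 1 else 0) / (g : ℝ) ^ m

theorem cw_sum (hg : 0 < g) (J : Finset (Fin m)) (α : Fin m → Fin g) :
    ∑ f, cw J α f = (1 / (g : ℝ)) ^ J.card := by
  classical
  have hg' : (0 : ℝ) < g := by exact_mod_cast hg
  have h1 : ∀ f : Fin m → Fin g, cw J α f
      = (∏ j, if j ∈ J then (if f j = α j then (1 : ℝ) else 0) else 1) / (g : ℝ) ^ m := by
    intro f
    unfold cw
    congr 1
    rw [Finset.prod_ite_mem, Finset.univ_inter]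
    split_ifs with h
    · symm
      exact Finset.prod_eq_one fun j hj => by rw [if_pos (h j hj)]
    · push Not at h
      obtain ⟨j, hj, hne⟩ := h
      symm
      exact Finset.prod_eq_zero hj (by rw [if_neg hne])
  simp only [h1]
  rw [← Finset.sum_div]
  have h2 := Finset.prod_univ_sum (fun _ : Fin m => (Finset.univ : Finset (Fin g)))
    (fun j a => if j ∈ J then (if a = α j then (1 : ℝ) else 0) else 1)
  rw [Fintype.piFinset_univ] at h2
  rw [← h2]
  have h3 : ∀ j : Fin m, (∑ a : Fin g, if j ∈ J then (if a = α j then (1 : ℝ) else 0) else 1)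
      = g * (if j ∈ J then 1 / (g : ℝ) else 1) := by
    intro j
    split_ifs
    · rw [Finset.sum_ite_eq' Finset.univ (α j)]
      simp
      field_simp
    · simp
  simp only [h3]
  rw [Finset.prod_mul_distrib, Finset.prod_const, Finset.card_univ, Fintype.card_fin,
    Finset.prod_ite_mem, Finset.univ_inter, Finset.prod_const]
  field_simp

theorem cw_agree_le (hg : 0 < g) (h : m * g ≤ n) (J : Finset (Fin m)) (α : Fin m → Fin g)
    (T : Finset (Prs (Fin m))) [∀ f f' : Fin m → Fin g,
      Decidable (∀ e ∈ T, pmap (sf h f) e = pmap (sf h f') e)] :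
    ∑ f, ∑ f', cw J α f * cw J α f' *
        (if ∀ e ∈ T, pmap (sf h f) e = pmap (sf h f') e then (1 : ℝ) else 0)
      ≤ (1 / (g : ℝ)) ^ (2 * J.card + (vs T \ J).card) := by
  classical
  have hg' : (0 : ℝ) < g := by exact_mod_cast hg
  set K : Fin m → Fin g → Fin g → ℝ := fun j a b =>
    if j ∈ J then (if a = α j ∧ b = α j then 1 else 0)
    else if j ∈ vs T then (if a = b then 1 else 0) else 1 with hK
  have hK0 : ∀ j a b, 0 ≤ K j a b := by
    intro j a b
    simp only [hK]
    split_ifs <;> norm_num
  have h1 : ∀ f f' : Fin m → Fin g, cw J α f * cw J α f' *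
      (if ∀ e ∈ T, pmap (sf h f) e = pmap (sf h f') e then (1 : ℝ) else 0)
      ≤ (∏ j, K j (f j) (f' j)) / ((g : ℝ) ^ m * (g : ℝ) ^ m) := by
    intro f f'
    have hR : 0 ≤ (∏ j, K j (f j) (f' j)) / ((g : ℝ) ^ m * (g : ℝ) ^ m) :=
      div_nonneg (Finset.prod_nonneg fun j _ => hK0 j _ _) (by positivity)
    unfold cw
    by_cases hf : ∀ j ∈ J, f j = α j
    · by_cases hf' : ∀ j ∈ J, f' j = α j
      · by_cases ha : ∀ e ∈ T, pmap (sf h f) e = pmap (sf h f') e
        · have : ∏ j, K j (f j) (f' j) = 1 := by
            refine Finset.prod_eq_one fun j _ => ?_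
            simp only [hK]
            by_cases hj : j ∈ J
            · rw [if_pos hj, if_pos ⟨hf j hj, hf' j hj⟩]
            · rw [if_neg hj]
              by_cases hv : j ∈ vs T
              · rw [if_pos hv, if_pos]
                obtain ⟨e, heT, hje⟩ := (Finset.mem_filter.1 hv).2
                exact agree_of_pmap h f f' e (ha e heT) j hje
              · rw [if_neg hv]
          rw [this, if_pos hf, if_pos hf', if_pos ha]
          apply le_of_eq
          field_simp
        · rw [if_neg ha, mul_zero]
          exact hR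
      · rw [if_neg hf']
        simpa using hR
    · rw [if_neg hf]
      simpa using hR
  refine (Finset.sum_le_sum fun f _ => Finset.sum_le_sum fun f' _ => h1 f f').trans ?_
  simp only [← Finset.sum_div]
  rw [sum_sum_prod]
  have h3 : ∀ j : Fin m, ∑ a, ∑ b, K j a b
      = (g : ℝ) ^ 2 * ((if j ∈ J then (1 / (g : ℝ)) ^ 2 else 1) *
        (if j ∈ vs T \ J then 1 / (g : ℝ) else 1)) := by
    intro j
    simp only [hK, Finset.mem_sdiff]
    by_cases hj : j ∈ J
    · simp only [hj, not_true, and_false, if_false, mul_one, if_true]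
      have : ∀ a b : Fin g, (if a = α j ∧ b = α j then (1 : ℝ) else 0)
          = if a = α j then (if b = α j then 1 else 0) else 0 := by
        intro a b
        by_cases ha : a = α j <;> by_cases hb : b = α j <;> simp [ha, hb]
      simp only [this]
      have e2 : ∑ a : Fin g, ∑ b : Fin g, (if a = α j then (if b = α j then (1 : ℝ) else 0) else 0)
          = 1 := by
        rw [Finset.sum_eq_single (α j)]
        · simp
        · intro b _ hb
          simp [hb]
        · intro h
          exact absurd (Finset.mem_univ _) h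
      rw [e2]
      field_simp
    · simp only [hj, if_false, one_mul, not_false_eq_true, and_true]
      by_cases hv : j ∈ vs T
      · simp only [if_pos hv]
        simp
        field_simp
      · simp only [if_neg hv]
        simp
        ring
  simp only [h3]
  rw [Finset.prod_mul_distrib, Finset.prod_mul_distrib, Finset.prod_const, Finset.card_univ,
    Fintype.card_fin, Finset.prod_ite_mem, Finset.univ_inter, Finset.prod_ite_mem,
    Finset.univ_inter, Finset.prod_const, Finset.prod_const, pow_add, pow_mul]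
  apply le_of_eq
  field_simp
  ring

open Classical in
/-- the variance over the random graph of the average over the samples -/
theorem variance_le (h0 : 0 < p) (h1 : p < 1) (hg : 0 < g) (h : m * g ≤ n)
    (J : Finset (Fin m)) (α : Fin m → Fin g) (hh : SimpleGraph (Fin m) → ℝ) :
    EG p (fun G : SimpleGraph (Fin n) =>
      (∑ f : Fin m → Fin g, cw J α f * hh (G.comap (sf h f)) - (1 / (g : ℝ)) ^ J.card * EG p hh) ^ 2)
      ≤ ∑ T ∈ Finset.univ.erase ∅, cf p (fun ω : Prs (Fin m) → Bool => hh (gr ω)) T ^ 2 *
        (1 / (g : ℝ)) ^ (2 * J.card + (vs T \ J).card) := by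
  have h2 := second_moment (p := p) h0 h1 (fun f : Fin m → Fin g => pmap (sf h f))
    (fun f f' e e' => pmap_sf_eq h f f' e e') (cw J α)
    (fun ω : Prs (Fin m) → Bool => hh (gr ω))
  rw [EG_eq, EG_eq]
  simp only [gr_comp, cw_sum hg] at h2
  rw [h2]
  refine Finset.sum_le_sum fun T _ => mul_le_mul_of_nonneg_left ?_ (sq_nonneg _)
  exact cw_agree_le hg h J α T

end Pool.Agent.H72.Karp
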