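import Pool.Agent.H72.Karp.Bound

/-!
The random relabelling makes the vertices exchangeable.
-/

set_option autoImplicit false
set_option linter.unusedSectionVars false

namespace Pool.Agent.H72.Karp

open Finset Pool.Agent.H85.Online

variable {n m g : ℕ} {p : ℝ}

theorem EG_comap (h0 : 0 < p) (h1 : p < 1) (π : Fin m ↪ Fin m)
    (F : SimpleGraph (Fin m) → ℝ) : EG p (fun G => F (G.comap π)) = EG p F := by
  rw [EG_eq, EG_eq, ← EE_comp h0 h1 (pmap_injective π) (fun ω : Prs (Fin m) → Bool => F (gr ω))]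
  exact EE_congr fun ω => by rw [gr_comp]

theorem EG_nonneg (h0 : 0 < p) (h1 : p < 1) {F : SimpleGraph (Fin n) → ℝ} (h : ∀ G, 0 ≤ F G) :
    0 ≤ EG p F := Finset.sum_nonneg fun G _ => mul_nonneg (weight_nonneg h0 h1 G) (h G)

theorem EG_mono (h0 : 0 < p) (h1 : p < 1) {F F' : SimpleGraph (Fin n) → ℝ} (h : ∀ G, F G ≤ F' G) :
    EG p F ≤ EG p F' :=
  Finset.sum_le_sum fun G _ => mul_le_mul_of_nonneg_left (h G) (weight_nonneg h0 h1 G)

theorem EG_sum {α : Type*} (s : Finset α) (F : α → SimpleGraph (Fin n) → ℝ) :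
    EG p (fun G => ∑ a ∈ s, F a G) = ∑ a ∈ s, EG p (F a) := by
  unfold EG
  rw [Finset.sum_comm]
  exact Finset.sum_congr rfl fun _ _ => by rw [Finset.mul_sum]

theorem EG_mul_left (c : ℝ) (F : SimpleGraph (Fin n) → ℝ) :
    EG p (fun G => c * F G) = c * EG p F := by
  unfold EG
  rw [Finset.mul_sum]
  exact Finset.sum_congr rfl fun _ _ => by ring

theorem EG_div (c : ℝ) (F : SimpleGraph (Fin n) → ℝ) :
    EG p (fun G => F G / c) = EG p F / c := by
  unfold EG
  rw [Finset.sum_div]
  exact Finset.sum_congr rfl fun _ _ => by ring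

variable (A : SetAlg) (s : ℝ)

/-- the set found by the algorithm in the relabelled graph -/
def outp (H : SimpleGraph (Fin m)) (π : Equiv.Perm (Fin m)) (ρ : Fin (A.seeds m)) :
    Finset (Fin m) := A.out m (H.comap π) ρ

/-- success in the relabelled graph -/
def Suc (H : SimpleGraph (Fin m)) (π : Equiv.Perm (Fin m)) (ρ : Fin (A.seeds m)) : Prop :=
  Indep (H.comap π) (outp A H π ρ) ∧ s ≤ ((outp A H π ρ).card : ℝ)

open Classical in
/-- the average over relabellings and seeds of the indicator of success -/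
noncomputable def hw (H : SimpleGraph (Fin m)) : ℝ :=
  (∑ x : Equiv.Perm (Fin m) × Fin (A.seeds m), if Suc A s H x.1 x.2 then (1 : ℝ) else 0)
    / ((m.factorial : ℝ) * A.seeds m)

open Classical in
/-- the average over relabellings and seeds of `1/|B|` if `i` is in the set `B` which was found -/
noncomputable def hv (i : Fin m) (H : SimpleGraph (Fin m)) : ℝ :=
  (∑ x : Equiv.Perm (Fin m) × Fin (A.seeds m),
    if Suc A s H x.1 x.2 ∧ x.1.symm i ∈ outp A H x.1 x.2 then 1 / ((outp A H x.1 x.2).card : ℝ)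
      else 0)
    / ((m.factorial : ℝ) * A.seeds m)

theorem card_index : (Fintype.card (Equiv.Perm (Fin m) × Fin (A.seeds m)) : ℝ)
    = (m.factorial : ℝ) * A.seeds m := by
  rw [Fintype.card_prod, Fintype.card_perm, Fintype.card_fin, Fintype.card_fin]
  push_cast
  ring

theorem hw_nonneg (H : SimpleGraph (Fin m)) : 0 ≤ hw A s H := by
  unfold hw
  refine div_nonneg (Finset.sum_nonneg fun _ _ => ?_) (by positivity)
  split_ifs <;> norm_num

theorem hv_nonneg (i : Fin m) (H : SimpleGraph (Fin m)) : 0 ≤ hv A s i H := by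
  unfold hv
  refine div_nonneg (Finset.sum_nonneg fun _ _ => ?_) (by positivity)
  split_ifs
  · positivity
  · exact le_rfl

theorem avg_le_one (F : Equiv.Perm (Fin m) × Fin (A.seeds m) → ℝ) (hF : ∀ x, F x ≤ 1) :
    (∑ x, F x) / ((m.factorial : ℝ) * A.seeds m) ≤ 1 := by
  rw [← card_index]
  refine div_le_one_of_le₀ ?_ (by positivity)
  refine (Finset.sum_le_sum fun x _ => hF x).trans ?_
  simp

theorem hw_le_one (H : SimpleGraph (Fin m)) : hw A s H ≤ 1 := by
  classical
  unfold hw
  refine avg_le_one A _ fun x => ?_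
  split_ifs <;> norm_num

theorem hv_le_one (i : Fin m) (H : SimpleGraph (Fin m)) : hv A s i H ≤ 1 := by
  classical
  unfold hv
  refine avg_le_one A _ fun x => ?_
  split_ifs with h
  · have : 1 ≤ (outp A H x.1 x.2).card := Finset.card_pos.2 ⟨_, h.2⟩
    rw [div_le_one (by exact_mod_cast this)]
    exact_mod_cast this
  · norm_num

theorem hv_sum (hs : 0 < s) (H : SimpleGraph (Fin m)) : ∑ i, hv A s i H = hw A s H := by
  classical
  unfold hv hw
  rw [← Finset.sum_div, Finset.sum_comm]
  congr 1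
  refine Finset.sum_congr rfl fun x _ => ?_
  by_cases h : Suc A s H x.1 x.2
  · rw [if_pos h]
    simp only [h, true_and]
    have hc : (0 : ℝ) < (outp A H x.1 x.2).card := lt_of_lt_of_le hs h.2
    rw [← Finset.sum_filter, Finset.sum_const, nsmul_eq_mul]
    have : (Finset.univ.filter fun i => x.1.symm i ∈ outp A H x.1 x.2)
        = (outp A H x.1 x.2).map x.1.toEmbedding := by
      ext i
      simp only [Finset.mem_filter, Finset.mem_univ, true_and, Finset.mem_map_equiv]
    rw [this, Finset.card_map]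
    field_simp
  · simp [h]

theorem EG_hw (h0 : 0 < p) (h1 : p < 1) :
    EG p (hw A s : SimpleGraph (Fin m) → ℝ) = A.success p m s := by
  classical
  have e1 : ∀ H : SimpleGraph (Fin m), hw A s H
      = (∑ x : Equiv.Perm (Fin m) × Fin (A.seeds m), if Suc A s H x.1 x.2 then (1 : ℝ) else 0)
        / ((m.factorial : ℝ) * A.seeds m) := fun H => rfl
  rw [show (hw A s : SimpleGraph (Fin m) → ℝ) = fun H => _ from funext e1, EG_div, EG_sum]
  have e2 : ∀ x : Equiv.Perm (Fin m) × Fin (A.seeds m),
      EG p (fun H : SimpleGraph (Fin m) => if Suc A s H x.1 x.2 then (1 : ℝ) else 0)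
      = Prob p (fun G : SimpleGraph (Fin m) =>
        Indep G (A.out m G x.2) ∧ s ≤ ((A.out m G x.2).card : ℝ)) := by
    intro x
    rw [Prob_eq]
    refine Eq.trans ?_ (EG_comap h0 h1 x.1.toEmbedding _)
    unfold EG
    refine Finset.sum_congr rfl fun H _ => ?_
    congr 1
  simp only [e2]
  rw [Fintype.sum_prod_type]
  simp only [Finset.sum_const, Finset.card_univ, Fintype.card_perm, Fintype.card_fin, nsmul_eq_mul]
  unfold SetAlg.success
  rw [mul_div_mul_left]
  exact_mod_cast (Nat.factorial_ne_zero m)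

theorem hv_perm (τ : Equiv.Perm (Fin m)) (i : Fin m) (H : SimpleGraph (Fin m)) :
    hv A s (τ i) H = hv A s i (H.comap τ) := by
  classical
  unfold hv
  congr 1
  symm
  refine Fintype.sum_equiv ((Equiv.mulLeft τ).prodCongr (Equiv.refl _)) _ _ fun x => ?_
  have e1 : H.comap ((τ * x.1 : Equiv.Perm (Fin m)) : Fin m → Fin m)
      = (H.comap τ).comap x.1 := by
    rw [SimpleGraph.comap_comap]
    rfl
  have e2 : outp A H (τ * x.1) x.2 = outp A (H.comap τ) x.1 x.2 := by
    unfold outp
    rw [e1]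
  have e3 : Suc A s H (τ * x.1) x.2 = Suc A s (H.comap τ) x.1 x.2 := by
    unfold Suc
    rw [e1, e2]
  have e4 : (τ * x.1 : Equiv.Perm (Fin m)).symm (τ i) = x.1.symm i := by
    simp [Equiv.Perm.mul_def]
  simp only [Equiv.prodCongr_apply, Prod.map_fst, Prod.map_snd, Equiv.coe_mulLeft, Equiv.refl_apply,
    e2, e3, e4]

theorem EG_hv (h0 : 0 < p) (h1 : p < 1) (hs : 0 < s) (i : Fin m) :
    EG p (hv A s i : SimpleGraph (Fin m) → ℝ) = A.success p m s / m := by
  have hsame : ∀ j, EG p (hv A s j : SimpleGraph (Fin m) → ℝ)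
      = EG p (hv A s i : SimpleGraph (Fin m) → ℝ) := by
    intro j
    rw [← EG_comap h0 h1 (Equiv.swap i j).toEmbedding (hv A s i)]
    have e : ∀ H : SimpleGraph (Fin m), hv A s j H
        = hv A s i (H.comap (Equiv.swap i j).toEmbedding) := by
      intro H
      have := hv_perm A s (Equiv.swap i j) i H
      rw [Equiv.swap_apply_left] at this
      exact this
    rw [show (hv A s j : SimpleGraph (Fin m) → ℝ) = fun H => _ from funext e]
  have h2 : ∑ j, EG p (hv A s j : SimpleGraph (Fin m) → ℝ) = A.success p m s := by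
    rw [← EG_hw A s h0 h1, ← EG_sum]
    congr 1
    funext H
    exact hv_sum A s hs H
  simp only [hsame, Finset.sum_const, Finset.card_univ, Fintype.card_fin, nsmul_eq_mul] at h2
  have hm : (0 : ℝ) < m := by
    have := i.isLt
    exact_mod_cast (show 0 < m by omega)
  rw [← h2]
  field_simp

end Pool.Agent.H72.Karp
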